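import Mathlib

open MeasureTheory

universe u

namespace Pool.Agent.Helper872.LoadBal

/-- An event: the arrival of a task named `l` of weight `w`, or the departure of the task
named `l`. -/
inductive Ev
  | arr (l : ℕ) (w : ℝ)
  | dep (l : ℕ)

/-- Names of the tasks that are active after the input `σ` (most recent event first). -/
def act : List Ev → List ℕ
  | [] => []
  | Ev.arr l _ :: h => l :: act h
  | Ev.dep l :: h => (act h).filter (fun x => x ≠ l)

/-- Well-formed inputs (most recent event first): weights are positive, the name of an arriving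
task is not in use, and only active tasks depart. -/
def Valid : List Ev → Prop
  | [] => True
  | Ev.arr l w :: h => Valid h ∧ 0 < w ∧ l ∉ act h
  | Ev.dep l :: h => Valid h ∧ l ∈ act h

/-- The active tasks (name, weight, machine) after an input with assigned machines. The machine
written next to a departure is ignored. -/
def st {n : ℕ} : List (Ev × Fin n) → List (ℕ × ℝ × Fin n)
  | [] => []
  | (Ev.arr l w, m) :: h => (l, w, m) :: st h
  | (Ev.dep l, _) :: h => (st h).filter (fun x => x.1 ≠ l)

/-- Load of machine `i`. -/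
def load {n : ℕ} (s : List (ℕ × ℝ × Fin n)) (i : Fin n) : ℝ :=
  (s.map (fun x => if x.2.2 = i then x.2.1 else 0)).sum

/-- Cost: the maximum load over all machines and all times. -/
noncomputable def cost {n : ℕ} : List (Ev × Fin n) → ℝ
  | [] => 0
  | a :: h => max (cost h) (⨆ i : Fin n, load (st (a :: h)) i)

/-- The optimal offline cost on `n` machines. -/
noncomputable def OPT (n : ℕ) (σ : List Ev) : ℝ :=
  sInf {c | ∃ b : List (Ev × Fin n), b.map Prod.fst = σ ∧ c = cost b}

/-- The assignment made by the deterministic online algorithm `F` (machine for the newest task as a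
function of the input so far). -/
def ann {n : ℕ} (F : List Ev → Fin n) : List Ev → List (Ev × Fin n)
  | [] => []
  | e :: h => (e, F (e :: h)) :: ann F h

/-- A randomized online algorithm: a random deterministic one. -/
structure RandAlg (n : ℕ) where
  Ω : Type u
  [mΩ : MeasurableSpace Ω]
  μ : Measure Ω
  [prob : IsProbabilityMeasure μ]
  A : Ω → List Ev → Fin n
  meas : ∀ σ, Measurable (fun ω => A ω σ)

attribute [instance] RandAlg.mΩ RandAlg.prob

/-- Expected cost on the fixed input `σ`. -/
noncomputable def RandAlg.ecost {n : ℕ} (R : RandAlg.{u} n) (σ : List Ev) : ℝ :=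
  ∫ ω, cost (ann (R.A ω) σ) ∂(R.μ)

def RandAlg.Competitive {n : ℕ} (R : RandAlg.{u} n) (c : ℝ) : Prop :=
  ∀ σ, Valid σ → R.ecost σ ≤ c * OPT n σ

/-! ### basic lemmas -/

variable {n : ℕ}

lemma load_nil (i : Fin n) : load [] i = 0 := rfl

lemma load_cons (x : ℕ × ℝ × Fin n) (s : List (ℕ × ℝ × Fin n)) (i : Fin n) :
    load (x :: s) i = (if x.2.2 = i then x.2.1 else 0) + load s i := by
  simp [load]

lemma load_append (s t : List (ℕ × ℝ × Fin n)) (i : Fin n) :
    load (s ++ t) i = load s i + load t i := by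
  simp [load]

lemma cost_nonneg : ∀ b : List (Ev × Fin n), 0 ≤ cost b
  | [] => le_refl _
  | _ :: h => le_max_of_le_left (cost_nonneg h)

lemma load_le_cost (a : Ev × Fin n) (h : List (Ev × Fin n)) (i : Fin n) :
    load (st (a :: h)) i ≤ cost (a :: h) := by
  unfold cost
  exact le_max_of_le_right (le_ciSup (f := fun i => load (st (a :: h)) i)
    (Set.finite_range _).bddAbove i)

lemma cost_append_ge (b b' : List (Ev × Fin n)) : cost b' ≤ cost (b ++ b') := by
  induction b with
  | nil => exact le_refl _
  | cons a b ih => exact le_trans ih (le_max_left _ _)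

lemma st_map (b : List (Ev × Fin n)) : (st b).map Prod.fst = act (b.map Prod.fst) := by
  induction b with
  | nil => rfl
  | cons a b ih =>
    obtain ⟨e, m⟩ := a
    cases e with
    | arr l w => simp [st, act, ih]
    | dep l =>
      simp only [st, act, List.map_cons, ← ih, List.filter_map]
      rfl

lemma act_append (s σ : List Ev) (h : act σ = []) : act (s ++ σ) = act s := by
  induction s with
  | nil => exact h
  | cons e s ih => cases e <;> simp [act, ih]

lemma valid_append (s σ : List Ev) (h : act σ = []) (hs : Valid s) (hσ : Valid σ) :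
    Valid (s ++ σ) := by
  induction s with
  | nil => simpa using hσ
  | cons e s ih =>
    cases e with
    | arr l w =>
      simp only [Valid, List.cons_append] at hs ⊢
      exact ⟨ih hs.1, hs.2.1, by rw [act_append _ _ h]; exact hs.2.2⟩
    | dep l =>
      simp only [Valid, List.cons_append] at hs ⊢
      exact ⟨ih hs.1, by rw [act_append _ _ h]; exact hs.2⟩

lemma st_append (b b' : List (Ev × Fin n)) (h : st b' = []) : st (b ++ b') = st b := by
  induction b with
  | nil => exact h
  | cons a b ih =>
    obtain ⟨e, m⟩ := a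
    cases e <;> simp [st, ih]

lemma cost_append (b b' : List (Ev × Fin n)) (h : st b' = []) :
    cost (b ++ b') = max (cost b') (cost b) := by
  induction b with
  | nil => simp [cost, cost_nonneg]
  | cons a b ih =>
    have h1 : st (a :: (b ++ b')) = st (a :: b) := by
      have := st_append (a :: b) b' h
      simpa using this
    simp only [List.cons_append, cost, ih, h1]
    rw [max_assoc]

lemma ann_append (F : List Ev → Fin n) (s σ : List Ev) :
    ann F (s ++ σ) = ann (fun t => F (t ++ σ)) s ++ ann F σ := by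
  induction s with
  | nil => rfl
  | cons e s ih => simp [ann, ih]

lemma ann_fst (F : List Ev → Fin n) (s : List Ev) : (ann F s).map Prod.fst = s := by
  induction s with
  | nil => rfl
  | cons e s ih => simp [ann, ih]

lemma st_ann_nil (F : List Ev → Fin n) (σ : List Ev) (h : act σ = []) : st (ann F σ) = [] := by
  have := st_map (ann F σ)
  rw [ann_fst, h] at this
  exact List.map_eq_nil_iff.mp this

lemma st_nil_of (b : List (Ev × Fin n)) (σ : List Ev) (hb : b.map Prod.fst = σ)
    (h : act σ = []) : st b = [] := by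
  have := st_map b
  rw [hb, h] at this
  exact List.map_eq_nil_iff.mp this

lemma fin_ann (σ : List Ev) : {b : List (Ev × Fin n) | b.map Prod.fst = σ}.Finite := by
  induction σ with
  | nil => simp
  | cons e σ ih =>
    refine ((Set.finite_univ (α := Fin n)).image2
      (fun (i : Fin n) (b : List (Ev × Fin n)) => ((e, i) :: b)) ih).subset ?_
    rintro b hb
    cases b with
    | nil => simp at hb
    | cons a b =>
      simp only [Set.mem_ofPred_eq, List.map_cons, List.cons.injEq] at hb
      refine ⟨a.2, Set.mem_univ _, b, hb.2, ?_⟩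
      rw [← hb.1]

lemma OPT_le (b : List (Ev × Fin n)) (σ : List Ev) (hb : b.map Prod.fst = σ) :
    OPT n σ ≤ cost b := by
  apply csInf_le
  · refine ⟨0, ?_⟩
    rintro c ⟨b, -, rfl⟩
    exact cost_nonneg b
  · exact ⟨b, hb, rfl⟩

lemma cost_bound (σ : List Ev) : ∃ C, ∀ b : List (Ev × Fin n), b.map Prod.fst = σ → cost b ≤ C := by
  obtain ⟨C, hC⟩ := ((fin_ann (n := n) σ).image cost).bddAbove
  exact ⟨C, fun b hb => hC ⟨b, hb, rfl⟩⟩

lemma meas_ann (R : RandAlg.{u} n) (σ : List Ev) :
    ∀ P : List (Ev × Fin n) → Prop, MeasurableSet {ω | P (ann (R.A ω) σ)} := by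
  induction σ with
  | nil => intro P; simp [ann]
  | cons e h ih =>
    intro P
    have : {ω | P (ann (R.A ω) (e :: h))} =
        ⋃ i : Fin n, ({ω | R.A ω (e :: h) = i} ∩ {ω | P ((e, i) :: ann (R.A ω) h)}) := by
      ext ω
      simp [ann]
    rw [this]
    refine MeasurableSet.iUnion (fun i => MeasurableSet.inter ?_ (ih (fun b => P ((e, i) :: b))))
    exact (R.meas (e :: h)) (measurableSet_singleton i)

lemma integrable_cost (R : RandAlg.{u} n) (σ : List Ev) :
    Integrable (fun ω => cost (ann (R.A ω) σ)) R.μ := by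
  obtain ⟨C, hC⟩ := cost_bound (n := n) σ
  refine Integrable.of_bound (C := C) ?_ ?_
  · refine Measurable.aestronglyMeasurable ?_
    intro U _
    exact meas_ann R σ (fun b => cost b ∈ U)
  · refine Filter.Eventually.of_forall (fun ω => ?_)
    rw [Real.norm_eq_abs, abs_of_nonneg (cost_nonneg _)]
    exact hC _ (ann_fst _ _)

/-- **Repeat trick.** -/
theorem repeat_trick (hn : 0 < n) (L H : ℝ) (hL : 0 ≤ L) (hH : 0 < H) (S : Set (List Ev)) (hS : S.Finite)
    (hgood : ∀ s ∈ S, Valid s ∧ act s = [] ∧ ∃ b : List (Ev × Fin n), b.map Prod.fst = s ∧ cost b ≤ L)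
    (hwin : ∀ F : List Ev → Fin n, ∃ s ∈ S, H ≤ cost (ann F s))
    (R : RandAlg.{u} n) (c : ℝ) (hc : R.Competitive c) : H ≤ c * L := by
  classical
  set T := hS.toFinset with hT
  have hTne : T.Nonempty := by
    obtain ⟨s, hs, -⟩ := hwin (fun _ => ⟨0, hn⟩)
    exact ⟨s, by simpa [hT] using hs⟩
  set N : ℝ := (T.card : ℝ) with hN
  have hNpos : 0 < N := by rw [hN]; exact_mod_cast hTne.card_pos
  have hN1 : 1 ≤ N := by rw [hN]; exact_mod_cast hTne.card_pos
  -- induction
  have key : ∀ K : ℕ, ∃ σ, Valid σ ∧ act σ = [] ∧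
      (∃ b : List (Ev × Fin n), b.map Prod.fst = σ ∧ cost b ≤ L) ∧
      R.μ.real {ω | cost (ann (R.A ω) σ) < H} ≤ (1 - 1 / N) ^ K := by
    intro K
    induction K with
    | zero =>
      refine ⟨[], trivial, rfl, ⟨[], rfl, by simpa [cost] using hL⟩, ?_⟩
      simp
    | succ K ih =>
      obtain ⟨σ, hv, ha, ⟨b, hb, hbL⟩, hμ⟩ := ih
      set B : Set R.Ω := {ω | cost (ann (R.A ω) σ) < H} with hB
      let hit : List Ev → Set R.Ω := fun s => {ω | H ≤ cost (ann (R.A ω) (s ++ σ))}
      have hmeasB : MeasurableSet B := meas_ann R σ (fun b => cost b < H)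
      have hmeasH : ∀ s, MeasurableSet (hit s) := fun s =>
        meas_ann R (s ++ σ) (fun b => H ≤ cost b)
      have hcover : B ⊆ ⋃ s ∈ T, (B ∩ hit s) := by
        intro ω hω
        obtain ⟨s, hs, hsH⟩ := hwin (fun t => R.A ω (t ++ σ))
        simp only [Set.mem_iUnion]
        refine ⟨s, by simpa [hT] using hs, hω, ?_⟩
        change H ≤ cost (ann (R.A ω) (s ++ σ))
        rw [ann_append, cost_append _ _ (st_ann_nil _ _ ha)]
        exact le_max_of_le_right hsH
      have hsum : R.μ.real B ≤ ∑ s ∈ T, R.μ.real (B ∩ hit s) :=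
        le_trans (measureReal_mono hcover (measure_ne_top _ _)) (measureReal_biUnion_finset_le _ _)
      obtain ⟨s, hs, hsB⟩ : ∃ s ∈ T, R.μ.real B / N ≤ R.μ.real (B ∩ hit s) := by
        by_contra hcon
        push Not at hcon
        have : ∑ s ∈ T, R.μ.real (B ∩ hit s) < ∑ _s ∈ T, R.μ.real B / N :=
          Finset.sum_lt_sum_of_nonempty hTne hcon
        rw [Finset.sum_const, nsmul_eq_mul, ← hN, mul_div_cancel₀ _ hNpos.ne'] at this
        linarith
      obtain ⟨hsv, hsa, bs, hbs, hbsL⟩ := hgood s (by simpa [hT] using hs)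
      refine ⟨s ++ σ, valid_append _ _ ha hsv hv, by rw [act_append _ _ ha, hsa],
        ⟨bs ++ b, by simp [hb, hbs], ?_⟩, ?_⟩
      · rw [cost_append _ _ (st_nil_of b σ hb ha)]
        exact max_le hbL hbsL
      · have hsub : {ω | cost (ann (R.A ω) (s ++ σ)) < H} ⊆ B \ (B ∩ hit s) := by
          intro ω hω
          have h1 : cost (ann (R.A ω) (s ++ σ)) < H := hω
          refine ⟨?_, ?_⟩
          · change cost (ann (R.A ω) σ) < H
            refine lt_of_le_of_lt ?_ h1
            rw [ann_append]
            exact cost_append_ge _ _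
          · rintro ⟨-, h2⟩
            exact absurd h1 (not_lt.mpr h2)
        have h3 : R.μ.real (B \ (B ∩ hit s)) = R.μ.real B - R.μ.real (B ∩ hit s) :=
          measureReal_sdiff Set.inter_subset_left (hmeasB.inter (hmeasH s))
        calc R.μ.real {ω | cost (ann (R.A ω) (s ++ σ)) < H}
            ≤ R.μ.real (B \ (B ∩ hit s)) := measureReal_mono hsub
          _ = R.μ.real B - R.μ.real (B ∩ hit s) := h3
          _ ≤ R.μ.real B - R.μ.real B / N := by linarith
          _ = (1 - 1 / N) * R.μ.real B := by ring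
          _ ≤ (1 - 1 / N) * (1 - 1 / N) ^ K := by
              apply mul_le_mul_of_nonneg_left hμ
              rw [sub_nonneg, div_le_one hNpos]; exact hN1
          _ = (1 - 1 / N) ^ (K + 1) := by ring
  have hc0 : ∀ K : ℕ, H * (1 - (1 - 1 / N) ^ K) ≤ max c 0 * L := by
    intro K
    obtain ⟨σ, hv, ha, ⟨b, hb, hbL⟩, hμ⟩ := key K
    have h1 := hc σ hv
    have hopt : OPT n σ ≤ L := (OPT_le b σ hb).trans hbL
    have hopt0 : 0 ≤ OPT n σ := by
      apply Real.sInf_nonneg
      rintro x ⟨b, -, rfl⟩
      exact cost_nonneg b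
    have h2 : H * R.μ.real {ω | H ≤ cost (ann (R.A ω) σ)} ≤ R.ecost σ :=
      mul_meas_ge_le_integral_of_nonneg (Filter.Eventually.of_forall (fun ω => cost_nonneg _))
        (integrable_cost R σ) H
    have h3 : R.μ.real {ω | H ≤ cost (ann (R.A ω) σ)} =
        1 - R.μ.real {ω | cost (ann (R.A ω) σ) < H} := by
      have := probReal_compl_eq_one_sub (μ := R.μ) (meas_ann R σ (fun b => cost b < H))
      rw [← this]
      congr 1
      ext ω
      simp
    rw [h3] at h2
    have h4 : H * (1 - (1 - 1 / N) ^ K) ≤ R.ecost σ := by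
      refine le_trans ?_ h2
      apply mul_le_mul_of_nonneg_left _ hH.le
      linarith
    refine h4.trans (h1.trans ?_)
    exact mul_le_mul (le_max_left _ _) hopt hopt0 (le_max_right _ _)
  have hlim : Filter.Tendsto (fun K : ℕ => H * (1 - (1 - 1 / N) ^ K)) Filter.atTop
      (nhds (H * (1 - 0))) := by
    apply Filter.Tendsto.const_mul
    apply Filter.Tendsto.const_sub
    apply tendsto_pow_atTop_nhds_zero_of_lt_one
    · rw [sub_nonneg, div_le_one hNpos]; exact hN1
    · have : 0 < 1 / N := by positivity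
      linarith
  have h5 : H ≤ max c 0 * L := by
    have := le_of_tendsto hlim (Filter.Eventually.of_forall hc0)
    simpa using this
  rcases le_total c 0 with h | h
  · rw [max_eq_right h, zero_mul] at h5
    exact absurd h5 (not_le.mpr hH)
  · rwa [max_eq_left h] at h5


/-! ### scripts -/

/-- `k` arrivals of weight `w` with names `a, …, a+k-1` (most recent first). -/
def arrs (a : ℕ) (w : ℝ) : ℕ → List Ev
  | 0 => []
  | k + 1 => Ev.arr (a + k) w :: arrs a w k

/-- departures of the tasks in `D` -/
noncomputable def deps (D : Finset ℕ) : List Ev := D.toList.map Ev.dep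

/-- total load of machine `i` when the active set is `A`. -/
noncomputable def LD (W : ℕ → ℝ) (M : ℕ → Fin n) (A : Finset ℕ) (i : Fin n) : ℝ :=
  ∑ l ∈ A, if M l = i then W l else 0

/-- the state of `b` is described by the active set `A`, weights `W`, machines `M` -/
def Rep (W : ℕ → ℝ) (M : ℕ → Fin n) (b : List (Ev × Fin n)) (A : Finset ℕ) : Prop :=
  ((st b : List (ℕ × ℝ × Fin n)) : Multiset (ℕ × ℝ × Fin n)) = A.val.map (fun l => (l, W l, M l))

lemma Rep.load {W : ℕ → ℝ} {M : ℕ → Fin n} {b : List (Ev × Fin n)} {A : Finset ℕ}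
    (h : Rep W M b A) (i : Fin n) : load (st b) i = LD W M A i := by
  unfold Rep at h
  unfold LoadBal.load LD
  have : ((st b : List (ℕ × ℝ × Fin n)) : Multiset (ℕ × ℝ × Fin n)).map
      (fun x => if x.2.2 = i then x.2.1 else 0) =
      A.val.map (fun l => if M l = i then W l else 0) := by
    rw [h, Multiset.map_map]; rfl
  have h2 := congrArg Multiset.sum this
  rw [Multiset.map_coe, Multiset.sum_coe] at h2
  rw [h2]; rfl

lemma Rep.arr {W : ℕ → ℝ} {M : ℕ → Fin n} {b : List (Ev × Fin n)} {A : Finset ℕ}
    (h : Rep W M b A) (l : ℕ) (hl : l ∉ A) : Rep W M ((Ev.arr l (W l), M l) :: b) (insert l A) := by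
  unfold Rep at h ⊢
  rw [Finset.insert_val_of_notMem hl, Multiset.map_cons, ← h]
  rfl

lemma Rep.dep {W : ℕ → ℝ} {M : ℕ → Fin n} {b : List (Ev × Fin n)} {A : Finset ℕ}
    (h : Rep W M b A) (l : ℕ) (m : Fin n) : Rep W M ((Ev.dep l, m) :: b) (A.erase l) := by
  unfold Rep at h ⊢
  have h1 : (A.erase l).val = A.val.filter (fun x => x ≠ l) := by
    rw [← Finset.filter_val]
    congr 1
    ext x
    simp [and_comm]
  have h2 : ((st ((Ev.dep l, m) :: b) : List (ℕ × ℝ × Fin n)) : Multiset (ℕ × ℝ × Fin n)) =
      Multiset.filter (fun x => x.1 ≠ l) ((st b : List (ℕ × ℝ × Fin n)) : Multiset (ℕ × ℝ × Fin n)) :=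
    rfl
  rw [h1, h2, h, Multiset.filter_map]
  rfl

lemma Rep.congr {W : ℕ → ℝ} {M M' : ℕ → Fin n} {b : List (Ev × Fin n)} {A : Finset ℕ}
    (h : Rep W M b A) (hM : ∀ l ∈ A, M' l = M l) : Rep W M' b A := by
  unfold Rep at h ⊢
  rw [h]
  apply Multiset.map_congr rfl
  intro l hl
  rw [hM l hl]

/-- run the list of departures -/
lemma Rep.deps {W : ℕ → ℝ} {M : ℕ → Fin n} : ∀ (dl : List ℕ) (b1 b : List (Ev × Fin n))
    (A : Finset ℕ), Rep W M b A → b1.map Prod.fst = dl.map Ev.dep →
    Rep W M (b1 ++ b) (A \ dl.toFinset) := by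
  intro dl
  induction dl with
  | nil =>
    intro b1 b A h hb
    simp only [List.map_nil, List.map_eq_nil_iff] at hb
    subst hb
    simpa using h
  | cons l dl ih =>
    intro b1 b A h hb
    cases b1 with
    | nil => simp at hb
    | cons x b1 =>
      simp only [List.map_cons, List.cons.injEq] at hb
      obtain ⟨e, m⟩ := x
      simp only at hb
      obtain ⟨rfl, hb⟩ := hb
      have := (ih b1 b A h hb).dep l m
      have h5 : A \ (l :: dl).toFinset = (A \ dl.toFinset).erase l := by
        ext x
        simp only [Finset.mem_sdiff, List.toFinset_cons, Finset.mem_insert, List.mem_toFinset,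
          Finset.mem_erase]
        tauto
      rw [h5]
      exact this

lemma LD_mono {W : ℕ → ℝ} (hW : ∀ l, 0 ≤ W l) {M : ℕ → Fin n} {A B : Finset ℕ} (h : A ⊆ B)
    (i : Fin n) : LD W M A i ≤ LD W M B i := by
  unfold LD
  apply Finset.sum_le_sum_of_subset_of_nonneg h
  intro l _ _
  split_ifs
  · exact hW l
  · exact le_refl _

lemma LD_nonneg {W : ℕ → ℝ} (hW : ∀ l, 0 ≤ W l) {M : ℕ → Fin n} (A : Finset ℕ)
    (i : Fin n) : 0 ≤ LD W M A i := by
  unfold LD
  apply Finset.sum_nonneg
  intro l _
  split_ifs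
  · exact hW l
  · exact le_refl _

/-- Online algorithm: run arrivals. -/
lemma run_arrs (F : List Ev → Fin n) (W : ℕ → ℝ) (h : List Ev) (A : Finset ℕ) (M : ℕ → Fin n)
    (hR : Rep W M (ann F h) A) (a : ℕ) (hA : ∀ l ∈ A, l < a) (w : ℝ) (k : ℕ)
    (hw : ∀ l, a ≤ l → l < a + k → W l = w) :
    ∃ M' : ℕ → Fin n, (∀ l < a, M' l = M l) ∧
      Rep W M' (ann F (arrs a w k ++ h)) (A ∪ Finset.Ico a (a + k)) := by
  induction k with
  | zero => exact ⟨M, fun _ _ => rfl, by simpa [arrs] using hR⟩
  | succ k ih =>
    obtain ⟨M', hM', hR'⟩ := ih (fun l h1 h2 => hw l h1 (by omega))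
    refine ⟨Function.update M' (a + k) (F (Ev.arr (a + k) w :: (arrs a w k ++ h))), ?_, ?_⟩
    · intro l hl
      rw [Function.update_of_ne (by omega)]
      exact hM' l hl
    · have hnot : a + k ∉ A ∪ Finset.Ico a (a + k) := by
        simp only [Finset.mem_union, Finset.mem_Ico, not_or]
        refine ⟨fun h1 => ?_, by omega⟩
        have := hA _ h1
        omega
      set M'' := Function.update M' (a + k) (F (Ev.arr (a + k) w :: (arrs a w k ++ h))) with hM''
      have h1 : Rep W M'' (ann F (arrs a w k ++ h)) (A ∪ Finset.Ico a (a + k)) := by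
        apply hR'.congr
        intro l hl
        rw [hM'', Function.update_of_ne]
        rintro rfl
        exact hnot hl
      have h2 := h1.arr (a + k) hnot
      rw [hw (a + k) (by omega) (by omega)] at h2
      have h3 : M'' (a + k) = F (Ev.arr (a + k) w :: (arrs a w k ++ h)) := by
        rw [hM'', Function.update_self]
      rw [h3] at h2
      have h4 : insert (a + k) (A ∪ Finset.Ico a (a + k)) = A ∪ Finset.Ico a (a + (k + 1)) := by
        ext x
        simp only [Finset.mem_insert, Finset.mem_union, Finset.mem_Ico]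
        constructor
        · rintro (rfl | h | h)
          · right; omega
          · left; exact h
          · right; omega
        · rintro (h | h)
          · right; left; exact h
          · by_cases hx : x = a + k
            · left; exact hx
            · right; right; omega
      rw [h4] at h2
      exact h2

/-- Online algorithm: run departures. -/
lemma run_deps (F : List Ev → Fin n) (W : ℕ → ℝ) (h : List Ev) (A : Finset ℕ) (M : ℕ → Fin n)
    (hR : Rep W M (ann F h) A) (D : Finset ℕ) : Rep W M (ann F (deps D ++ h)) (A \ D) := by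
  rw [ann_append]
  have := Rep.deps D.toList (ann (fun t => F (t ++ h)) (deps D)) (ann F h) A hR
    (by rw [ann_fst]; rfl)
  simpa using this

/-- validity bookkeeping -/
def VA (h : List Ev) (A : Finset ℕ) : Prop :=
  Valid h ∧ (act h).Nodup ∧ (act h).toFinset = A

lemma VA.arrs {h : List Ev} {A : Finset ℕ} (hv : VA h A) (a : ℕ) (hA : ∀ l ∈ A, l < a) (w : ℝ)
    (hw : 0 < w) (k : ℕ) : VA (arrs a w k ++ h) (A ∪ Finset.Ico a (a + k)) := by
  induction k with
  | zero => simpa [LoadBal.arrs] using hv
  | succ k ih =>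
    obtain ⟨h1, h2, h3⟩ := ih
    have hnot : a + k ∉ A ∪ Finset.Ico a (a + k) := by
      simp only [Finset.mem_union, Finset.mem_Ico, not_or]
      refine ⟨fun h1 => ?_, by omega⟩
      have := hA _ h1
      omega
    have hnot' : a + k ∉ act (LoadBal.arrs a w k ++ h) := by
      intro hh
      apply hnot
      rw [← h3]
      simpa using hh
    refine ⟨⟨h1, hw, hnot'⟩, ?_, ?_⟩
    · simp only [LoadBal.arrs, List.cons_append, act, List.nodup_cons]
      exact ⟨hnot', h2⟩
    · simp only [LoadBal.arrs, List.cons_append, act, List.toFinset_cons, h3]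
      ext x
      simp only [Finset.mem_insert, Finset.mem_union, Finset.mem_Ico]
      constructor
      · rintro (rfl | h | h)
        · right; omega
        · left; exact h
        · right; omega
      · rintro (h | h)
        · right; left; exact h
        · by_cases hx : x = a + k
          · left; exact hx
          · right; right; omega

lemma VA.depsl : ∀ (dl : List ℕ) (h : List Ev) (A : Finset ℕ), VA h A → dl.Nodup →
    (∀ l ∈ dl, l ∈ A) → VA (dl.map Ev.dep ++ h) (A \ dl.toFinset) := by
  intro dl
  induction dl with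
  | nil => intro h A hv _ _; simpa using hv
  | cons l dl ih =>
    intro h A hv hnd hm
    rw [List.nodup_cons] at hnd
    obtain ⟨h1, h2, h3⟩ := ih h A hv hnd.2 (fun x hx => hm x (List.mem_cons_of_mem _ hx))
    have hmem : l ∈ act (dl.map Ev.dep ++ h) := by
      rw [← List.mem_toFinset, h3]
      simp only [Finset.mem_sdiff, List.mem_toFinset]
      exact ⟨hm l (List.mem_cons_self), hnd.1⟩
    refine ⟨⟨h1, hmem⟩, ?_, ?_⟩
    · simp only [List.map_cons, List.cons_append, act]
      exact h2.filter _
    · simp only [List.map_cons, List.cons_append, act]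
      rw [List.toFinset_filter, h3]
      ext x
      simp only [Finset.mem_filter, Finset.mem_sdiff, List.mem_toFinset, List.toFinset_cons,
        Finset.mem_insert, decide_eq_true_eq]
      tauto

lemma VA.deps {h : List Ev} {A : Finset ℕ} (hv : VA h A) (D : Finset ℕ) (hD : D ⊆ A) :
    VA (deps D ++ h) (A \ D) := by
  have := VA.depsl D.toList h A hv D.nodup_toList (fun l hl => hD (by simpa using hl))
  simpa [LoadBal.deps] using this

/-- offline bookkeeping -/
def OA (W : ℕ → ℝ) (M : ℕ → Fin n) (P : ℝ) (h : List Ev) (A : Finset ℕ) : Prop :=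
  ∃ b : List (Ev × Fin n), b.map Prod.fst = h ∧ Rep W M b A ∧ cost b ≤ P

lemma cost_cons_le (hn : 0 < n) (x : Ev × Fin n) (b : List (Ev × Fin n)) (P : ℝ) (h1 : cost b ≤ P)
    (h2 : ∀ i, load (st (x :: b)) i ≤ P) : cost (x :: b) ≤ P := by
  have : Nonempty (Fin n) := ⟨⟨0, hn⟩⟩
  unfold cost
  exact max_le h1 (ciSup_le h2)

lemma OA.arrs (hn : 0 < n) {W : ℕ → ℝ} (hW : ∀ l, 0 ≤ W l) {M : ℕ → Fin n} {P : ℝ} {h : List Ev}
    {A : Finset ℕ} (ho : OA W M P h A) (a : ℕ) (hA : ∀ l ∈ A, l < a) (w : ℝ) (k : ℕ)
    (hw : ∀ l, a ≤ l → l < a + k → W l = w)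
    (hL : ∀ i, LD W M (A ∪ Finset.Ico a (a + k)) i ≤ P) :
    OA W M P (arrs a w k ++ h) (A ∪ Finset.Ico a (a + k)) := by
  induction k with
  | zero => simpa [LoadBal.arrs] using ho
  | succ k ih =>
    have hsub : A ∪ Finset.Ico a (a + k) ⊆ A ∪ Finset.Ico a (a + (k + 1)) := by
      apply Finset.union_subset_union_right
      apply Finset.Ico_subset_Ico_right
      omega
    obtain ⟨b, hb, hR, hc⟩ := ih (fun l h1 h2 => hw l h1 (by omega))
      (fun i => (LD_mono hW hsub i).trans (hL i))
    have hnot : a + k ∉ A ∪ Finset.Ico a (a + k) := by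
      simp only [Finset.mem_union, Finset.mem_Ico, not_or]
      refine ⟨fun h1 => ?_, by omega⟩
      have := hA _ h1
      omega
    have h4 : insert (a + k) (A ∪ Finset.Ico a (a + k)) = A ∪ Finset.Ico a (a + (k + 1)) := by
      ext x
      simp only [Finset.mem_insert, Finset.mem_union, Finset.mem_Ico]
      constructor
      · rintro (rfl | h | h)
        · right; omega
        · left; exact h
        · right; omega
      · rintro (h | h)
        · right; left; exact h
        · by_cases hx : x = a + k
          · left; exact hx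
          · right; right; omega
    have h5 := hR.arr (a + k) hnot
    rw [h4, hw (a + k) (by omega) (by omega)] at h5
    refine ⟨(Ev.arr (a + k) w, M (a + k)) :: b, ?_, h5, ?_⟩
    · simp [LoadBal.arrs, hb]
    · apply cost_cons_le hn _ _ _ hc
      intro i
      rw [h5.load i]
      exact hL i

lemma OA.deps (hn : 0 < n) {W : ℕ → ℝ} (hW : ∀ l, 0 ≤ W l) {M : ℕ → Fin n} {P : ℝ} {h : List Ev}
    {A : Finset ℕ} (ho : OA W M P h A) (hL : ∀ i, LD W M A i ≤ P) (D : Finset ℕ) :
    OA W M P (deps D ++ h) (A \ D) := by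
  obtain ⟨b, hb, hR, hc⟩ := ho
  have key : ∀ dl : List ℕ, ∃ b1 : List (Ev × Fin n), b1.map Prod.fst = dl.map Ev.dep ∧
      cost (b1 ++ b) ≤ P := by
    intro dl
    induction dl with
    | nil => exact ⟨[], rfl, hc⟩
    | cons l dl ih =>
      obtain ⟨b1, h1, h2⟩ := ih
      refine ⟨(Ev.dep l, ⟨0, hn⟩) :: b1, by simp [h1], ?_⟩
      rw [List.cons_append]
      apply cost_cons_le hn _ _ _ h2
      intro i
      have h3 : Rep W M ((Ev.dep l, (⟨0, hn⟩ : Fin n)) :: (b1 ++ b)) (A \ (l :: dl).toFinset) := by
        have := Rep.deps (l :: dl) ((Ev.dep l, (⟨0, hn⟩ : Fin n)) :: b1) b A hR (by simp [h1])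
        simpa using this
      rw [h3.load i]
      exact (LD_mono hW Finset.sdiff_subset i).trans (hL i)
  obtain ⟨b1, h1, h2⟩ := key D.toList
  refine ⟨b1 ++ b, ?_, ?_, h2⟩
  · simp [h1, hb, LoadBal.deps]
  · have := Rep.deps D.toList b1 b A hR h1
    simpa using this

/-- capacity lemma -/
lemma exists_assign (S : Finset ℕ) (cap : Fin n → ℕ) (h : S.card ≤ ∑ i, cap i) (hn : 0 < n) :
    ∃ f : ℕ → Fin n, ∀ i, (S.filter (fun l => f l = i)).card ≤ cap i := by
  classical
  induction S using Finset.induction_on with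
  | empty => exact ⟨fun _ => ⟨0, hn⟩, by simp⟩
  | insert a S ha ih =>
    rw [Finset.card_insert_of_notMem ha] at h
    obtain ⟨f, hf⟩ := ih (by omega)
    have hsum : ∑ i, (S.filter (fun l => f l = i)).card = S.card := by
      rw [← Finset.card_eq_sum_card_fiberwise (f := f) (s := S) (t := Finset.univ)
        (fun _ _ => Finset.mem_univ _)]
    obtain ⟨i, hi⟩ : ∃ i, (S.filter (fun l => f l = i)).card < cap i := by
      by_contra hcon
      push Not at hcon
      have : ∑ i, cap i ≤ ∑ i, (S.filter (fun l => f l = i)).card :=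
        Finset.sum_le_sum (fun i _ => hcon i)
      omega
    refine ⟨Function.update f a i, fun k => ?_⟩
    have h1 : (S.filter (fun l => Function.update f a i l = k)) =
        S.filter (fun l => f l = k) := by
      apply Finset.filter_congr
      intro l hl
      rw [Function.update_of_ne]
      rintro rfl
      exact ha hl
    rw [Finset.filter_insert, h1]
    by_cases hk : Function.update f a i a = k
    · rw [if_pos hk, Finset.card_insert_of_notMem (by simp [ha])]
      rw [Function.update_self] at hk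
      subst hk
      omega
    · rw [if_neg hk]
      exact hf k

lemma LD_union {W : ℕ → ℝ} {M : ℕ → Fin n} {A B : Finset ℕ} (h : Disjoint A B) (i : Fin n) :
    LD W M (A ∪ B) i = LD W M A i + LD W M B i := Finset.sum_union h

lemma LD_union_le {W : ℕ → ℝ} (hW : ∀ l, 0 ≤ W l) {M : ℕ → Fin n} (A B : Finset ℕ) (i : Fin n) :
    LD W M (A ∪ B) i ≤ LD W M A i + LD W M B i := by
  rw [← Finset.union_sdiff_self_eq_union, LD_union Finset.disjoint_sdiff]
  have := LD_mono hW (M := M) (Finset.sdiff_subset (s := B) (t := A)) i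
  linarith

/-- number of tasks of `A` on machine `i` -/
def cnt (M : ℕ → Fin n) (A : Finset ℕ) (i : Fin n) : ℕ := (A.filter (fun l => M l = i)).card

lemma LD_const {W : ℕ → ℝ} {M : ℕ → Fin n} {A : Finset ℕ} {w : ℝ} (h : ∀ l ∈ A, W l = w)
    (i : Fin n) : LD W M A i = (cnt M A i : ℝ) * w := by
  unfold LD cnt
  rw [← Finset.sum_filter, Finset.sum_congr rfl (fun l hl => h l (Finset.mem_filter.1 hl).1),
    Finset.sum_const, nsmul_eq_mul]

lemma cnt_congr {M M' : ℕ → Fin n} {A : Finset ℕ} (h : ∀ l ∈ A, M l = M' l) (i : Fin n) :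
    cnt M A i = cnt M' A i := by
  unfold cnt
  rw [Finset.filter_congr (fun l hl => by rw [h l hl] : ∀ l ∈ A, (M l = i ↔ M' l = i))]

lemma sum_cnt (M : ℕ → Fin n) (A : Finset ℕ) : ∑ i, cnt M A i = A.card := by
  unfold cnt
  rw [← Finset.card_eq_sum_card_fiberwise (f := M) (s := A) (t := Finset.univ)
        (fun _ _ => Finset.mem_univ _)]

lemma cnt_union {M : ℕ → Fin n} {A B : Finset ℕ} (h : Disjoint A B) (i : Fin n) :
    cnt M (A ∪ B) i = cnt M A i + cnt M B i := by
  unfold cnt
  rw [Finset.filter_union, Finset.card_union_of_disjoint (Finset.disjoint_filter_filter h)]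

lemma seg (f : ℕ → ℕ) (a b v : ℕ) (h : ∀ x, a ≤ x → x < a + b → v ≤ f x) :
    (Finset.range a).sum f + b * v ≤ (Finset.range (a + b)).sum f := by
  induction b with
  | zero => simp
  | succ b ih =>
    have h1 := ih (fun x h1 h2 => h x h1 (by omega))
    have h2 := h (a + b) (by omega) (by omega)
    have h3 : (b + 1) * v = b * v + v := by ring
    have h4 : (Finset.range (a + (b + 1))).sum f = (Finset.range (a + b)).sum f + f (a + b) :=
      Finset.sum_range_succ f _
    omega

end Pool.Agent.Helper872.LoadBal
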