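import Mathlib
import Pool.Agent.Helper872.LoadBal.Adversary

universe u

namespace Pool.Agent.Helper872.LoadBal

variable {n : ℕ}

/-- **Offline assignment.** -/
lemma offlineB (n j s q t N m v P : ℕ) (hj : 2 ≤ j) (hn : 3 * j ≤ n + 4) (h2j : 2 * j ≤ n) (hP : P = n + j)
    (hs : 1 ≤ s) (hsq : s + q = j) (ht : t + j ≤ n) (hv : v = n - j)
    (R D3 D2 D1 Q T : Finset ℕ)
    (hRN : ∀ l ∈ R, l < N) (h3N : ∀ l ∈ D3, l < N) (h2N : ∀ l ∈ D2, l < N) (h1N : ∀ l ∈ D1, l < N)
    (hQN : ∀ l ∈ Q, N ≤ l ∧ l < N + m) (hTN : ∀ l ∈ T, N ≤ l ∧ l < N + m)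
    (d12 : Disjoint R D3) (d13 : Disjoint R D2) (d14 : Disjoint R D1) (d23 : Disjoint D3 D2)
    (d24 : Disjoint D3 D1) (d34 : Disjoint D2 D1) (dQ : Disjoint Q T)
    (cR : R.card ≤ s * (P - 2)) (c3 : D3.card ≤ j) (c2 : D2.card ≤ n + t + (n - j - t) * (P - 1))
    (c1 : R.card + D3.card + D2.card + D1.card ≤ n * P) (cQ : Q.card ≤ q) (cT : T.card ≤ t) :
    ∃ M : ℕ → Fin n, ∀ i,
      cnt M R i + cnt M D3 i + cnt M D2 i + cnt M D1 i ≤ P ∧
      cnt M R i + cnt M D3 i + cnt M D2 i + (cnt M Q i + cnt M T i) * (P - 2) ≤ P ∧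
      cnt M R i + cnt M D3 i + cnt M Q i * (P - 2) +
        cnt M (Finset.Ico (N + m) (N + m + v)) i * (P - 1) ≤ P ∧
      cnt M R i + cnt M Q i * (P - 2) +
        cnt M (Finset.Ico (N + m) (N + m + v)) i * (P - 1) + cnt M {N + m + v} i * P ≤ P := by
  have hn0 : 0 < n := by omega
  -- capacities
  obtain ⟨fR, hfR⟩ := exists_assign (n := n) R (fun i => if i.val = 0 then 0 else
    if i.val ≤ n - j then 1 else if i.val ≤ n - j + q then 2 else P) (by
      rw [Fin.sum_univ_eq_sum_range (fun i => if i = 0 then 0 else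
        if i ≤ n - j then 1 else if i ≤ n - j + q then 2 else P)]
      set f : ℕ → ℕ := fun i => if i = 0 then 0 else
        if i ≤ n - j then 1 else if i ≤ n - j + q then 2 else P with hf
      have e1 := seg f 1 (n - j) 1 (by intro x h1 h2; simp only [hf]; split_ifs <;> omega)
      have e2 := seg f (1 + (n - j)) q 2 (by intro x h1 h2; simp only [hf]; split_ifs <;> omega)
      have e3 := seg f (1 + (n - j) + q) (s - 1) P
        (by intro x h1 h2; simp only [hf]; split_ifs <;> omega)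
      have e4 : 1 + (n - j) + q + (s - 1) = n := by omega
      rw [e4] at e3
      have e5 : s * (P - 2) ≤ (n - j) * 1 + q * 2 + (s - 1) * P := by
        obtain ⟨s', rfl⟩ : ∃ s', s = s' + 1 := ⟨s - 1, by omega⟩
        obtain ⟨k, rfl⟩ : ∃ k, n = j + k := ⟨n - j, by omega⟩
        subst hP
        have a1 : j + k - j = k := by omega
        have a2 : s' + 1 - 1 = s' := by omega
        rw [a1, a2]
        have a3 : j + k + j - 2 + 2 = j + k + j := by omega
        have a4 : (s' + 1) * (j + k + j - 2) + 2 * (s' + 1) = (s' + 1) * (j + k + j) := by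
          rw [← a3]; simp only [Nat.add_sub_cancel]; ring
        nlinarith
      omega) hn0
  obtain ⟨f3, hf3⟩ := exists_assign (n := n) D3 (fun i => if i.val = 0 then j else 0) (by
      rw [Fin.sum_univ_eq_sum_range (fun i => if i = 0 then j else 0)]
      set f : ℕ → ℕ := fun i => if i = 0 then j else 0 with hf
      have e1 := seg f 0 1 j (by intro x h1 h2; simp only [hf]; split_ifs <;> omega)
      have e2 := seg f (0 + 1) (n - 1) 0 (by intro x h1 h2; simp only [hf]; split_ifs <;> omega)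
      have e4 : 0 + 1 + (n - 1) = n := by omega
      rw [e4] at e2
      omega) hn0
  obtain ⟨f2, hf2⟩ := exists_assign (n := n) D2
    (fun i => if i.val = 0 then n else if i.val ≤ t then 1 else
      if i.val ≤ n - j then P - 1 else 0) (by
      rw [Fin.sum_univ_eq_sum_range (fun i => if i = 0 then n else if i ≤ t then 1 else
        if i ≤ n - j then P - 1 else 0)]
      set f : ℕ → ℕ := fun i => if i = 0 then n else if i ≤ t then 1 else
        if i ≤ n - j then P - 1 else 0 with hf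
      have e0 := seg f 0 1 n (by intro x h1 h2; simp only [hf]; split_ifs <;> omega)
      have e1 := seg f (0 + 1) t 1 (by intro x h1 h2; simp only [hf]; split_ifs <;> omega)
      have e2 := seg f (0 + 1 + t) (n - j - t) (P - 1)
        (by intro x h1 h2; simp only [hf]; split_ifs <;> omega)
      have e3 := seg f (0 + 1 + t + (n - j - t)) (n - (0 + 1 + t + (n - j - t))) 0
        (by intro x h1 h2; simp only [hf]; split_ifs <;> omega)
      have e4 : 0 + 1 + t + (n - j - t) + (n - (0 + 1 + t + (n - j - t))) = n := by omega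
      rw [e4] at e3
      omega) hn0
  obtain ⟨fQ, hfQ⟩ := exists_assign (n := n) Q
    (fun i => if i.val ≤ n - j then 0 else if i.val ≤ n - j + q then 1 else 0) (by
      rw [Fin.sum_univ_eq_sum_range
        (fun i => if i ≤ n - j then 0 else if i ≤ n - j + q then 1 else 0)]
      set f : ℕ → ℕ := fun i => if i ≤ n - j then 0 else if i ≤ n - j + q then 1 else 0 with hf
      have e1 := seg f (n - j + 1) q 1 (by intro x h1 h2; simp only [hf]; split_ifs <;> omega)
      have e2 := seg f (n - j + 1 + q) (n - (n - j + 1 + q)) 0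
        (by intro x h1 h2; simp only [hf]; split_ifs <;> omega)
      have e4 : n - j + 1 + q + (n - (n - j + 1 + q)) = n := by omega
      rw [e4] at e2
      omega) hn0
  obtain ⟨fT, hfT⟩ := exists_assign (n := n) T
    (fun i => if i.val = 0 then 0 else if i.val ≤ t then 1 else 0) (by
      rw [Fin.sum_univ_eq_sum_range
        (fun i => if i = 0 then 0 else if i ≤ t then 1 else 0)]
      set f : ℕ → ℕ := fun i => if i = 0 then 0 else if i ≤ t then 1 else 0 with hf
      have e1 := seg f 1 t 1 (by intro x h1 h2; simp only [hf]; split_ifs <;> omega)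
      have e2 := seg f (1 + t) (n - (1 + t)) 0
        (by intro x h1 h2; simp only [hf]; split_ifs <;> omega)
      have e4 : 1 + t + (n - (1 + t)) = n := by omega
      rw [e4] at e2
      omega) hn0
  obtain ⟨fV, hfV⟩ := exists_assign (n := n) (Finset.Ico (N + m) (N + m + v))
    (fun i => if i.val = 0 then 0 else if i.val ≤ n - j then 1 else 0) (by
      rw [Fin.sum_univ_eq_sum_range
        (fun i => if i = 0 then 0 else if i ≤ n - j then 1 else 0), Nat.card_Ico]
      set f : ℕ → ℕ := fun i => if i = 0 then 0 else if i ≤ n - j then 1 else 0 with hf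
      have e1 := seg f 1 (n - j) 1 (by intro x h1 h2; simp only [hf]; split_ifs <;> omega)
      have e2 := seg f (1 + (n - j)) (n - (1 + (n - j))) 0
        (by intro x h1 h2; simp only [hf]; split_ifs <;> omega)
      have e4 : 1 + (n - j) + (n - (1 + (n - j))) = n := by omega
      rw [e4] at e2
      omega) hn0
  -- loads of the placed classes
  have k1 : ∀ i, cnt fR R i + cnt f3 D3 i + cnt f2 D2 i ≤ P := by
    intro i
    have a1 := hfR i
    have a2 := hf3 i
    have a3 := hf2 i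
    unfold cnt
    split_ifs at a1 a2 a3 <;> omega
  obtain ⟨f1, hf1⟩ := exists_assign (n := n) D1
    (fun i => P - (cnt fR R i + cnt f3 D3 i + cnt f2 D2 i)) (by
      have b1 : ∑ i : Fin n, (P - (cnt fR R i + cnt f3 D3 i + cnt f2 D2 i)) +
          ∑ i : Fin n, (cnt fR R i + cnt f3 D3 i + cnt f2 D2 i) = n * P := by
        rw [← Finset.sum_add_distrib]
        rw [Finset.sum_congr rfl (fun i _ => Nat.sub_add_cancel (k1 i))]
        simp
      rw [Finset.sum_add_distrib, Finset.sum_add_distrib, sum_cnt, sum_cnt, sum_cnt] at b1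
      omega) hn0
  classical
  let M : ℕ → Fin n := fun l => if l ∈ R then fR l else if l ∈ D3 then f3 l else
    if l ∈ D2 then f2 l else if l ∈ D1 then f1 l else if l ∈ Q then fQ l else
    if l ∈ T then fT l else if l < N + m + v then fV l else ⟨0, hn0⟩
  have mR : ∀ l ∈ R, M l = fR l := fun l hl => by simp only [M, if_pos hl]
  have m3 : ∀ l ∈ D3, M l = f3 l := fun l hl => by
    have : l ∉ R := Finset.disjoint_right.1 d12 hl
    simp only [M, if_pos hl, if_neg this]
  have m2 : ∀ l ∈ D2, M l = f2 l := fun l hl => by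
    have h1 : l ∉ R := Finset.disjoint_right.1 d13 hl
    have h2 : l ∉ D3 := Finset.disjoint_right.1 d23 hl
    simp only [M, if_pos hl, if_neg h1, if_neg h2]
  have m1 : ∀ l ∈ D1, M l = f1 l := fun l hl => by
    have h1 : l ∉ R := Finset.disjoint_right.1 d14 hl
    have h2 : l ∉ D3 := Finset.disjoint_right.1 d24 hl
    have h3 : l ∉ D2 := Finset.disjoint_right.1 d34 hl
    simp only [M, if_pos hl, if_neg h1, if_neg h2, if_neg h3]
  have hbig : ∀ l, N ≤ l → l ∉ R ∧ l ∉ D3 ∧ l ∉ D2 ∧ l ∉ D1 := by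
    intro l hl
    refine ⟨fun h => ?_, fun h => ?_, fun h => ?_, fun h => ?_⟩
    · have := hRN l h; omega
    · have := h3N l h; omega
    · have := h2N l h; omega
    · have := h1N l h; omega
  have mQ : ∀ l ∈ Q, M l = fQ l := fun l hl => by
    obtain ⟨h1, h2, h3, h4⟩ := hbig l (hQN l hl).1
    simp only [M, if_pos hl, if_neg h1, if_neg h2, if_neg h3, if_neg h4]
  have mT : ∀ l ∈ T, M l = fT l := fun l hl => by
    obtain ⟨h1, h2, h3, h4⟩ := hbig l (hTN l hl).1
    have h5 : l ∉ Q := Finset.disjoint_right.1 dQ hl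
    simp only [M, if_pos hl, if_neg h1, if_neg h2, if_neg h3, if_neg h4, if_neg h5]
  have hbig2 : ∀ l, N + m ≤ l → l ∉ Q ∧ l ∉ T := by
    intro l hl
    refine ⟨fun h => ?_, fun h => ?_⟩
    · have := hQN l h; omega
    · have := hTN l h; omega
  have mV : ∀ l ∈ Finset.Ico (N + m) (N + m + v), M l = fV l := fun l hl => by
    rw [Finset.mem_Ico] at hl
    obtain ⟨h1, h2, h3, h4⟩ := hbig l (by omega)
    obtain ⟨h5, h6⟩ := hbig2 l (by omega)
    simp only [M, if_neg h1, if_neg h2, if_neg h3, if_neg h4, if_neg h5, if_neg h6, if_pos hl.2]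
  have mF : M (N + m + v) = ⟨0, hn0⟩ := by
    obtain ⟨h1, h2, h3, h4⟩ := hbig (N + m + v) (by omega)
    obtain ⟨h5, h6⟩ := hbig2 (N + m + v) (by omega)
    simp only [M, if_neg h1, if_neg h2, if_neg h3, if_neg h4, if_neg h5, if_neg h6, lt_irrefl,
      if_false]
  refine ⟨M, fun i => ?_⟩
  rw [cnt_congr mR, cnt_congr m3, cnt_congr m2, cnt_congr m1, cnt_congr mQ, cnt_congr mT,
    cnt_congr mV]
  have a0 := k1 i
  have a1 := hfR i
  have a2 := hf3 i
  have a3 := hf2 i
  have a4 := hf1 i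
  have a5 := hfQ i
  have a6 := hfT i
  have a7 := hfV i
  have a8 : cnt M {N + m + v} i = if i.val = 0 then 1 else 0 := by
    unfold cnt
    rw [Finset.filter_singleton, mF]
    by_cases hi : i.val = 0
    · have : (⟨0, hn0⟩ : Fin n) = i := Fin.ext hi.symm
      rw [if_pos this, if_pos hi]; rfl
    · have : (⟨0, hn0⟩ : Fin n) ≠ i := fun h => hi (by rw [← h])
      rw [if_neg this, if_neg hi]; rfl
  rw [a8]
  change cnt fR R i ≤ _ at a1
  change cnt f3 D3 i ≤ _ at a2
  change cnt f2 D2 i ≤ _ at a3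
  change cnt f1 D1 i ≤ _ at a4
  change cnt fQ Q i ≤ _ at a5
  change cnt fT T i ≤ _ at a6
  change cnt fV _ i ≤ _ at a7
  have hP4 : 4 ≤ P := by omega
  obtain ⟨p, rfl⟩ : ∃ p, P = p + 2 := ⟨P - 2, by omega⟩
  simp only [Nat.add_sub_cancel] at *
  have hp1 : p + 2 - 1 = p + 1 := by omega
  rw [hp1] at *
  generalize cnt fR R i = xR at *
  generalize cnt f3 D3 i = x3 at *
  generalize cnt f2 D2 i = x2 at *
  generalize cnt f1 D1 i = x1 at *
  generalize cnt fQ Q i = xQ at *
  generalize cnt fT T i = xT at *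
  generalize cnt fV (Finset.Ico (N + m) (N + m + v)) i = xV at *
  refine ⟨by omega, ?_, ?_, ?_⟩
  · have b1 : xQ + xT = 0 ∨ xQ + xT = 1 := by split_ifs at a5 a6 <;> omega
    rcases b1 with b1 | b1 <;> rw [b1] <;> split_ifs at a1 a2 a3 a5 a6 <;> omega
  · have b1 : (xQ = 0 ∧ xV = 0) ∨ (xQ = 1 ∧ xV = 0) ∨ (xQ = 0 ∧ xV = 1) := by
      split_ifs at a5 a7 <;> omega
    rcases b1 with ⟨b1, b2⟩ | ⟨b1, b2⟩ | ⟨b1, b2⟩ <;> rw [b1, b2] <;>
      split_ifs at a1 a2 a3 a5 a7 <;> omega
  · have b1 : (xQ = 0 ∧ xV = 0) ∨ (xQ = 1 ∧ xV = 0) ∨ (xQ = 0 ∧ xV = 1) := by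
      split_ifs at a5 a7 <;> omega
    rcases b1 with ⟨b1, b2⟩ | ⟨b1, b2⟩ | ⟨b1, b2⟩ <;> rw [b1, b2] <;>
      split_ifs at a1 a5 a7 ⊢ <;> omega

/-- loads from counts -/
lemma boundsB {n j s q t N m v P : ℕ} (hj : 2 ≤ j) (hn : 3 * j ≤ n + 4) (h2j : 2 * j ≤ n) (hP : P = n + j)
    (hs : 1 ≤ s) (hsq : s + q = j) (ht : t + j ≤ n) (hv : v = n - j)
    (R D3 D2 D1 Q T : Finset ℕ)
    (hRN : ∀ l ∈ R, l < N) (h3N : ∀ l ∈ D3, l < N) (h2N : ∀ l ∈ D2, l < N) (h1N : ∀ l ∈ D1, l < N)
    (hQN : ∀ l ∈ Q, N ≤ l ∧ l < N + m) (hTN : ∀ l ∈ T, N ≤ l ∧ l < N + m)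
    (d12 : Disjoint R D3) (d13 : Disjoint R D2) (d14 : Disjoint R D1) (d23 : Disjoint D3 D2)
    (d24 : Disjoint D3 D1) (d34 : Disjoint D2 D1) (dQ : Disjoint Q T)
    (cR : R.card ≤ s * (P - 2)) (c3 : D3.card ≤ j) (c2 : D2.card ≤ n + t + (n - j - t) * (P - 1))
    (c1 : R.card + D3.card + D2.card + D1.card ≤ n * P) (cQ : Q.card ≤ q) (cT : T.card ≤ t)
    (hall : ∀ l < N, l ∈ R ∨ l ∈ D3 ∨ l ∈ D2 ∨ l ∈ D1)
    (hΘ : ∀ l, N ≤ l → l < N + m → l ∈ Q ∨ l ∈ T) :
    ∃ M : ℕ → Fin n, (∀ i, LD (Wt P N m v) M (B0 N) i ≤ P) ∧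
      (∀ i, LD (Wt P N m v) M (B1 N m D1) i ≤ P) ∧
      (∀ i, LD (Wt P N m v) M (B2 N m v D1 (D2 ∪ T)) i ≤ P) ∧
      (∀ i, LD (Wt P N m v) M (B3 N m v D1 (D2 ∪ T) D3) i ≤ P) := by
  obtain ⟨M, hM⟩ := offlineB n j s q t N m v P hj hn h2j hP hs hsq ht hv R D3 D2 D1 Q T hRN h3N h2N
    h1N hQN hTN d12 d13 d14 d23 d24 d34 dQ cR c3 c2 c1 cQ cT
  have hP4 : 4 ≤ P := by omega
  set W := Wt P N m v with hWdef
  have hW : ∀ l, 0 ≤ W l := Wt_nonneg P N m v hP4
  have eR : ∀ i, LD W M R i = (cnt M R i : ℝ) * 1 := LD_const (fun l hl => Wt0 (hRN l hl))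
  have e3 : ∀ i, LD W M D3 i = (cnt M D3 i : ℝ) * 1 := LD_const (fun l hl => Wt0 (h3N l hl))
  have e2 : ∀ i, LD W M D2 i = (cnt M D2 i : ℝ) * 1 := LD_const (fun l hl => Wt0 (h2N l hl))
  have e1 : ∀ i, LD W M D1 i = (cnt M D1 i : ℝ) * 1 := LD_const (fun l hl => Wt0 (h1N l hl))
  have eQ : ∀ i, LD W M Q i = (cnt M Q i : ℝ) * (P - 2) :=
    LD_const (fun l hl => Wt1 (hQN l hl).1 (hQN l hl).2)
  have eT : ∀ i, LD W M T i = (cnt M T i : ℝ) * (P - 2) :=
    LD_const (fun l hl => Wt1 (hTN l hl).1 (hTN l hl).2)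
  have eV : ∀ i, LD W M (Finset.Ico (N + m) (N + m + v)) i =
      (cnt M (Finset.Ico (N + m) (N + m + v)) i : ℝ) * (P - 1) :=
    LD_const (fun l hl => Wt2 (Finset.mem_Ico.1 hl).1 (Finset.mem_Ico.1 hl).2)
  have eF : ∀ i, LD W M {N + m + v} i = (cnt M {N + m + v} i : ℝ) * P :=
    LD_const (fun l hl => Wt3 (Finset.mem_singleton.1 hl).ge)
  have p2 : ((P - 2 : ℕ) : ℝ) = (P : ℝ) - 2 := by rw [Nat.cast_sub (by omega)]; norm_num
  have p1 : ((P - 1 : ℕ) : ℝ) = (P : ℝ) - 1 := by rw [Nat.cast_sub (by omega)]; norm_num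
  refine ⟨M, fun i => ?_, fun i => ?_, fun i => ?_, fun i => ?_⟩
  · have hsub : B0 N ⊆ ((R ∪ D3) ∪ D2) ∪ D1 := by
      intro l hl
      have := hall l (mem_B0.1 hl)
      simp only [Finset.mem_union]; tauto
    have a0 := LD_mono hW (M := M) hsub i
    have a1 := LD_union_le hW (M := M) ((R ∪ D3) ∪ D2) D1 i
    have a2 := LD_union_le hW (M := M) (R ∪ D3) D2 i
    have a3 := LD_union_le hW (M := M) R D3 i
    have a4 : ((cnt M R i + cnt M D3 i + cnt M D2 i + cnt M D1 i : ℕ) : ℝ) ≤ P := by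
      exact_mod_cast (hM i).1
    push_cast at a4
    rw [eR i, e3 i] at a3
    rw [e2 i] at a2
    rw [e1 i] at a1
    linarith
  · have hsub : B1 N m D1 ⊆ ((R ∪ D3) ∪ D2) ∪ (Q ∪ T) := by
      intro l hl
      simp only [B1, Finset.mem_union, Finset.mem_sdiff, mem_B0, Finset.mem_Ico] at hl
      simp only [Finset.mem_union]
      rcases hl with hl | hl
      · have := hall l hl.1; tauto
      · have := hΘ l hl.1 hl.2; tauto
    have a0 := LD_mono hW (M := M) hsub i
    have a1 := LD_union_le hW (M := M) ((R ∪ D3) ∪ D2) (Q ∪ T) i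
    have a1' := LD_union_le hW (M := M) Q T i
    have a2 := LD_union_le hW (M := M) (R ∪ D3) D2 i
    have a3 := LD_union_le hW (M := M) R D3 i
    have a4 : ((cnt M R i + cnt M D3 i + cnt M D2 i + (cnt M Q i + cnt M T i) * (P - 2) : ℕ) : ℝ)
        ≤ P := by
      exact_mod_cast (hM i).2.1
    push_cast at a4
    rw [p2] at a4
    rw [eR i, e3 i] at a3
    rw [e2 i] at a2
    rw [eQ i, eT i] at a1'
    linarith
  · have hsub : B2 N m v D1 (D2 ∪ T) ⊆ ((R ∪ D3) ∪ Q) ∪ Finset.Ico (N + m) (N + m + v) := by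
      intro l hl
      simp only [B2, B1, Finset.mem_union, Finset.mem_sdiff, mem_B0, Finset.mem_Ico] at hl
      simp only [Finset.mem_union, Finset.mem_Ico]
      rcases hl with ⟨hl | hl, hl2⟩ | hl
      · have := hall l hl.1; tauto
      · have := hΘ l hl.1 hl.2; tauto
      · tauto
    have a0 := LD_mono hW (M := M) hsub i
    have a1 := LD_union_le hW (M := M) ((R ∪ D3) ∪ Q) (Finset.Ico (N + m) (N + m + v)) i
    have a2 := LD_union_le hW (M := M) (R ∪ D3) Q i
    have a3 := LD_union_le hW (M := M) R D3 i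
    have a4 : ((cnt M R i + cnt M D3 i + cnt M Q i * (P - 2) +
        cnt M (Finset.Ico (N + m) (N + m + v)) i * (P - 1) : ℕ) : ℝ) ≤ P := by
      exact_mod_cast (hM i).2.2.1
    push_cast at a4
    rw [p2, p1] at a4
    rw [eR i, e3 i] at a3
    rw [eQ i] at a2
    rw [eV i] at a1
    linarith
  · have hsub : B3 N m v D1 (D2 ∪ T) D3 ⊆
        ((R ∪ Q) ∪ Finset.Ico (N + m) (N + m + v)) ∪ {N + m + v} := by
      intro l hl
      simp only [B3, B2, B1, Finset.mem_union, Finset.mem_sdiff, mem_B0, Finset.mem_Ico] at hl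
      simp only [Finset.mem_union, Finset.mem_Ico, Finset.mem_singleton]
      rcases hl with ⟨⟨hl | hl, hl2⟩ | hl, hl3⟩ | hl
      · have := hall l hl.1; tauto
      · have := hΘ l hl.1 hl.2; tauto
      · tauto
      · right; omega
    have a0 := LD_mono hW (M := M) hsub i
    have a1 := LD_union_le hW (M := M) ((R ∪ Q) ∪ Finset.Ico (N + m) (N + m + v)) {N + m + v} i
    have a2 := LD_union_le hW (M := M) (R ∪ Q) (Finset.Ico (N + m) (N + m + v)) i
    have a3 := LD_union_le hW (M := M) R Q i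
    have a4 : ((cnt M R i + cnt M Q i * (P - 2) +
        cnt M (Finset.Ico (N + m) (N + m + v)) i * (P - 1) + cnt M {N + m + v} i * P : ℕ) : ℝ)
        ≤ P := by
      exact_mod_cast (hM i).2.2.2
    push_cast at a4
    rw [p2, p1] at a4
    rw [eR i, eQ i] at a3
    rw [eV i] at a2
    rw [eF i] at a1
    linarith

lemma targetsB {n j P : ℕ} (hj : 2 ≤ j) (hn : 3 * j ≤ n + 4) (h2j : 2 * j ≤ n) (hP : P = n + j) (x : Fin n → ℕ)
    (hsum : ∑ i, x i = n * P) (hlt : ∀ i, x i ≤ 2 * P - 3) :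
    ∃ (S U : Finset (Fin n)) (q t : ℕ), Disjoint S U ∧ 1 ≤ S.card ∧ S.card + q = j ∧
      t + j ≤ n ∧ t ≤ 2 * n ∧ 2 * (S ∪ U).card + t ≤ 2 * n ∧ (∀ i ∈ S, P ≤ x i) ∧ (∀ i ∈ U, 2 ≤ x i) ∧
      (∀ y : Fin n → ℕ, ∑ i, y i = q + t → (∀ i ∈ S, y i = 0) → (∀ i ∈ U, y i ≤ 1) →
        (∀ i, y i ≤ 2) → ∃ C ⊆ U, C.card = q ∧ ∀ i ∈ C, y i = 1) := by
  classical
  set S0 := Finset.univ.filter (fun i => P ≤ x i) with hS0
  set U0 := Finset.univ.filter (fun i => 2 ≤ x i ∧ x i < P) with hU0
  set E0 := Finset.univ.filter (fun i => x i < 2) with hE0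
  by_cases hc : j ≤ S0.card
  · obtain ⟨S, hS, hSc⟩ := Finset.exists_subset_card_eq hc
    have hSn : (S ∪ ∅).card ≤ n := by
      have := Finset.card_le_univ (S ∪ ∅)
      simpa using this
    refine ⟨S, ∅, 0, 0, by simp, by omega, by omega, by omega, by omega, by omega, ?_, by simp, ?_⟩
    · intro i hi
      have := hS hi
      rw [hS0, Finset.mem_filter] at this
      exact this.2
    · intro y _ _ _ _
      exact ⟨∅, by simp, rfl, by simp⟩
  · have hP4 : 4 ≤ P := by omega
    have h1 : n = S0.card + U0.card + E0.card := by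
      rw [hS0, hU0, hE0, Finset.card_filter, Finset.card_filter, Finset.card_filter,
        ← Finset.sum_add_distrib, ← Finset.sum_add_distrib]
      have : ∀ i ∈ (Finset.univ : Finset (Fin n)), ((if P ≤ x i then 1 else 0) +
          (if 2 ≤ x i ∧ x i < P then 1 else 0) + (if x i < 2 then 1 else 0)) = 1 := by
        intro i _
        split_ifs <;> omega
      rw [Finset.sum_congr rfl this]
      simp
    have h2 : n * P ≤ S0.card * (2 * P - 3) + U0.card * (P - 1) + E0.card := by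
      rw [← hsum, hS0, hU0, hE0, Finset.card_filter, Finset.card_filter, Finset.card_filter,
        Finset.sum_mul, Finset.sum_mul, ← Finset.sum_add_distrib, ← Finset.sum_add_distrib]
      apply Finset.sum_le_sum
      intro i _
      have := hlt i
      split_ifs <;> simp <;> omega
    have h3 : E0.card + 1 ≤ S0.card := by
      by_contra hcon
      have h4 : S0.card ≤ E0.card := by omega
      obtain ⟨p, rfl⟩ : ∃ p, P = p + 4 := ⟨P - 4, by omega⟩
      have a1 : 2 * (p + 4) - 3 = 2 * p + 5 := by omega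
      have a2 : p + 4 - 1 = p + 3 := by omega
      rw [a1, a2] at h2
      have key : ∀ a b c d : ℕ, d = a + b + c → d * (p + 4) ≤ a * (2 * p + 5) + b * (p + 3) + c →
          a ≤ c → 0 < d → False := by
        intro a b c d e1 e2 e3 e4
        subst e1
        have a3 : a * p ≤ c * p := Nat.mul_le_mul_right _ e3
        nlinarith
      exact key _ _ _ _ h1 h2 h4 (by omega)
    have hcu := Finset.card_union_le S0 U0
    refine ⟨S0, U0, j - S0.card, 2 * E0.card, ?_, by omega, by omega, by omega, by omega,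
      by omega, ?_, ?_, ?_⟩
    · rw [Finset.disjoint_left]
      intro i hi hi2
      rw [hS0, Finset.mem_filter] at hi
      rw [hU0, Finset.mem_filter] at hi2
      omega
    · intro i hi
      rw [hS0, Finset.mem_filter] at hi
      exact hi.2
    · intro i hi
      rw [hU0, Finset.mem_filter] at hi
      exact hi.2.1
    · intro y hy hyS hyU hy2
      have h5 : j - S0.card ≤ (U0.filter (fun i => y i = 1)).card := by
        have h6 : ∑ i, y i ≤ (U0.filter (fun i => y i = 1)).card + E0.card * 2 := by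
          rw [hU0, Finset.filter_filter, hE0, Finset.card_filter, Finset.card_filter,
            Finset.sum_mul, ← Finset.sum_add_distrib]
          apply Finset.sum_le_sum
          intro i _
          have b1 : P ≤ x i → y i = 0 := fun h => hyS i (by rw [hS0, Finset.mem_filter]; exact ⟨Finset.mem_univ _, h⟩)
          have b2 : 2 ≤ x i ∧ x i < P → y i ≤ 1 := fun h => hyU i (by rw [hU0, Finset.mem_filter]; exact ⟨Finset.mem_univ _, h⟩)
          have b3 := hy2 i
          split_ifs <;> omega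
        omega
      obtain ⟨C, hC, hCc⟩ := Finset.exists_subset_card_eq h5
      refine ⟨C, fun i hi => (Finset.mem_filter.1 (hC hi)).1, hCc,
        fun i hi => (Finset.mem_filter.1 (hC hi)).2⟩

lemma good_level0B {n j P N v : ℕ} (hj : 2 ≤ j) (hn : 3 * j ≤ n + 4) (h2j : 2 * j ≤ n) (hP : P = n + j)
    (hN : N = n * P) (hv : v = n - j) : Good n P (deps (B0 N) ++ g0 N) := by
  have hP4 : 4 ≤ P := by omega
  have hn0 : 0 < n := by omega
  obtain ⟨M, L0, -, -, -⟩ := boundsB (n := n) (j := j) (s := j) (q := 0) (t := 0) (N := N) (m := 0)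
    (v := v) (P := P) hj hn h2j hP (by omega) (by omega) (by omega) hv ∅ ∅ ∅ (Finset.range N) ∅ ∅
    (by simp) (by simp) (by simp) (by simp) (by simp) (by simp) (by simp) (by simp) (by simp)
    (by simp) (by simp) (by simp) (by simp) (by simp) (by simp) (by simp) (by simp [hN])
    (by simp) (by simp) (by simp) (by intro l h1 h2; omega)
  exact goodOf hn0 (Wt_nonneg P N 0 v hP4) (va0 N) (oa0 hn0 hP4 L0) L0

lemma good_level1B {n j s q t N m v P : ℕ} (hj : 2 ≤ j) (hn : 3 * j ≤ n + 4) (h2j : 2 * j ≤ n) (hP : P = n + j)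
    (hN : N = n * P) (hv : v = n - j) (hs : 1 ≤ s) (hsq : s + q = j) (ht : t + j ≤ n)
    (hm : m = q + t)
    (R A1 : Finset ℕ) (hA : A1 ⊆ B0 N) (hR : R ⊆ A1) (cR : R.card ≤ s * (P - 2))
    (cA : (A1 \ R).card ≤ n + t + (n - j - t) * (P - 1)) :
    Good n P (deps (B1 N m (B0 N \ A1)) ++ g1 P N m (B0 N \ A1)) := by
  have hP4 : 4 ≤ P := by omega
  have hn0 : 0 < n := by omega
  obtain ⟨Q, hQ, hQc⟩ := Finset.exists_subset_card_eq (s := Finset.Ico N (N + m)) (n := q)
    (by rw [Nat.card_Ico]; omega)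
  have hcardB : (B0 N).card = n * P := by simp [B0, hN]
  have hTc : (Finset.Ico N (N + m) \ Q).card = t := by
    rw [Finset.card_sdiff_of_subset hQ, Nat.card_Ico, hQc]; omega
  obtain ⟨M, L0, L1, -, -⟩ := boundsB (n := n) (j := j) (s := s) (q := q) (t := t) (N := N) (m := m)
    (v := v) (P := P) hj hn h2j hP hs hsq ht hv R ∅ (A1 \ R) (B0 N \ A1) Q (Finset.Ico N (N + m) \ Q)
    (fun l hl => mem_B0.1 (hA (hR hl))) (by simp)
    (fun l hl => mem_B0.1 (hA (Finset.mem_sdiff.1 hl).1))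
    (fun l hl => mem_B0.1 (Finset.mem_sdiff.1 hl).1)
    (fun l hl => Finset.mem_Ico.1 (hQ hl))
    (fun l hl => Finset.mem_Ico.1 (Finset.mem_sdiff.1 hl).1)
    (by simp) Finset.disjoint_sdiff
    (Finset.disjoint_of_subset_left hR Finset.disjoint_sdiff) (by simp) (by simp)
    (Finset.disjoint_of_subset_left Finset.sdiff_subset Finset.disjoint_sdiff)
    Finset.disjoint_sdiff cR (by simp) cA
    (by
      have h1 : (A1 \ R).card + R.card = A1.card := Finset.card_sdiff_add_card_eq_card hR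
      have h2 : (B0 N \ A1).card + A1.card = (B0 N).card := Finset.card_sdiff_add_card_eq_card hA
      simp only [Finset.card_empty]
      omega)
    hQc.le hTc.le
    (by
      intro l hl
      have := (mem_B0 (N := N)).2 hl
      simp only [Finset.mem_sdiff]
      tauto)
    (by
      intro l h1 h2
      simp only [Finset.mem_sdiff, Finset.mem_Ico]
      tauto)
  exact goodOf hn0 (Wt_nonneg P N m v hP4) (va1 hP4 Finset.sdiff_subset) (oa1 hn0 hP4 L0 L1) L1

lemma good_level3B {n j s q t N m v P : ℕ} (hj : 2 ≤ j) (hn : 3 * j ≤ n + 4) (h2j : 2 * j ≤ n) (hP : P = n + j)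
    (hN : N = n * P) (hv : v = n - j) (hs : 1 ≤ s) (hsq : s + q = j) (ht : t + j ≤ n)
    (R A1 D3 Q : Finset ℕ) (hA : A1 ⊆ B0 N) (hR : R ⊆ A1) (hD : D3 ⊆ A1) (hRD : Disjoint R D3)
    (cR : R.card ≤ s * (P - 2)) (cA : (A1 \ (R ∪ D3)).card ≤ n + t + (n - j - t) * (P - 1)) (c3 : D3.card ≤ j)
    (hQ : Q ⊆ Finset.Ico N (N + m)) (cQ : Q.card ≤ q) (cT : (Finset.Ico N (N + m) \ Q).card ≤ t) :
    Good n P (deps (B3 N m v (B0 N \ A1) ((A1 \ (R ∪ D3)) ∪ (Finset.Ico N (N + m) \ Q)) D3) ++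
      g3 P N m v (B0 N \ A1) ((A1 \ (R ∪ D3)) ∪ (Finset.Ico N (N + m) \ Q)) D3) := by
  have hP4 : 4 ≤ P := by omega
  have hn0 : 0 < n := by omega
  have hcardB : (B0 N).card = n * P := by simp [B0, hN]
  obtain ⟨M, L0, L1, L2, L3⟩ := boundsB (n := n) (j := j) (s := s) (q := q) (t := t) (N := N)
    (m := m) (v := v) (P := P) hj hn h2j hP hs hsq ht hv R D3 (A1 \ (R ∪ D3)) (B0 N \ A1) Q
    (Finset.Ico N (N + m) \ Q)
    (fun l hl => mem_B0.1 (hA (hR hl))) (fun l hl => mem_B0.1 (hA (hD hl)))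
    (fun l hl => mem_B0.1 (hA (Finset.mem_sdiff.1 hl).1))
    (fun l hl => mem_B0.1 (Finset.mem_sdiff.1 hl).1)
    (fun l hl => Finset.mem_Ico.1 (hQ hl))
    (fun l hl => Finset.mem_Ico.1 (Finset.mem_sdiff.1 hl).1)
    hRD (Finset.disjoint_of_subset_left Finset.subset_union_left Finset.disjoint_sdiff)
    (Finset.disjoint_of_subset_left hR Finset.disjoint_sdiff)
    (Finset.disjoint_of_subset_left Finset.subset_union_right Finset.disjoint_sdiff)
    (Finset.disjoint_of_subset_left hD Finset.disjoint_sdiff)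
    (Finset.disjoint_of_subset_left Finset.sdiff_subset Finset.disjoint_sdiff)
    Finset.disjoint_sdiff cR c3 cA
    (by
      have h1 : (A1 \ (R ∪ D3)).card + (R ∪ D3).card = A1.card :=
        Finset.card_sdiff_add_card_eq_card (Finset.union_subset hR hD)
      have h2 : (B0 N \ A1).card + A1.card = (B0 N).card := Finset.card_sdiff_add_card_eq_card hA
      rw [Finset.card_union_of_disjoint hRD] at h1
      omega)
    cQ cT
    (by
      intro l hl
      have := (mem_B0 (N := N)).2 hl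
      simp only [Finset.mem_sdiff, Finset.mem_union]
      tauto)
    (by
      intro l h1 h2
      simp only [Finset.mem_sdiff, Finset.mem_Ico]
      tauto)
  have hv1 : B0 N \ A1 ⊆ B0 N := Finset.sdiff_subset
  have hv2 : (A1 \ (R ∪ D3)) ∪ (Finset.Ico N (N + m) \ Q) ⊆ B1 N m (B0 N \ A1) := by
    intro l hl
    simp only [B1, Finset.mem_union, Finset.mem_sdiff] at hl ⊢
    rcases hl with hl | hl
    · left
      have := hA hl.1
      tauto
    · right; exact hl.1
  have hv3 : D3 ⊆ B2 N m v (B0 N \ A1) ((A1 \ (R ∪ D3)) ∪ (Finset.Ico N (N + m) \ Q)) := by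
    intro l hl
    have h1 := hD hl
    have h2 := hA h1
    have h3 : ¬ (l ∈ Finset.Ico N (N + m)) := by
      rw [Finset.mem_Ico]
      have := mem_B0.1 h2
      omega
    simp only [B2, B1, Finset.mem_union, Finset.mem_sdiff]
    tauto
  exact goodOf hn0 (Wt_nonneg P N m v hP4) (va3 hP4 hv1 hv2 hv3) (oa3 hn0 hP4 L0 L1 L2 L3) L3

theorem adversaryB {j P N v B : ℕ} (hj : 2 ≤ j) (hn : 3 * j ≤ n + 4) (h2j : 2 * j ≤ n) (hP : P = n + j)
    (hN : N = n * P) (hv : v = n - j) (hB : B = N + 5 * n + 2) (F : List Ev → Fin n) :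
    ∃ s ∈ SS n P N v B, (2 * P - 2 : ℝ) ≤ cost (ann F s) := by
  classical
  have hP4 : 4 ≤ P := by omega
  have hP4' : (4 : ℝ) ≤ P := by exact_mod_cast hP4
  have hn0 : 0 < n := by omega
  by_contra hcon
  push Not at hcon
  -- stage 0
  have hB0B : B0 N ⊆ Finset.range B := by
    intro l hl
    have := mem_B0.1 hl
    rw [Finset.mem_range]; omega
  have c0 : cost (ann F (deps (B0 N) ++ g0 N)) < 2 * P - 2 := by
    apply hcon
    refine ⟨good_level0B hj hn h2j hP hN hv, 0, 0, B0 N, ∅, ∅, ∅, by omega, by omega, hB0B,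
      by simp, by simp, by simp, ?_⟩
    simp [scr]
  obtain ⟨M0, hM0⟩ := rep0 hn0 F P N 0 0
  have l0 := LD_lt_of hM0 c0
  have eU : ∀ i, LD (Wt P N 0 0) M0 (B0 N) i = (cnt M0 (B0 N) i : ℝ) * 1 :=
    LD_const (fun l hl => Wt0 (mem_B0.1 hl))
  have hx : ∀ i, cnt M0 (B0 N) i ≤ 2 * P - 3 := by
    intro i
    have h1 := l0 i
    rw [eU i, mul_one] at h1
    have h2 : ((cnt M0 (B0 N) i + 2 : ℕ) : ℝ) < ((2 * P : ℕ) : ℝ) := by push_cast; linarith
    have h3 : cnt M0 (B0 N) i + 2 < 2 * P := by exact_mod_cast h2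
    omega
  have hsum : ∑ i, cnt M0 (B0 N) i = n * P := by
    rw [sum_cnt]; simp [B0, hN]
  obtain ⟨S, U, q, t, hSU, hS1, hSq, ht, ht2, hSUt, hSx, hUx, hstage⟩ :=
    targetsB hj hn h2j hP (fun i => cnt M0 (B0 N) i) hsum hx
  -- choose the units
  have hch : ∀ i, ∃ (a b : ℕ) (Rf : Finset ℕ), i ∈ S ∪ U →
      (a ∈ B0 N ∧ M0 a = i) ∧ (b ∈ B0 N ∧ M0 b = i) ∧ a ≠ b ∧ a ∉ Rf ∧ b ∉ Rf ∧
      (∀ l ∈ Rf, l ∈ B0 N ∧ M0 l = i) ∧ Rf.card = if i ∈ S then P - 2 else 0 := by
    intro i
    by_cases hi : i ∈ S ∪ U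
    · have h1 : (if i ∈ S then P - 2 else 0) + 2 ≤ ((B0 N).filter (fun l => M0 l = i)).card := by
        change _ ≤ cnt M0 (B0 N) i
        split_ifs with h
        · have := hSx i h
          omega
        · have : i ∈ U := by
            rw [Finset.mem_union] at hi; tauto
          have := hUx i this
          omega
      obtain ⟨a, b, R, ha, hb, hab, haR, hbR, hRs, hRc⟩ := pick _ _ h1
      refine ⟨a, b, R, fun _ => ⟨Finset.mem_filter.1 ha, Finset.mem_filter.1 hb, hab, haR, hbR,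
        fun l hl => Finset.mem_filter.1 (hRs hl), hRc⟩⟩
    · exact ⟨0, 0, ∅, fun h => absurd h hi⟩
  choose a b Rf hf using hch
  set R := S.biUnion Rf with hR
  set A1 := R ∪ ((S ∪ U).image a ∪ (S ∪ U).image b) with hA1
  have hRA : R ⊆ A1 := Finset.subset_union_left
  have hmemR : ∀ l ∈ R, ∃ i ∈ S, l ∈ Rf i := by
    intro l hl
    rw [hR, Finset.mem_biUnion] at hl
    exact hl
  have hAB : A1 ⊆ B0 N := by
    intro l hl
    rw [hA1, Finset.mem_union, Finset.mem_union, Finset.mem_image, Finset.mem_image] at hl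
    rcases hl with hl | ⟨i, hi, rfl⟩ | ⟨i, hi, rfl⟩
    · obtain ⟨i, hi, h⟩ := hmemR l hl
      exact ((hf i (Finset.mem_union_left _ hi)).2.2.2.2.2.1 l h).1
    · exact (hf i hi).1.1
    · exact (hf i hi).2.1.1
  have cR : R.card ≤ S.card * (P - 2) := by
    rw [hR]
    refine Finset.card_biUnion_le_card_mul S Rf (P - 2) ?_
    intro i hi
    rw [(hf i (Finset.mem_union_left _ hi)).2.2.2.2.2.2, if_pos hi]
  have cSU : (S ∪ U).card ≤ n := by
    have := Finset.card_le_univ (S ∪ U)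
    simpa using this
  have cA : ∀ X : Finset ℕ, R ⊆ X → (A1 \ X).card ≤ n + t + (n - j - t) * (P - 1) := by
    intro X hX
    have h1 : A1 \ X ⊆ (S ∪ U).image a ∪ (S ∪ U).image b := by
      intro l hl
      rw [Finset.mem_sdiff, hA1, Finset.mem_union] at hl
      rcases hl with ⟨hl | hl, hl2⟩
      · exact absurd (hX hl) hl2
      · exact hl
    have h2 := Finset.card_le_card h1
    have h3 := Finset.card_union_le ((S ∪ U).image a) ((S ∪ U).image b)
    have h4 : ((S ∪ U).image a).card ≤ (S ∪ U).card := Finset.card_image_le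
    have h5 : ((S ∪ U).image b).card ≤ (S ∪ U).card := Finset.card_image_le
    have h6 : 2 * n ≤ n + 2 * t + (n - j - t) * (P - 1) := by
      rcases Nat.eq_zero_or_pos (n - j - t) with h7 | h7
      · omega
      · have h8 : P - 1 ≤ (n - j - t) * (P - 1) := Nat.le_mul_of_pos_left _ h7
        omega
    omega
  obtain ⟨m, hm⟩ : ∃ m, m = q + t := ⟨_, rfl⟩
  have hmB : m < B := by omega
  have hD1B : B0 N \ A1 ⊆ Finset.range B := Finset.sdiff_subset.trans hB0B
  -- stage 1
  have c1 : cost (ann F (deps (B1 N m (B0 N \ A1)) ++ g1 P N m (B0 N \ A1))) < 2 * P - 2 := by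
    apply hcon
    refine ⟨good_level1B hj hn h2j hP hN hv hS1 hSq ht hm R A1 hAB hRA cR (cA R subset_rfl), 1, m,
      B1 N m (B0 N \ A1), B0 N \ A1, ∅, ∅, by omega, hmB, ?_, hD1B, by simp, by simp, ?_⟩
    · intro l hl
      have := B1_lt hl
      rw [Finset.mem_range]; omega
    · simp [scr]
  have hM0' : Rep (Wt P N m v) M0 (ann F (g0 N)) (B0 N) :=
    hM0.congr2 (fun l hl => ⟨by rw [Wt0 (mem_B0.1 hl), Wt0 (mem_B0.1 hl)], rfl⟩)
  obtain ⟨M1, hM1e, hM1⟩ := rep1 F (B0 N \ A1) hM0'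
  have l1 := LD_lt_of hM1 c1
  set W := Wt P N m v with hWdef
  have hW : ∀ l, 0 ≤ W l := Wt_nonneg P N m v hP4
  set Θ := Finset.Ico N (N + m) with hΘ
  have dAΘ : Disjoint A1 Θ := by
    rw [Finset.disjoint_left]
    intro l hl hl2
    have := mem_B0.1 (hAB hl)
    rw [hΘ, Finset.mem_Ico] at hl2
    omega
  have hB1eq : B1 N m (B0 N \ A1) = A1 ∪ Θ := by
    unfold B1
    rw [Finset.sdiff_sdiff_eq_self hAB]
  have hA1i : ∀ i ∈ S ∪ U, (if i ∈ S then P - 2 else 0) + 2 ≤ cnt M1 A1 i := by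
    intro i hi
    obtain ⟨h1, h2, h3, h4, h5, h6, h7⟩ := hf i hi
    have hc : (insert (a i) (insert (b i) (Rf i ))).card = (if i ∈ S then P - 2 else 0) + 2 := by
      rw [Finset.card_insert_of_notMem, Finset.card_insert_of_notMem h5, h7]
      simp only [Finset.mem_insert, not_or]
      exact ⟨h3, h4⟩
    by_cases his : i ∈ S
    · rw [← hc]
      apply cnt_ge
      · intro l hl
        rw [Finset.mem_insert, Finset.mem_insert] at hl
        rw [hA1, Finset.mem_union, Finset.mem_union]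
        rcases hl with rfl | rfl | hl
        · right; left; exact Finset.mem_image_of_mem a hi
        · right; right; exact Finset.mem_image_of_mem b hi
        · left; rw [hR, Finset.mem_biUnion]; exact ⟨i, his, hl⟩
      · intro l hl
        rw [Finset.mem_insert, Finset.mem_insert] at hl
        rcases hl with rfl | rfl | hl
        · rw [hM1e _ (mem_B0.1 h1.1)]; exact h1.2
        · rw [hM1e _ (mem_B0.1 h2.1)]; exact h2.2
        · rw [hM1e _ (mem_B0.1 (h6 l hl).1)]; exact (h6 l hl).2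
    · have h8 : Rf i = ∅ := by rw [if_neg his] at h7; exact Finset.card_eq_zero.1 h7
      rw [← hc, h8]
      apply cnt_ge
      · intro l hl
        rw [Finset.mem_insert, Finset.mem_insert] at hl
        rw [hA1, Finset.mem_union, Finset.mem_union]
        rcases hl with rfl | rfl | hl
        · right; left; exact Finset.mem_image_of_mem a hi
        · right; right; exact Finset.mem_image_of_mem b hi
        · simp at hl
      · intro l hl
        rw [Finset.mem_insert, Finset.mem_insert] at hl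
        rcases hl with rfl | rfl | hl
        · rw [hM1e _ (mem_B0.1 h1.1)]; exact h1.2
        · rw [hM1e _ (mem_B0.1 h2.1)]; exact h2.2
        · simp at hl
  have hld1 : ∀ i, (cnt M1 A1 i : ℝ) + (cnt M1 Θ i : ℝ) * (P - 2) < 2 * P - 2 := by
    intro i
    have h1 := l1 i
    rw [hB1eq, LD_union dAΘ] at h1
    rw [LD_const (w := 1) (fun l hl => Wt0 (mem_B0.1 (hAB hl))),
      LD_const (w := (P : ℝ) - 2) (fun l hl => Wt1 (Finset.mem_Ico.1 hl).1 (Finset.mem_Ico.1 hl).2)]
      at h1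
    linarith
  have hy0 : ∀ i ∈ S, cnt M1 Θ i = 0 := by
    intro i hi
    have h1 := hld1 i
    have h2 := hA1i i (Finset.mem_union_left _ hi)
    rw [if_pos hi] at h2
    have h3 : ((P : ℕ) : ℝ) ≤ cnt M1 A1 i := by exact_mod_cast (by omega : P ≤ cnt M1 A1 i)
    by_contra hne
    have h4 : (1 : ℝ) ≤ cnt M1 Θ i := by exact_mod_cast Nat.pos_of_ne_zero hne
    nlinarith
  have hy1 : ∀ i ∈ U, cnt M1 Θ i ≤ 1 := by
    intro i hi
    have h1 := hld1 i
    have h2 := hA1i i (Finset.mem_union_right _ hi)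
    have h3 : (2 : ℝ) ≤ cnt M1 A1 i := by exact_mod_cast (by omega : 2 ≤ cnt M1 A1 i)
    by_contra hne
    have h4 : (2 : ℝ) ≤ cnt M1 Θ i := by exact_mod_cast (by omega : 2 ≤ cnt M1 Θ i)
    nlinarith
  have hy2 : ∀ i, cnt M1 Θ i ≤ 2 := by
    intro i
    have h1 := hld1 i
    have h3 : (0 : ℝ) ≤ cnt M1 A1 i := Nat.cast_nonneg _
    by_contra hne
    have h4 : (3 : ℝ) ≤ cnt M1 Θ i := by exact_mod_cast (by omega : 3 ≤ cnt M1 Θ i)
    nlinarith
  obtain ⟨C', hC'U, hC'c, hC'1⟩ := hstage (fun i => cnt M1 Θ i)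
    (by rw [sum_cnt, hΘ, Nat.card_Ico]; omega) hy0 hy1 hy2
  have dSC : Disjoint S C' := Finset.disjoint_of_subset_right hC'U hSU
  set C := S ∪ C' with hC
  have hCc : C.card = j := by rw [hC, Finset.card_union_of_disjoint dSC]; omega
  have hCSU : C ⊆ S ∪ U := Finset.union_subset_union_right hC'U
  set Q := Θ.filter (fun l => M1 l ∈ C') with hQ
  have hQΘ : Q ⊆ Θ := Finset.filter_subset _ _
  have hQc : Q.card = q := by
    rw [Finset.card_eq_sum_card_fiberwise (f := M1) (s := Q) (t := C')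
      (fun l hl => (Finset.mem_filter.1 hl).2), ← hC'c, Finset.card_eq_sum_ones]
    apply Finset.sum_congr rfl
    intro i hi
    have h1 := hC'1 i hi
    rw [← h1]
    unfold cnt
    congr 1
    ext l
    simp only [hQ, Finset.mem_filter]
    constructor
    · rintro ⟨⟨h1, -⟩, h2⟩; exact ⟨h1, h2⟩
    · rintro ⟨h1, h2⟩; exact ⟨⟨h1, by rw [h2]; exact hi⟩, h2⟩
  have hTc : (Θ \ Q).card = t := by
    rw [Finset.card_sdiff_of_subset hQΘ, hΘ, Nat.card_Ico, hQc]; omega
  set D3 := C.image a with hD3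
  have hD3A : D3 ⊆ A1 := by
    intro l hl
    rw [hD3, Finset.mem_image] at hl
    obtain ⟨i, hi, rfl⟩ := hl
    rw [hA1, Finset.mem_union, Finset.mem_union]
    right; left
    exact Finset.mem_image_of_mem a (hCSU hi)
  have dRD : Disjoint R D3 := by
    rw [Finset.disjoint_left]
    intro l hl hl2
    obtain ⟨i, hi, h⟩ := hmemR l hl
    rw [hD3, Finset.mem_image] at hl2
    obtain ⟨k, hk, rfl⟩ := hl2
    have h1 := (hf i (Finset.mem_union_left _ hi)).2.2.2.2.2.1 (a k) h
    have h2 := (hf k (hCSU hk)).1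
    have h3 : i = k := by rw [← h1.2, h2.2]
    subst h3
    exact (hf i (Finset.mem_union_left _ hi)).2.2.2.1 h
  have cD3 : D3.card ≤ j := by rw [← hCc]; exact Finset.card_image_le
  -- the full script
  set DD := (A1 \ (R ∪ D3)) ∪ (Θ \ Q) with hDD
  have hDDB : DD ⊆ Finset.range B := by
    intro l hl
    rw [hDD, Finset.mem_union, Finset.mem_sdiff, Finset.mem_sdiff] at hl
    rw [Finset.mem_range]
    rcases hl with hl | hl
    · have := mem_B0.1 (hAB hl.1); omega
    · have := (Finset.mem_Ico.1 hl.1).2; omega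
  have c3 : cost (ann F (deps (B3 N m v (B0 N \ A1) DD D3) ++
      g3 P N m v (B0 N \ A1) DD D3)) < 2 * P - 2 := by
    apply hcon
    refine ⟨good_level3B hj hn h2j hP hN hv hS1 hSq ht R A1 D3 Q hAB hRA hD3A dRD cR
      (cA _ Finset.subset_union_left) cD3 hQΘ hQc.le hTc.le, 2, m,
      B3 N m v (B0 N \ A1) DD D3, B0 N \ A1, DD, D3, by omega, hmB, ?_, hD1B, hDDB, ?_, ?_⟩
    · intro l hl
      rw [Finset.mem_range]
      simp only [B3, Finset.mem_union, Finset.mem_sdiff, Finset.mem_Ico] at hl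
      rcases hl with hl | hl
      · have := B2_lt hl.1; omega
      · omega
    · exact hD3A.trans (hAB.trans hB0B)
    · simp [scr]
  obtain ⟨M, hMe, hM2, hM3⟩ := rep3 F (B0 N \ A1) DD D3 hM1
  have c2 : cost (ann F ((deps (B3 N m v (B0 N \ A1) DD D3) ++
      (arrs (N + m + v) (P : ℝ) 1 ++ deps D3)) ++ g2 P N m v (B0 N \ A1) DD)) < 2 * P - 2 := by
    have : (deps (B3 N m v (B0 N \ A1) DD D3) ++
      (arrs (N + m + v) (P : ℝ) 1 ++ deps D3)) ++ g2 P N m v (B0 N \ A1) DD =
      deps (B3 N m v (B0 N \ A1) DD D3) ++ g3 P N m v (B0 N \ A1) DD D3 := by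
      unfold g3
      simp only [List.append_assoc]
    rw [this]
    exact c3
  have l2 := LD_lt_of hM2 c2
  have l3 := LD_lt_of hM3 c3
  set V := Finset.Ico (N + m) (N + m + v) with hV
  have hRlt : ∀ l ∈ R, l < N := fun l hl => mem_B0.1 (hAB (hRA hl))
  have hDlt : ∀ l ∈ D3, l < N := fun l hl => mem_B0.1 (hAB (hD3A hl))
  have hQlt : ∀ l ∈ Q, N ≤ l ∧ l < N + m := fun l hl => Finset.mem_Ico.1 (hQΘ hl)
  have hVlt : ∀ l ∈ V, N + m ≤ l ∧ l < N + m + v := fun l hl => Finset.mem_Ico.1 hl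
  have eR : ∀ i, LD W M R i = (cnt M R i : ℝ) * 1 := LD_const (fun l hl => Wt0 (hRlt l hl))
  have e3 : ∀ i, LD W M D3 i = (cnt M D3 i : ℝ) * 1 := LD_const (fun l hl => Wt0 (hDlt l hl))
  have eQ : ∀ i, LD W M Q i = (cnt M Q i : ℝ) * (P - 2) :=
    LD_const (fun l hl => Wt1 (hQlt l hl).1 (hQlt l hl).2)
  have eV : ∀ i, LD W M V i = (cnt M V i : ℝ) * (P - 1) :=
    LD_const (fun l hl => Wt2 (hVlt l hl).1 (hVlt l hl).2)
  have dRQ : Disjoint R Q := by
    rw [Finset.disjoint_left]; intro l h1 h2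
    have := hRlt l h1; have := hQlt l h2; omega
  have dDQ : Disjoint D3 Q := by
    rw [Finset.disjoint_left]; intro l h1 h2
    have := hDlt l h1; have := hQlt l h2; omega
  have dRV : Disjoint R V := by
    rw [Finset.disjoint_left]; intro l h1 h2
    have := hRlt l h1; have := hVlt l h2; omega
  have dDV : Disjoint D3 V := by
    rw [Finset.disjoint_left]; intro l h1 h2
    have := hDlt l h1; have := hVlt l h2; omega
  have dQV : Disjoint Q V := by
    rw [Finset.disjoint_left]; intro l h1 h2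
    have := hQlt l h1; have := hVlt l h2; omega
  have hm2 : ∀ i, (cnt M R i : ℝ) + cnt M D3 i + cnt M Q i * (P - 2) + cnt M V i * (P - 1)
      < 2 * P - 2 := by
    intro i
    have hsub : ((R ∪ D3) ∪ Q) ∪ V ⊆ B2 N m v (B0 N \ A1) DD := by
      intro l hl
      simp only [Finset.mem_union] at hl
      rcases hl with ((hl | hl) | hl) | hl
      · have a1 := hRA hl
        have a2 := hAB a1
        have a3 : l ∉ Θ := Finset.disjoint_left.1 dAΘ a1
        simp only [B2, B1, hDD, Finset.mem_union, Finset.mem_sdiff]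
        tauto
      · have a1 := hD3A hl
        have a2 := hAB a1
        have a3 : l ∉ Θ := Finset.disjoint_left.1 dAΘ a1
        simp only [B2, B1, hDD, Finset.mem_union, Finset.mem_sdiff]
        tauto
      · have a1 : l ∈ Θ := hQΘ hl
        have a2 : l ∉ A1 := Finset.disjoint_right.1 dAΘ a1
        simp only [B2, B1, hDD, Finset.mem_union, Finset.mem_sdiff]
        tauto
      · unfold B2
        exact Finset.mem_union_right _ hl
    have h1 := LD_mono hW (M := M) hsub i
    have h2 := l2 i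
    rw [LD_union (by
        rw [Finset.disjoint_union_left, Finset.disjoint_union_left]; exact ⟨⟨dRV, dDV⟩, dQV⟩),
      LD_union (by rw [Finset.disjoint_union_left]; exact ⟨dRQ, dDQ⟩), LD_union dRD,
      eR, e3, eQ, eV] at h1
    linarith
  have hRQ : ∀ i ∈ C, (P : ℝ) - 2 ≤ (cnt M R i : ℝ) + cnt M Q i * (P - 2) := by
    intro i hi
    rw [hC, Finset.mem_union] at hi
    rcases hi with hi | hi
    · have h1 : P - 2 ≤ cnt M R i := by
        obtain ⟨h1, h2, h3, h4, h5, h6, h7⟩ := hf i (Finset.mem_union_left _ hi)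
        rw [if_pos hi] at h7
        rw [← h7]
        apply cnt_ge
        · intro l hl
          rw [hR, Finset.mem_biUnion]; exact ⟨i, hi, hl⟩
        · intro l hl
          have h8 := mem_B0.1 (h6 l hl).1
          rw [hMe l (by omega), hM1e l h8]
          exact (h6 l hl).2
      have h2 : ((P - 2 : ℕ) : ℝ) ≤ cnt M R i := by exact_mod_cast h1
      rw [Nat.cast_sub (by omega)] at h2
      push_cast at h2
      have h3 : (0 : ℝ) ≤ cnt M Q i := Nat.cast_nonneg _
      nlinarith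
    · have h1 : 1 ≤ cnt M Q i := by
        have h2 := hC'1 i hi
        rw [← h2]
        unfold cnt
        apply Finset.card_le_card
        intro l hl
        rw [Finset.mem_filter] at hl
        have h3 := Finset.mem_Ico.1 hl.1
        rw [Finset.mem_filter, hQ, Finset.mem_filter]
        refine ⟨⟨hl.1, by rw [hl.2]; exact hi⟩, ?_⟩
        rw [hMe l h3.2]; exact hl.2
      have h2 : (1 : ℝ) ≤ cnt M Q i := by exact_mod_cast h1
      have h3 : (0 : ℝ) ≤ cnt M R i := Nat.cast_nonneg _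
      nlinarith
  have hD3i : ∀ i ∈ C, (1 : ℝ) ≤ cnt M D3 i := by
    intro i hi
    have h1 : 1 ≤ cnt M D3 i := by
      have h2 : ({a i} : Finset ℕ).card ≤ cnt M D3 i := by
        apply cnt_ge
        · intro l hl
          rw [Finset.mem_singleton] at hl
          rw [hl, hD3]
          exact Finset.mem_image_of_mem a hi
        · intro l hl
          rw [Finset.mem_singleton] at hl
          rw [hl]
          have h3 := (hf i (hCSU hi)).1
          have h8 := mem_B0.1 h3.1
          rw [hMe _ (by omega), hM1e _ h8]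
          exact h3.2
      simpa using h2
    exact_mod_cast h1
  have hz : ∀ i, cnt M V i + (if i ∈ C then 1 else 0) ≤ 1 := by
    intro i
    have h0 := hm2 i
    have hr : (0 : ℝ) ≤ cnt M R i := Nat.cast_nonneg _
    have hd : (0 : ℝ) ≤ cnt M D3 i := Nat.cast_nonneg _
    have hq : (0 : ℝ) ≤ cnt M Q i := Nat.cast_nonneg _
    split_ifs with hi
    · have h1 := hRQ i hi
      have h2 := hD3i i hi
      by_contra hne
      have h4 : (1 : ℝ) ≤ cnt M V i := by exact_mod_cast (by omega : 1 ≤ cnt M V i)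
      nlinarith
    · by_contra hne
      have h4 : (2 : ℝ) ≤ cnt M V i := by exact_mod_cast (by omega : 2 ≤ cnt M V i)
      nlinarith
  have hz1 : ∀ i, cnt M V i + (if i ∈ C then 1 else 0) = 1 := by
    have h1 : ∑ i : Fin n, (cnt M V i + (if i ∈ C then 1 else 0)) = ∑ _i : Fin n, 1 := by
      rw [Finset.sum_add_distrib, sum_cnt, hV, Nat.card_Ico]
      rw [Finset.sum_ite_mem]
      simp only [Finset.univ_inter, Finset.sum_const, smul_eq_mul, mul_one, Finset.card_univ,
        Fintype.card_fin]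
      omega
    have h2 := (Finset.sum_eq_sum_iff_of_le (fun i _ => hz i)).1 h1
    exact fun i => h2 i (Finset.mem_univ i)
  -- final task
  set f := N + m + v with hfdef
  set i0 := M f with hi0
  have hfin : (cnt M R i0 : ℝ) + cnt M Q i0 * (P - 2) + cnt M V i0 * (P - 1) + P
      < 2 * P - 2 := by
    have hsub : ((R ∪ Q) ∪ V) ∪ {f} ⊆ B3 N m v (B0 N \ A1) DD D3 := by
      intro l hl
      simp only [Finset.mem_union] at hl
      rcases hl with ((hl | hl) | hl) | hl
      · have a1 := hRA hl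
        have a2 := hAB a1
        have a3 : l ∉ Θ := Finset.disjoint_left.1 dAΘ a1
        have a4 : l ∉ D3 := Finset.disjoint_left.1 dRD hl
        simp only [B3, B2, B1, hDD, Finset.mem_union, Finset.mem_sdiff]
        tauto
      · have a1 : l ∈ Θ := hQΘ hl
        have a2 : l ∉ A1 := Finset.disjoint_right.1 dAΘ a1
        have a4 : l ∉ D3 := fun h => a2 (hD3A h)
        simp only [B3, B2, B1, hDD, Finset.mem_union, Finset.mem_sdiff]
        tauto
      · have a4 : l ∉ D3 := Finset.disjoint_right.1 dDV hl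
        simp only [B3, B2, Finset.mem_union, Finset.mem_sdiff]
        left
        exact ⟨Or.inr hl, a4⟩
      · rw [Finset.mem_singleton] at hl
        unfold B3
        apply Finset.mem_union_right
        rw [Finset.mem_Ico]
        omega
    have h1 := LD_mono hW (M := M) hsub i0
    have h2 := l3 i0
    have eF : LD W M {f} i0 = P := by
      unfold LD
      rw [Finset.sum_singleton, if_pos rfl]
      exact Wt3 (le_refl _)
    have dF : Disjoint ((R ∪ Q) ∪ V) {f} := by
      rw [Finset.disjoint_singleton_right]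
      simp only [Finset.mem_union, not_or]
      refine ⟨⟨fun h => ?_, fun h => ?_⟩, fun h => ?_⟩
      · have := hRlt _ h; omega
      · have := hQlt _ h; omega
      · have := hVlt _ h; omega
    rw [LD_union dF, LD_union (by rw [Finset.disjoint_union_left]; exact ⟨dRV, dQV⟩),
      LD_union dRQ, eR, eQ, eV, eF] at h1
    linarith
  have hr : (0 : ℝ) ≤ cnt M R i0 := Nat.cast_nonneg _
  have hq : (0 : ℝ) ≤ cnt M Q i0 := Nat.cast_nonneg _
  have hvv : (0 : ℝ) ≤ cnt M V i0 := Nat.cast_nonneg _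
  by_cases hi : i0 ∈ C
  · have h1 := hRQ i0 hi
    nlinarith
  · have h1 := hz1 i0
    rw [if_neg hi] at h1
    have h2 : (cnt M V i0 : ℝ) = 1 := by exact_mod_cast (by omega : cnt M V i0 = 1)
    rw [h2] at hfin
    nlinarith

/-- `P = n + j`: every competitive randomized algorithm has ratio at least `2 - 2/(n+j)`. -/
theorem lower_boundB (n j : ℕ) (hj : 2 ≤ j) (hn : 3 * j ≤ n + 4) (h2j : 2 * j ≤ n) (R : RandAlg.{u} n) (c : ℝ)
    (hc : R.Competitive c) : 2 - 2 / ((n : ℝ) + j) ≤ c := by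
  have hn0 : 0 < n := by omega
  obtain ⟨P, hP⟩ : ∃ P, P = n + j := ⟨_, rfl⟩
  obtain ⟨N, hN⟩ : ∃ N, N = n * P := ⟨_, rfl⟩
  obtain ⟨v, hv⟩ : ∃ v, v = n - j := ⟨_, rfl⟩
  obtain ⟨B, hB⟩ : ∃ B, B = N + 5 * n + 2 := ⟨_, rfl⟩
  have hP4 : (4 : ℝ) ≤ P := by exact_mod_cast (by omega : 4 ≤ P)
  have h := repeat_trick hn0 (P : ℝ) (2 * P - 2) (by linarith) (by linarith) (SS n P N v B)
    (SS_finite n P N v B) (fun s hs => hs.1) (adversaryB hj hn h2j hP hN hv hB) R c hc
  have hPr : (P : ℝ) = n + j := by rw [hP]; push_cast; ring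
  rw [← hPr]
  have hPpos : (0 : ℝ) < P := by linarith
  have h2 : 2 - 2 / (P : ℝ) = (2 * P - 2) / P := by field_simp
  rw [h2, div_le_iff₀ hPpos]
  exact h

end Pool.Agent.Helper872.LoadBal
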