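import Mathlib
import Pool.Agent.Helper872.LoadBal.Adversary

universe u

namespace Pool.Agent.Helper872.LoadBal

variable {n : ℕ}

/-- the weights: `N` units, `k` tasks of weight `n - 1`, one task of weight `n` -/
def Wx (n N k : ℕ) (l : ℕ) : ℝ :=
  if l < N then 1 else if l < N + k then (n : ℝ) - 1 else n

lemma Wx_nonneg (n N k : ℕ) (hn : 2 ≤ n) (l : ℕ) : 0 ≤ Wx n N k l := by
  have : (2 : ℝ) ≤ n := by exact_mod_cast hn
  unfold Wx
  split_ifs <;> linarith

lemma Wx0 {n N k l : ℕ} (h : l < N) : Wx n N k l = 1 := by simp [Wx, h]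
lemma Wx1 {n N k l : ℕ} (h : N ≤ l) (h' : l < N + k) : Wx n N k l = (n : ℝ) - 1 := by
  unfold Wx; rw [if_neg (by omega), if_pos h']
lemma Wx2 {n N k l : ℕ} (h : N + k ≤ l) : Wx n N k l = (n : ℝ) := by
  unfold Wx; rw [if_neg (by omega), if_neg (by omega)]

noncomputable def h1 (n N k : ℕ) (D1 : Finset ℕ) : List Ev :=
  arrs N ((n : ℝ) - 1) k ++ (deps D1 ++ g0 N)
noncomputable def h2 (n N k : ℕ) (D1 D2 : Finset ℕ) : List Ev :=
  arrs (N + k) (n : ℝ) 1 ++ (deps D2 ++ h1 n N k D1)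

def C1 (N k : ℕ) (D1 : Finset ℕ) : Finset ℕ := (B0 N \ D1) ∪ Finset.Ico N (N + k)
def C2 (N k : ℕ) (D1 D2 : Finset ℕ) : Finset ℕ :=
  (C1 N k D1 \ D2) ∪ Finset.Ico (N + k) (N + k + 1)

lemma C1_lt {N k l : ℕ} {D1 : Finset ℕ} (h : l ∈ C1 N k D1) : l < N + k := by
  simp only [C1, Finset.mem_union, Finset.mem_sdiff, mem_B0, Finset.mem_Ico] at h
  omega

lemma offline2 (n k N : ℕ) (hn : 2 ≤ n) (hk : k + 1 ≤ n) (R D2 D1 : Finset ℕ)
    (hRN : ∀ l ∈ R, l < N) (h2N : ∀ l ∈ D2, l < N) (h1N : ∀ l ∈ D1, l < N)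
    (d12 : Disjoint R D2) (d13 : Disjoint R D1) (d23 : Disjoint D2 D1)
    (cR : R.card ≤ (n - k) * (n - 1)) (c2 : D2.card ≤ n)
    (c1 : R.card + D2.card + D1.card ≤ n * n) :
    ∃ M : ℕ → Fin n, ∀ i,
      cnt M R i + cnt M D2 i + cnt M D1 i ≤ n ∧
      cnt M R i + cnt M D2 i + cnt M (Finset.Ico N (N + k)) i * (n - 1) ≤ n ∧
      cnt M R i + cnt M (Finset.Ico N (N + k)) i * (n - 1) + cnt M {N + k} i * n ≤ n := by
  have hn0 : 0 < n := by omega
  obtain ⟨fR, hfR⟩ := exists_assign (n := n) R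
    (fun i => if i.val = 0 then 0 else if i.val ≤ k then 1 else n) (by
      rw [Fin.sum_univ_eq_sum_range (fun i => if i = 0 then 0 else if i ≤ k then 1 else n)]
      set f : ℕ → ℕ := fun i => if i = 0 then 0 else if i ≤ k then 1 else n with hf
      have e1 := seg f 1 k 1 (by intro x h1 h2; simp only [hf]; split_ifs <;> omega)
      have e2 := seg f (1 + k) (n - 1 - k) n
        (by intro x h1 h2; simp only [hf]; split_ifs <;> omega)
      have e4 : 1 + k + (n - 1 - k) = n := by omega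
      rw [e4] at e2
      have e5 : (n - k) * (n - 1) ≤ k * 1 + (n - 1 - k) * n := by
        obtain ⟨r, rfl⟩ : ∃ r, n = k + 1 + r := ⟨n - 1 - k, by omega⟩
        have a1 : k + 1 + r - k = r + 1 := by omega
        have a2 : k + 1 + r - 1 = k + r := by omega
        have a3 : k + 1 + r - 1 - k = r := by omega
        rw [a1, a3, a2]
        nlinarith
      omega) hn0
  obtain ⟨f2, hf2⟩ := exists_assign (n := n) D2 (fun i => if i.val = 0 then n else 0) (by
      rw [Fin.sum_univ_eq_sum_range (fun i => if i = 0 then n else 0)]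
      set f : ℕ → ℕ := fun i => if i = 0 then n else 0 with hf
      have e1 := seg f 0 1 n (by intro x h1 h2; simp only [hf]; split_ifs <;> omega)
      have e2 := seg f (0 + 1) (n - 1) 0 (by intro x h1 h2; simp only [hf]; split_ifs <;> omega)
      have e4 : 0 + 1 + (n - 1) = n := by omega
      rw [e4] at e2
      omega) hn0
  obtain ⟨fV, hfV⟩ := exists_assign (n := n) (Finset.Ico N (N + k))
    (fun i => if i.val = 0 then 0 else if i.val ≤ k then 1 else 0) (by
      rw [Fin.sum_univ_eq_sum_range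
        (fun i => if i = 0 then 0 else if i ≤ k then 1 else 0), Nat.card_Ico]
      set f : ℕ → ℕ := fun i => if i = 0 then 0 else if i ≤ k then 1 else 0 with hf
      have e1 := seg f 1 k 1 (by intro x h1 h2; simp only [hf]; split_ifs <;> omega)
      have e2 := seg f (1 + k) (n - 1 - k) 0
        (by intro x h1 h2; simp only [hf]; split_ifs <;> omega)
      have e4 : 1 + k + (n - 1 - k) = n := by omega
      rw [e4] at e2
      omega) hn0
  have k1 : ∀ i, cnt fR R i + cnt f2 D2 i ≤ n := by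
    intro i
    have a1 := hfR i
    have a3 := hf2 i
    unfold cnt
    split_ifs at a1 a3 <;> omega
  obtain ⟨f1, hf1⟩ := exists_assign (n := n) D1
    (fun i => n - (cnt fR R i + cnt f2 D2 i)) (by
      have b1 : ∑ i : Fin n, (n - (cnt fR R i + cnt f2 D2 i)) +
          ∑ i : Fin n, (cnt fR R i + cnt f2 D2 i) = n * n := by
        rw [← Finset.sum_add_distrib]
        rw [Finset.sum_congr rfl (fun i _ => Nat.sub_add_cancel (k1 i))]
        simp
      rw [Finset.sum_add_distrib, sum_cnt, sum_cnt] at b1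
      omega) hn0
  classical
  let M : ℕ → Fin n := fun l => if l ∈ R then fR l else
    if l ∈ D2 then f2 l else if l ∈ D1 then f1 l else if l < N + k then fV l else ⟨0, hn0⟩
  have mR : ∀ l ∈ R, M l = fR l := fun l hl => by simp only [M, if_pos hl]
  have m2 : ∀ l ∈ D2, M l = f2 l := fun l hl => by
    have h1 : l ∉ R := Finset.disjoint_right.1 d12 hl
    simp only [M, if_pos hl, if_neg h1]
  have m1 : ∀ l ∈ D1, M l = f1 l := fun l hl => by
    have h1 : l ∉ R := Finset.disjoint_right.1 d13 hl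
    have h3 : l ∉ D2 := Finset.disjoint_right.1 d23 hl
    simp only [M, if_pos hl, if_neg h1, if_neg h3]
  have hbig : ∀ l, N ≤ l → l ∉ R ∧ l ∉ D2 ∧ l ∉ D1 := by
    intro l hl
    refine ⟨fun h => ?_, fun h => ?_, fun h => ?_⟩
    · have := hRN l h; omega
    · have := h2N l h; omega
    · have := h1N l h; omega
  have mV : ∀ l ∈ Finset.Ico N (N + k), M l = fV l := fun l hl => by
    rw [Finset.mem_Ico] at hl
    obtain ⟨h1, h2, h3⟩ := hbig l (by omega)
    simp only [M, if_neg h1, if_neg h2, if_neg h3, if_pos hl.2]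
  have mF : M (N + k) = ⟨0, hn0⟩ := by
    obtain ⟨h1, h2, h3⟩ := hbig (N + k) (by omega)
    simp only [M, if_neg h1, if_neg h2, if_neg h3, lt_irrefl, if_false]
  refine ⟨M, fun i => ?_⟩
  rw [cnt_congr mR, cnt_congr m2, cnt_congr m1, cnt_congr mV]
  have a0 := k1 i
  have a1 := hfR i
  have a3 := hf2 i
  have a4 := hf1 i
  have a7 := hfV i
  have a8 : cnt M {N + k} i = if i.val = 0 then 1 else 0 := by
    unfold cnt
    rw [Finset.filter_singleton, mF]
    by_cases hi : i.val = 0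
    · have : (⟨0, hn0⟩ : Fin n) = i := Fin.ext hi.symm
      rw [if_pos this, if_pos hi]; rfl
    · have : (⟨0, hn0⟩ : Fin n) ≠ i := fun h => hi (by rw [← h])
      rw [if_neg this, if_neg hi]; rfl
  rw [a8]
  change cnt fR R i ≤ _ at a1
  change cnt f2 D2 i ≤ _ at a3
  change cnt f1 D1 i ≤ _ at a4
  change cnt fV _ i ≤ _ at a7
  generalize cnt fR R i = xR at *
  generalize cnt f2 D2 i = x2 at *
  generalize cnt f1 D1 i = x1 at *
  generalize cnt fV (Finset.Ico N (N + k)) i = xV at *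
  have b1 : xV = 0 ∨ xV = 1 := by split_ifs at a7 <;> omega
  refine ⟨by omega, ?_, ?_⟩
  · rcases b1 with b1 | b1 <;> rw [b1] <;> split_ifs at a1 a3 a7 <;> omega
  · rcases b1 with b1 | b1 <;> rw [b1] <;> split_ifs at a1 a7 ⊢ <;> omega

lemma oaA (hn : 0 < n) {W : ℕ → ℝ} (hW : ∀ l, 0 ≤ W l) {N : ℕ} (hW1 : ∀ l < N, W l = 1)
    {M : ℕ → Fin n} {P : ℝ} (hP : 0 ≤ P)
    (L0 : ∀ i, LD W M (B0 N) i ≤ P) : OA W M P (g0 N) (B0 N) := by
  have h0 : OA W M P [] ∅ := ⟨[], rfl, by simp [Rep, st], by simpa [cost] using hP⟩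
  exact h0.arrs hn hW 0 (by simp) 1 N (fun l _ h => hW1 l (by omega)) L0

lemma good_x {k N : ℕ} (hn : 2 ≤ n) (hk : k + 1 ≤ n) (hN : N = n * n) (R D2 : Finset ℕ)
    (hR : R ⊆ B0 N) (hD : D2 ⊆ B0 N) (d12 : Disjoint R D2)
    (cR : R.card ≤ (n - k) * (n - 1)) (c2 : D2.card ≤ n) :
    Good n n (deps (B0 N) ++ g0 N) ∧
    Good n n (deps (C2 N k (B0 N \ (R ∪ D2)) D2) ++ h2 n N k (B0 N \ (R ∪ D2)) D2) := by
  have hn0 : 0 < n := by omega
  have hn2 : (2 : ℝ) ≤ n := by exact_mod_cast hn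
  have hcardB : (B0 N).card = n * n := by simp [B0, hN]
  have hsub : R ∪ D2 ⊆ B0 N := Finset.union_subset hR hD
  obtain ⟨M, hM⟩ := offline2 n k N hn hk R D2 (B0 N \ (R ∪ D2)) (fun l hl => mem_B0.1 (hR hl))
    (fun l hl => mem_B0.1 (hD hl)) (fun l hl => mem_B0.1 (Finset.mem_sdiff.1 hl).1) d12
    (Finset.disjoint_of_subset_left Finset.subset_union_left Finset.disjoint_sdiff)
    (Finset.disjoint_of_subset_left Finset.subset_union_right Finset.disjoint_sdiff)
    cR c2 (by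
      have h1 : (B0 N \ (R ∪ D2)).card + (R ∪ D2).card = (B0 N).card :=
        Finset.card_sdiff_add_card_eq_card hsub
      rw [Finset.card_union_of_disjoint d12] at h1
      omega)
  set D1 := B0 N \ (R ∪ D2) with hD1
  set W := Wx n N k with hWdef
  have hW : ∀ l, 0 ≤ W l := Wx_nonneg n N k hn
  have eR : ∀ i, LD W M R i = (cnt M R i : ℝ) * 1 :=
    LD_const (fun l hl => Wx0 (mem_B0.1 (hR hl)))
  have e2 : ∀ i, LD W M D2 i = (cnt M D2 i : ℝ) * 1 :=
    LD_const (fun l hl => Wx0 (mem_B0.1 (hD hl)))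
  have e1 : ∀ i, LD W M D1 i = (cnt M D1 i : ℝ) * 1 :=
    LD_const (fun l hl => Wx0 (mem_B0.1 (Finset.mem_sdiff.1 hl).1))
  have eV : ∀ i, LD W M (Finset.Ico N (N + k)) i =
      (cnt M (Finset.Ico N (N + k)) i : ℝ) * (n - 1) :=
    LD_const (fun l hl => Wx1 (Finset.mem_Ico.1 hl).1 (Finset.mem_Ico.1 hl).2)
  have eF : ∀ i, LD W M {N + k} i = (cnt M {N + k} i : ℝ) * n :=
    LD_const (fun l hl => Wx2 (Finset.mem_singleton.1 hl).ge)
  have p1 : ((n - 1 : ℕ) : ℝ) = (n : ℝ) - 1 := by rw [Nat.cast_sub (by omega)]; norm_num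
  have hall : ∀ l, l < N → l ∈ R ∨ l ∈ D2 ∨ l ∈ D1 := by
    intro l hl
    have := (mem_B0 (N := N)).2 hl
    simp only [hD1, Finset.mem_sdiff, Finset.mem_union]
    tauto
  have L0 : ∀ i, LD W M (B0 N) i ≤ n := by
    intro i
    have hs : B0 N ⊆ (R ∪ D2) ∪ D1 := by
      intro l hl
      have := hall l (mem_B0.1 hl)
      simp only [Finset.mem_union]; tauto
    have a0 := LD_mono hW (M := M) hs i
    have a1 := LD_union_le hW (M := M) (R ∪ D2) D1 i
    have a2 := LD_union_le hW (M := M) R D2 i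
    have a4 : ((cnt M R i + cnt M D2 i + cnt M D1 i : ℕ) : ℝ) ≤ n := by
      exact_mod_cast (hM i).1
    push_cast at a4
    rw [eR i, e2 i] at a2
    rw [e1 i] at a1
    linarith
  have L1 : ∀ i, LD W M (C1 N k D1) i ≤ n := by
    intro i
    have hs : C1 N k D1 ⊆ (R ∪ D2) ∪ Finset.Ico N (N + k) := by
      intro l hl
      simp only [C1, Finset.mem_union, Finset.mem_sdiff, mem_B0, Finset.mem_Ico] at hl
      simp only [Finset.mem_union, Finset.mem_Ico]
      rcases hl with hl | hl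
      · have := hall l hl.1; tauto
      · tauto
    have a0 := LD_mono hW (M := M) hs i
    have a1 := LD_union_le hW (M := M) (R ∪ D2) (Finset.Ico N (N + k)) i
    have a2 := LD_union_le hW (M := M) R D2 i
    have a4 : ((cnt M R i + cnt M D2 i + cnt M (Finset.Ico N (N + k)) i * (n - 1) : ℕ) : ℝ)
        ≤ n := by
      exact_mod_cast (hM i).2.1
    push_cast at a4
    rw [p1] at a4
    rw [eR i, e2 i] at a2
    rw [eV i] at a1
    linarith
  have L2 : ∀ i, LD W M (C2 N k D1 D2) i ≤ n := by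
    intro i
    have hs : C2 N k D1 D2 ⊆ (R ∪ Finset.Ico N (N + k)) ∪ {N + k} := by
      intro l hl
      simp only [C2, C1, Finset.mem_union, Finset.mem_sdiff, mem_B0, Finset.mem_Ico] at hl
      simp only [Finset.mem_union, Finset.mem_Ico, Finset.mem_singleton]
      rcases hl with ⟨hl | hl, hl2⟩ | hl
      · have := hall l hl.1; tauto
      · tauto
      · right; omega
    have a0 := LD_mono hW (M := M) hs i
    have a1 := LD_union_le hW (M := M) (R ∪ Finset.Ico N (N + k)) {N + k} i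
    have a2 := LD_union_le hW (M := M) R (Finset.Ico N (N + k)) i
    have a4 : ((cnt M R i + cnt M (Finset.Ico N (N + k)) i * (n - 1) +
        cnt M {N + k} i * n : ℕ) : ℝ) ≤ n := by
      exact_mod_cast (hM i).2.2
    push_cast at a4
    rw [p1] at a4
    rw [eR i, eV i] at a2
    rw [eF i] at a1
    linarith
  have hv1 : D1 ⊆ B0 N := Finset.sdiff_subset
  have hv2 : D2 ⊆ C1 N k D1 := by
    intro l hl
    have h1 := hD hl
    simp only [C1, hD1, Finset.mem_union, Finset.mem_sdiff]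
    tauto
  have va1' : VA (h1 n N k D1) (C1 N k D1) := by
    refine ((va0 N).deps D1 hv1).arrs N ?_ _ (by linarith) k
    intro l hl
    exact mem_B0.1 (Finset.mem_sdiff.1 hl).1
  have va2' : VA (h2 n N k D1 D2) (C2 N k D1 D2) := by
    refine (va1'.deps D2 hv2).arrs (N + k) ?_ _ (by linarith) 1
    intro l hl
    exact C1_lt (Finset.mem_sdiff.1 hl).1
  have oa0' : OA W M n (g0 N) (B0 N) := oaA hn0 hW (fun l hl => Wx0 hl) (by linarith) L0
  have oa1' : OA W M n (h1 n N k D1) (C1 N k D1) := by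
    refine (oa0'.deps hn0 hW L0 D1).arrs hn0 hW N ?_ _ k (fun l h h' => Wx1 h h') L1
    intro l hl
    exact mem_B0.1 (Finset.mem_sdiff.1 hl).1
  have oa2' : OA W M n (h2 n N k D1 D2) (C2 N k D1 D2) := by
    refine (oa1'.deps hn0 hW L1 D2).arrs hn0 hW (N + k) ?_ _ 1 (fun l h h' => Wx2 h) L2
    intro l hl
    exact C1_lt (Finset.mem_sdiff.1 hl).1
  exact ⟨goodOf hn0 hW (va0 N) oa0' L0, goodOf hn0 hW va2' oa2' L2⟩

/-- all scripts -/
noncomputable def scx (n N a k : ℕ) (Z D1 D2 : Finset ℕ) : List Ev :=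
  deps Z ++ (if a = 0 then g0 N else h2 n N k D1 D2)

def SX (n N B : ℕ) : Set (List Ev) :=
  {s | Good n n s ∧ ∃ a k : ℕ, ∃ Z D1 D2 : Finset ℕ, a < 2 ∧ k < B ∧ Z ⊆ Finset.range B ∧
    D1 ⊆ Finset.range B ∧ D2 ⊆ Finset.range B ∧ s = scx n N a k Z D1 D2}

lemma SX_finite (n N B : ℕ) : (SX n N B).Finite := by
  have hfin := Finset.finite_toSet ((Finset.range 2) ×ˢ (Finset.range B) ×ˢ
    (Finset.range B).powerset ×ˢ (Finset.range B).powerset ×ˢ (Finset.range B).powerset)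
  refine (hfin.image (fun p => scx n N p.1 p.2.1 p.2.2.1 p.2.2.2.1 p.2.2.2.2)).subset ?_
  rintro s ⟨-, a, k, Z, D1, D2, h1, h2, h3, h4, h5, rfl⟩
  refine ⟨(a, k, Z, D1, D2), ?_, rfl⟩
  simp only [Finset.coe_product, Set.mem_prod, Finset.mem_coe, Finset.mem_range,
    Finset.mem_powerset]
  exact ⟨h1, h2, h3, h4, h5⟩

lemma repx (F : List Ev → Fin n) {N k : ℕ} {M0 : ℕ → Fin n} (D1 D2 : Finset ℕ)
    (h : Rep (Wx n N k) M0 (ann F (g0 N)) (B0 N)) :
    ∃ M : ℕ → Fin n, (∀ l < N, M l = M0 l) ∧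
      Rep (Wx n N k) M (ann F (h1 n N k D1)) (C1 N k D1) ∧
      Rep (Wx n N k) M (ann F (h2 n N k D1 D2)) (C2 N k D1 D2) := by
  have h1 := run_deps F (Wx n N k) _ _ M0 h D1
  obtain ⟨M2, e2, h2⟩ := run_arrs F (Wx n N k) _ _ M0 h1 N
    (fun l hl => mem_B0.1 (Finset.mem_sdiff.1 hl).1) _ k (fun l h h' => Wx1 h h')
  have h3 := run_deps F (Wx n N k) _ _ M2 h2 D2
  obtain ⟨M3, e3, h4⟩ := run_arrs F (Wx n N k) _ _ M2 h3 (N + k)
    (fun l hl => C1_lt (Finset.mem_sdiff.1 hl).1) _ 1 (fun l h h' => Wx2 h)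
  refine ⟨M3, fun l hl => by rw [e3 l (by omega), e2 l hl], ?_, h4⟩
  exact h2.congr (fun l hl => e3 l (C1_lt hl))

end Pool.Agent.Helper872.LoadBal
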