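import Mathlib
import Pool.Agent.Helper872.LoadBal.Exact

universe u

namespace Pool.Agent.Helper872.LoadBal

variable {n : ℕ}

theorem adversaryX {N B : ℕ} (hn : 2 ≤ n) (hN : N = n * n) (hB : B = N + n + 2)
    (hgood : ∀ x : Fin n → ℕ, ∑ i, x i = n * n → (∀ i, x i ≤ 2 * n - 2) →
      (∀ i, 1 ≤ x i) ∨ (∃ q, ∀ i, i ≠ q → n ≤ x i)) (F : List Ev → Fin n) :
    ∃ s ∈ SX n N B, (2 * n - 1 : ℝ) ≤ cost (ann F s) := by
  classical
  have hn2 : (2 : ℝ) ≤ n := by exact_mod_cast hn
  have hn0 : 0 < n := by omega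
  by_contra hcon
  push Not at hcon
  have hB0B : B0 N ⊆ Finset.range B := by
    intro l hl
    have := mem_B0.1 hl
    rw [Finset.mem_range]; omega
  have c0 : cost (ann F (deps (B0 N) ++ g0 N)) < 2 * n - 1 := by
    apply hcon
    refine ⟨(good_x (k := 0) hn (by omega) hN ∅ ∅ (by simp) (by simp) (by simp) (by simp)
      (by simp)).1, 0, 0, B0 N, ∅, ∅, by omega, by omega, hB0B, by simp, by simp, ?_⟩
    simp [scx]
  obtain ⟨M0, hM0⟩ := rep0 hn0 F 0 N 0 0
  have l0 := LD_lt_of hM0 c0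
  have eU : ∀ i, LD (Wt 0 N 0 0) M0 (B0 N) i = (cnt M0 (B0 N) i : ℝ) * 1 :=
    LD_const (fun l hl => Wt0 (mem_B0.1 hl))
  obtain ⟨x, hxdef⟩ : ∃ x : Fin n → ℕ, x = fun i => cnt M0 (B0 N) i := ⟨_, rfl⟩
  have hxi : ∀ i, x i = cnt M0 (B0 N) i := fun i => by rw [hxdef]
  have hx : ∀ i, x i ≤ 2 * n - 2 := by
    intro i
    have h1 := l0 i
    rw [eU i, mul_one, ← hxi i] at h1
    have h2 : ((x i + 1 : ℕ) : ℝ) < ((2 * n : ℕ) : ℝ) := by push_cast; linarith
    have h3 : x i + 1 < 2 * n := by exact_mod_cast h2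
    omega
  have hsum : ∑ i, x i = n * n := by
    rw [hxdef, sum_cnt]; simp [B0, hN]
  have hch : ∀ i, ∃ (U Rf : Finset ℕ), (∀ l ∈ U, l ∈ B0 N ∧ M0 l = i) ∧
      (∀ l ∈ Rf, l ∈ B0 N ∧ M0 l = i) ∧ Disjoint U Rf ∧ U.card = min (x i) 1 ∧
      Rf.card = if x i < n then 0 else n - 1 := by
    intro i
    have h1 : min (x i) 1 + (if x i < n then 0 else n - 1) ≤
        ((B0 N).filter (fun l => M0 l = i)).card := by
      change _ ≤ cnt M0 (B0 N) i
      rw [← hxi i]
      split_ifs <;> omega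
    obtain ⟨K, hK, hKc⟩ := Finset.exists_subset_card_eq h1
    obtain ⟨U, hU, hUc⟩ := Finset.exists_subset_card_eq
      (by rw [hKc]; exact Nat.le_add_right _ _ : min (x i) 1 ≤ K.card)
    refine ⟨U, K \ U, fun l hl => Finset.mem_filter.1 (hK (hU hl)),
      fun l hl => Finset.mem_filter.1 (hK (Finset.mem_sdiff.1 hl).1), Finset.disjoint_sdiff,
      hUc, ?_⟩
    rw [Finset.card_sdiff_of_subset hU, hKc, hUc]
    omega
  choose U Rf hU hRf hd hUc hRc using hch
  set S := Finset.univ.filter (fun i => ¬ x i < n) with hS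
  set L := Finset.univ.filter (fun i => x i < n) with hL
  have hSL : L.card + S.card = n := by
    rw [hS, hL, Finset.card_filter_add_card_filter_not]
    simp
  obtain ⟨k, hk⟩ : ∃ k, k = L.card := ⟨_, rfl⟩
  have hS1 : 1 ≤ S.card := by
    by_contra hne
    have h1 : ∀ i, x i ≤ n - 1 := by
      intro i
      by_contra h2
      have h3 : i ∈ S := by
        rw [hS, Finset.mem_filter]
        exact ⟨Finset.mem_univ _, by omega⟩
      have := Finset.card_pos.2 ⟨i, h3⟩
      omega
    have h2 : ∑ i, x i ≤ ∑ _i : Fin n, (n - 1) := Finset.sum_le_sum (fun i _ => h1 i)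
    rw [hsum] at h2
    simp only [Finset.sum_const, Finset.card_univ, Fintype.card_fin, smul_eq_mul] at h2
    have h3 : n * (n - 1) < n * n := Nat.mul_lt_mul_of_pos_left (by omega) hn0
    omega
  have hk1 : k + 1 ≤ n := by omega
  set R := Finset.univ.biUnion Rf with hR
  set D2 := Finset.univ.biUnion U with hD2
  have hmemR : ∀ l ∈ R, ∃ i, l ∈ Rf i := by
    intro l hl
    rw [hR, Finset.mem_biUnion] at hl
    obtain ⟨i, -, h⟩ := hl
    exact ⟨i, h⟩
  have hmemD : ∀ l ∈ D2, ∃ i, l ∈ U i := by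
    intro l hl
    rw [hD2, Finset.mem_biUnion] at hl
    obtain ⟨i, -, h⟩ := hl
    exact ⟨i, h⟩
  have hRB : R ⊆ B0 N := fun l hl => by
    obtain ⟨i, h⟩ := hmemR l hl
    exact (hRf i l h).1
  have hDB : D2 ⊆ B0 N := fun l hl => by
    obtain ⟨i, h⟩ := hmemD l hl
    exact (hU i l h).1
  have dRD : Disjoint R D2 := by
    rw [Finset.disjoint_left]
    intro l hl hl2
    obtain ⟨i, h⟩ := hmemR l hl
    obtain ⟨k, h'⟩ := hmemD l hl2
    have h3 : i = k := by rw [← (hRf i l h).2, (hU k l h').2]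
    subst h3
    exact Finset.disjoint_left.1 (hd i) h' h
  have cR : R.card ≤ (n - k) * (n - 1) := by
    have h1 : R.card ≤ ∑ i, (Rf i).card := Finset.card_biUnion_le
    have h2 : ∑ i, (Rf i).card = S.card * (n - 1) := by
      rw [hS, Finset.card_filter, Finset.sum_mul]
      apply Finset.sum_congr rfl
      intro i _
      rw [hRc i]
      split_ifs <;> simp_all
    have h3 : S.card = n - k := by omega
    rw [← h3, ← h2]; exact h1
  have cD : D2.card ≤ n := by
    have h1 : D2.card ≤ ∑ i, (U i).card := Finset.card_biUnion_le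
    have h2 : ∑ i, (U i).card ≤ ∑ _i : Fin n, 1 := by
      apply Finset.sum_le_sum
      intro i _
      rw [hUc i]; omega
    simp only [Finset.sum_const, Finset.card_univ, Fintype.card_fin, smul_eq_mul, mul_one] at h2
    omega
  set D1 := B0 N \ (R ∪ D2) with hD1
  have c2 : cost (ann F (deps (C2 N k D1 D2) ++ h2 n N k D1 D2)) < 2 * n - 1 := by
    apply hcon
    refine ⟨(good_x hn hk1 hN R D2 hRB hDB dRD cR cD).2, 1, k, C2 N k D1 D2, D1, D2, by omega,
      by omega, ?_, Finset.sdiff_subset.trans hB0B, hDB.trans hB0B, ?_⟩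
    · intro l hl
      rw [Finset.mem_range]
      simp only [C2, Finset.mem_union, Finset.mem_sdiff, Finset.mem_Ico] at hl
      rcases hl with hl | hl
      · have := C1_lt hl.1; omega
      · omega
    · simp [scx]
  have hM0' : Rep (Wx n N k) M0 (ann F (g0 N)) (B0 N) :=
    hM0.congr2 (fun l hl => ⟨by rw [Wt0 (mem_B0.1 hl), Wx0 (mem_B0.1 hl)], rfl⟩)
  obtain ⟨M, hMe, hM1, hM2⟩ := repx F D1 D2 hM0'
  have c1 : cost (ann F ((deps (C2 N k D1 D2) ++
      (arrs (N + k) (n : ℝ) 1 ++ deps D2)) ++ h1 n N k D1)) < 2 * n - 1 := by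
    have : (deps (C2 N k D1 D2) ++ (arrs (N + k) (n : ℝ) 1 ++ deps D2)) ++ h1 n N k D1 =
      deps (C2 N k D1 D2) ++ h2 n N k D1 D2 := by
      unfold h2
      simp only [List.append_assoc]
    rw [this]
    exact c2
  have l1 := LD_lt_of hM1 c1
  have l2 := LD_lt_of hM2 c2
  set W := Wx n N k with hWdef
  have hW : ∀ l, 0 ≤ W l := Wx_nonneg n N k hn
  set V := Finset.Ico N (N + k) with hV
  have eR : ∀ i, LD W M R i = (cnt M R i : ℝ) * 1 :=
    LD_const (fun l hl => Wx0 (mem_B0.1 (hRB hl)))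
  have e2 : ∀ i, LD W M D2 i = (cnt M D2 i : ℝ) * 1 :=
    LD_const (fun l hl => Wx0 (mem_B0.1 (hDB hl)))
  have eV : ∀ i, LD W M V i = (cnt M V i : ℝ) * (n - 1) :=
    LD_const (fun l hl => Wx1 (Finset.mem_Ico.1 hl).1 (Finset.mem_Ico.1 hl).2)
  have dRV : Disjoint R V := by
    rw [Finset.disjoint_left]; intro l h1 h2
    have := mem_B0.1 (hRB h1); have := Finset.mem_Ico.1 h2; omega
  have dDV : Disjoint D2 V := by
    rw [Finset.disjoint_left]; intro l h1 h2
    have := mem_B0.1 (hDB h1); have := Finset.mem_Ico.1 h2; omega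
  have hRi : ∀ i, (Rf i).card ≤ cnt M R i := by
    intro i
    apply cnt_ge
    · intro l hl
      rw [hR, Finset.mem_biUnion]; exact ⟨i, Finset.mem_univ _, hl⟩
    · intro l hl
      rw [hMe l (mem_B0.1 (hRf i l hl).1)]
      exact (hRf i l hl).2
  have hUi : ∀ i, (U i).card ≤ cnt M D2 i := by
    intro i
    apply cnt_ge
    · intro l hl
      rw [hD2, Finset.mem_biUnion]; exact ⟨i, Finset.mem_univ _, hl⟩
    · intro l hl
      rw [hMe l (mem_B0.1 (hU i l hl).1)]
      exact (hU i l hl).2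
  have hm1 : ∀ i, (cnt M R i : ℝ) + cnt M D2 i + cnt M V i * (n - 1) < 2 * n - 1 := by
    intro i
    have hsub : (R ∪ D2) ∪ V ⊆ C1 N k D1 := by
      intro l hl
      simp only [Finset.mem_union] at hl
      rcases hl with (hl | hl) | hl
      · have a2 := hRB hl
        simp only [C1, hD1, Finset.mem_union, Finset.mem_sdiff]
        tauto
      · have a2 := hDB hl
        simp only [C1, hD1, Finset.mem_union, Finset.mem_sdiff]
        tauto
      · unfold C1
        exact Finset.mem_union_right _ hl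
    have h1 := LD_mono hW (M := M) hsub i
    have h2 := l1 i
    rw [LD_union (by rw [Finset.disjoint_union_left]; exact ⟨dRV, dDV⟩), LD_union dRD,
      eR, e2, eV] at h1
    linarith
  have hsumV : ∑ i, cnt M V i = k := by rw [sum_cnt, hV, Nat.card_Ico]; omega
  have hz : ∀ i, cnt M V i ≤ if x i < n then 1 else 0 := by
    intro i
    have h0 := hm1 i
    have h1 := hRi i
    have h2 := hUi i
    rw [hRc i] at h1
    rw [hUc i] at h2
    split_ifs with hi
    · by_contra hne
      have h4 : (2 : ℝ) ≤ cnt M V i := by exact_mod_cast (by omega : 2 ≤ cnt M V i)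
      rcases hgood x hsum hx with hg | ⟨q, hq⟩
      · have h5 := hg i
        have h6 : 1 ≤ cnt M D2 i := by omega
        have h7 : (1 : ℝ) ≤ cnt M D2 i := by exact_mod_cast h6
        have h8 : (0 : ℝ) ≤ cnt M R i := Nat.cast_nonneg _
        nlinarith
      · -- `k ≤ 1`
        have h5 : L ⊆ {q} := by
          intro y hy
          rw [hL, Finset.mem_filter] at hy
          rw [Finset.mem_singleton]
          by_contra hyq
          have := hq y hyq
          omega
        have h6 := Finset.card_le_card h5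
        rw [Finset.card_singleton] at h6
        have h7 : cnt M V i ≤ ∑ i, cnt M V i :=
          Finset.single_le_sum (f := fun i => cnt M V i) (fun _ _ => Nat.zero_le _)
            (Finset.mem_univ i)
        omega
    · by_contra hne
      have h4 : (1 : ℝ) ≤ cnt M V i := by exact_mod_cast (by omega : 1 ≤ cnt M V i)
      rw [if_neg hi] at h1
      have h5 : n ≤ cnt M R i + cnt M D2 i := by omega
      have h6 : (n : ℝ) ≤ cnt M R i + cnt M D2 i := by exact_mod_cast h5
      nlinarith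
  have hz1 : ∀ i, cnt M V i = if x i < n then 1 else 0 := by
    have h1 : ∑ i : Fin n, cnt M V i = ∑ i : Fin n, (if x i < n then 1 else 0) := by
      rw [hsumV, hk, hL, Finset.card_filter]
    have h2 := (Finset.sum_eq_sum_iff_of_le (fun i _ => hz i)).1 h1
    exact fun i => h2 i (Finset.mem_univ i)
  set f := N + k with hfdef
  set i0 := M f with hi0
  have hfin : (cnt M R i0 : ℝ) + cnt M V i0 * (n - 1) + n < 2 * n - 1 := by
    have hsub : (R ∪ V) ∪ {f} ⊆ C2 N k D1 D2 := by
      intro l hl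
      simp only [Finset.mem_union] at hl
      rcases hl with (hl | hl) | hl
      · have a2 := hRB hl
        have a4 : l ∉ D2 := Finset.disjoint_left.1 dRD hl
        simp only [C2, C1, hD1, Finset.mem_union, Finset.mem_sdiff]
        tauto
      · have a4 : l ∉ D2 := Finset.disjoint_right.1 dDV hl
        simp only [C2, C1, Finset.mem_union, Finset.mem_sdiff]
        left
        exact ⟨Or.inr hl, a4⟩
      · rw [Finset.mem_singleton] at hl
        unfold C2
        apply Finset.mem_union_right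
        rw [Finset.mem_Ico]
        omega
    have h1 := LD_mono hW (M := M) hsub i0
    have h2 := l2 i0
    have eF : LD W M {f} i0 = n := by
      unfold LD
      rw [Finset.sum_singleton, if_pos rfl]
      exact Wx2 (le_refl _)
    have dF : Disjoint (R ∪ V) {f} := by
      rw [Finset.disjoint_singleton_right]
      simp only [Finset.mem_union, not_or]
      refine ⟨fun h => ?_, fun h => ?_⟩
      · have := mem_B0.1 (hRB h); omega
      · have := Finset.mem_Ico.1 h; omega
    rw [LD_union dF, LD_union dRV, eR, eV, eF] at h1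
    linarith
  have h1 := hz1 i0
  have h2 := hRi i0
  rw [hRc i0] at h2
  split_ifs at h1 h2 with hi
  · rw [h1] at hfin
    have hr : (0 : ℝ) ≤ cnt M R i0 := Nat.cast_nonneg _
    push_cast at hfin
    linarith
  · rw [h1] at hfin
    have h3 : ((n - 1 : ℕ) : ℝ) ≤ cnt M R i0 := by exact_mod_cast h2
    rw [Nat.cast_sub (by omega)] at h3
    push_cast at hfin h3
    linarith

lemma good3 (x : Fin 3 → ℕ) (hs : ∑ i, x i = 3 * 3) (hx : ∀ i, x i ≤ 2 * 3 - 2) :
    (∀ i, 1 ≤ x i) ∨ (∃ q, ∀ i, i ≠ q → 3 ≤ x i) := by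
  left
  rw [Fin.sum_univ_three] at hs
  have h0 := hx 0
  have h1 := hx 1
  have h2 := hx 2
  intro i
  fin_cases i <;> simp <;> omega

lemma good4 (x : Fin 4 → ℕ) (hs : ∑ i, x i = 4 * 4) (hx : ∀ i, x i ≤ 2 * 4 - 2) :
    (∀ i, 1 ≤ x i) ∨ (∃ q, ∀ i, i ≠ q → 4 ≤ x i) := by
  rw [Fin.sum_univ_four] at hs
  have h0 := hx 0
  have h1 := hx 1
  have h2 := hx 2
  have h3 := hx 3
  by_cases h : ∀ i, 1 ≤ x i
  · exact Or.inl h
  · right
    push Not at h
    obtain ⟨q, hq⟩ := h
    refine ⟨q, fun i hi => ?_⟩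
    fin_cases q <;> fin_cases i <;> simp at hq hi ⊢ <;> omega

theorem lower_boundX (n : ℕ) (hn : 2 ≤ n)
    (hgood : ∀ x : Fin n → ℕ, ∑ i, x i = n * n → (∀ i, x i ≤ 2 * n - 2) →
      (∀ i, 1 ≤ x i) ∨ (∃ q, ∀ i, i ≠ q → n ≤ x i)) (R : RandAlg.{u} n) (c : ℝ)
    (hc : R.Competitive c) : 2 - 1 / (n : ℝ) ≤ c := by
  have hn0 : 0 < n := by omega
  have hn2 : (2 : ℝ) ≤ n := by exact_mod_cast hn
  have h := repeat_trick hn0 (n : ℝ) (2 * n - 1) (by linarith) (by linarith)
    (SX n (n * n) (n * n + n + 2)) (SX_finite n _ _) (fun s hs => hs.1)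
    (adversaryX hn rfl rfl hgood) R c hc
  have hpos : (0 : ℝ) < n := by linarith
  have h2 : 2 - 1 / (n : ℝ) = (2 * n - 1) / n := by field_simp
  rw [h2, div_le_iff₀ hpos]
  exact h

end Pool.Agent.Helper872.LoadBal
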