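import Mathlib
import Pool.Agent.Helper872.LoadBal.ExactAdv

universe u

namespace Pool.Agent.Helper872.LoadBal

variable {n : ℕ}

/-! ### scripts with single tasks -/

/-- departures, weight of the next task -/
abbrev Stg := Finset ℕ × ℕ

noncomputable def hst (N : ℕ) : List Stg → List Ev
  | [] => g0 N
  | (D, w) :: s => arrs (N + s.length) (w : ℝ) 1 ++ (deps D ++ hst N s)

def acv (N : ℕ) : List Stg → Finset ℕ
  | [] => B0 N
  | (D, _) :: s => (acv N s \ D) ∪ Finset.Ico (N + s.length) (N + s.length + 1)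

noncomputable def wgt (N : ℕ) : List Stg → ℕ → ℝ
  | [] => fun _ => 1
  | (_, w) :: s => fun l => if N + s.length ≤ l then (w : ℝ) else wgt N s l

lemma acv_lt {N : ℕ} : ∀ (s : List Stg) {l : ℕ}, l ∈ acv N s → l < N + s.length
  | [], l, h => by simpa using mem_B0.1 h
  | (D, w) :: s, l, h => by
    simp only [acv, Finset.mem_union, Finset.mem_sdiff, Finset.mem_Ico] at h
    rcases h with h | h
    · have := acv_lt s h.1
      simp only [List.length_cons]; omega
    · simp only [List.length_cons]; omega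

lemma wgt_nonneg (N : ℕ) : ∀ (s : List Stg) (l : ℕ), 0 ≤ wgt N s l
  | [], l => by simp [wgt]
  | (D, w) :: s, l => by
    simp only [wgt]
    split_ifs
    · exact Nat.cast_nonneg _
    · exact wgt_nonneg N s l

lemma wgt_cons_lt {N : ℕ} {s : List Stg} {D : Finset ℕ} {w l : ℕ} (h : l < N + s.length) :
    wgt N ((D, w) :: s) l = wgt N s l := by
  simp only [wgt]; rw [if_neg (by omega)]

lemma wgt_cons_eq {N : ℕ} {s : List Stg} {D : Finset ℕ} {w : ℕ} :
    wgt N ((D, w) :: s) (N + s.length) = w := by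
  simp only [wgt]; rw [if_pos (le_refl _)]

def okS (N : ℕ) : List Stg → Prop
  | [] => True
  | (D, w) :: s => okS N s ∧ D ⊆ acv N s ∧ 0 < w

lemma va_hst {N : ℕ} : ∀ s : List Stg, okS N s → VA (hst N s) (acv N s)
  | [], _ => va0 N
  | (D, w) :: s, h => by
    obtain ⟨h1, h2, h3⟩ := h
    have h4 : (0 : ℝ) < (w : ℝ) := by exact_mod_cast h3
    refine ((va_hst s h1).deps D h2).arrs (N + s.length) ?_ _ h4 1
    intro l hl
    exact acv_lt s (Finset.mem_sdiff.1 hl).1

def ldS (N : ℕ) (M : ℕ → Fin n) (P : ℝ) : List Stg → Prop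
  | [] => ∀ i, LD (wgt N []) M (B0 N) i ≤ P
  | (D, w) :: s => ldS N M P s ∧ ∀ i, LD (wgt N ((D, w) :: s)) M (acv N ((D, w) :: s)) i ≤ P

lemma ldS_last {N : ℕ} {M : ℕ → Fin n} {P : ℝ} (s : List Stg) (h : ldS N M P s) :
    ∀ i, LD (wgt N s) M (acv N s) i ≤ P := by
  cases s with
  | nil => exact h
  | cons x s => exact h.2

lemma OA.congr {W W' : ℕ → ℝ} {M : ℕ → Fin n} {P : ℝ} {h : List Ev} {A : Finset ℕ}
    (ho : OA W M P h A) (hW : ∀ l ∈ A, W' l = W l) : OA W' M P h A := by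
  obtain ⟨b, hb, hR, hc⟩ := ho
  exact ⟨b, hb, hR.congr2 (fun l hl => ⟨hW l hl, rfl⟩), hc⟩

lemma LD_congrW {W W' : ℕ → ℝ} {M : ℕ → Fin n} {A : Finset ℕ} (hW : ∀ l ∈ A, W' l = W l)
    (i : Fin n) : LD W' M A i = LD W M A i := by
  unfold LD
  apply Finset.sum_congr rfl
  intro l hl
  rw [hW l hl]

lemma oa_hst (hn : 0 < n) {N : ℕ} {M : ℕ → Fin n} {P : ℝ} (hP : 0 ≤ P) :
    ∀ s : List Stg, okS N s → ldS N M P s → OA (wgt N s) M P (hst N s) (acv N s)
  | [], _, h => oaA hn (wgt_nonneg N []) (fun l _ => by simp [wgt]) hP h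
  | (D, w) :: s, h, h' => by
    obtain ⟨h1, h2, h3⟩ := h
    have ho := oa_hst hn hP s h1 h'.1
    have hl := ldS_last s h'.1
    have hW : ∀ l ∈ acv N s, wgt N ((D, w) :: s) l = wgt N s l :=
      fun l hl => wgt_cons_lt (acv_lt s hl)
    have ho' : OA (wgt N ((D, w) :: s)) M P (hst N s) (acv N s) := ho.congr hW
    have hl' : ∀ i, LD (wgt N ((D, w) :: s)) M (acv N s) i ≤ P := by
      intro i; rw [LD_congrW hW i]; exact hl i
    refine (ho'.deps hn (wgt_nonneg N _) hl' D).arrs hn (wgt_nonneg N _) (N + s.length) ?_ _ 1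
      ?_ h'.2
    · intro l hl
      exact acv_lt s (Finset.mem_sdiff.1 hl).1
    · intro l h4 h5
      have : l = N + s.length := by omega
      rw [this]; exact wgt_cons_eq

lemma good_hst (hn : 0 < n) {N : ℕ} {M : ℕ → Fin n} {P : ℝ} (hP : 0 ≤ P) (s : List Stg)
    (h : okS N s) (h' : ldS N M P s) : Good n P (deps (acv N s) ++ hst N s) :=
  goodOf hn (wgt_nonneg N s) (va_hst s h) (oa_hst hn hP s h h') (ldS_last s h')

lemma step_hst (F : List Ev → Fin n) {N : ℕ} {M : ℕ → Fin n} (s : List Stg)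
    (hR : Rep (wgt N s) M (ann F (hst N s)) (acv N s)) (D : Finset ℕ) (w : ℕ) :
    ∃ M' : ℕ → Fin n, (∀ l < N + s.length, M' l = M l) ∧
      Rep (wgt N ((D, w) :: s)) M' (ann F (hst N ((D, w) :: s))) (acv N ((D, w) :: s)) := by
  have h0 : Rep (wgt N ((D, w) :: s)) M (ann F (hst N s)) (acv N s) :=
    hR.congr2 (fun l hl => ⟨wgt_cons_lt (acv_lt s hl), rfl⟩)
  have h1 := run_deps F _ _ _ M h0 D
  exact run_arrs F _ _ _ M h1 (N + s.length)
    (fun l hl => acv_lt s (Finset.mem_sdiff.1 hl).1) _ 1 (fun l h4 h5 => by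
      have : l = N + s.length := by omega
      rw [this]; exact wgt_cons_eq)

/-! ### strategy trees -/

/-- (name, weight, machine) -/
abbrev Itm := ℕ × ℕ × ℕ

inductive Tr
  | x
  | t (D : List ℕ) (w : ℕ) (off : List ℕ) (c0 c1 c2 c3 c4 : Tr)

def ldA (k : ℕ) : List Itm → ℕ
  | [] => 0
  | y :: A => (if y.2.2 = k then y.2.1 else 0) + ldA k A

def ldO (off : List ℕ) (k : ℕ) : List Itm → ℕ
  | [] => 0
  | y :: A => (if (off.getD y.1 0) % 5 = k then y.2.1 else 0) + ldO off k A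

def okSnap (P : ℕ) (off : List ℕ) (sn : List Itm) : Bool :=
  Nat.ble (ldO off 0 sn) P && Nat.ble (ldO off 1 sn) P && Nat.ble (ldO off 2 sn) P &&
    Nat.ble (ldO off 3 sn) P && Nat.ble (ldO off 4 sn) P

/-- the checker: `P` bound on the offline cost, `H` the load to be forced, `B` bound on names -/
def chk (P H B : ℕ) : ℕ → List Itm → List (List Itm) → Tr → Bool
  | _, _, _, Tr.x => false
  | lab, A, snaps, Tr.t D w off c0 c1 c2 c3 c4 =>
    let A' := A.filter (fun y => !(D.elem y.1))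
    let sn := ((lab, w, 0) : Itm) :: A'
    D.all (fun d => A.any (fun y => Nat.beq y.1 d)) && Nat.blt 0 w && Nat.ble w B &&
    Nat.blt lab B && okSnap P off sn && snaps.all (okSnap P off) &&
    (Nat.ble H (ldA 0 A' + w) || chk P H B (lab + 1) ((lab, w, 0) :: A') (sn :: snaps) c0) &&
    (Nat.ble H (ldA 1 A' + w) || chk P H B (lab + 1) ((lab, w, 1) :: A') (sn :: snaps) c1) &&
    (Nat.ble H (ldA 2 A' + w) || chk P H B (lab + 1) ((lab, w, 2) :: A') (sn :: snaps) c2) &&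
    (Nat.ble H (ldA 3 A' + w) || chk P H B (lab + 1) ((lab, w, 3) :: A') (sn :: snaps) c3) &&
    (Nat.ble H (ldA 4 A' + w) || chk P H B (lab + 1) ((lab, w, 4) :: A') (sn :: snaps) c4)

/-- items describing a set of tasks -/
def SN (ρ : ℕ → ℕ) (W : ℕ → ℝ) (B : Finset ℕ) (sn : List Itm) : Prop :=
  (sn.map Prod.fst).Nodup ∧ (∀ l, l ∈ B ↔ ∃ y ∈ sn, ρ y.1 = l) ∧ ∀ y ∈ sn, W (ρ y.1) = y.2.1

def SR (ρ : ℕ → ℕ) (N : ℕ) : List Stg → List (List Itm) → Prop
  | [], [sn] => SN ρ (wgt N []) (B0 N) sn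
  | (D, w) :: s, sn :: r => SR ρ N s r ∧ SN ρ (wgt N ((D, w) :: s)) (acv N ((D, w) :: s)) sn
  | _, _ => False

lemma sn_ld {ρ : ℕ → ℕ} (hρ : Function.Injective ρ) {W : ℕ → ℝ} {B : Finset ℕ} {sn : List Itm}
    (h : SN ρ W B sn) (M : ℕ → Fin n) (i : Fin n) :
    LD W M B i = (sn.map (fun y => if M (ρ y.1) = i then (y.2.1 : ℝ) else 0)).sum := by
  obtain ⟨h1, h2, h3⟩ := h
  have hB : B = (sn.map (fun y => ρ y.1)).toFinset := by
    ext l
    rw [h2 l]
    simp
  have hnd : (sn.map (fun y => ρ y.1)).Nodup := by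
    have : sn.map (fun y => ρ y.1) = (sn.map Prod.fst).map ρ := by simp
    rw [this]
    exact h1.map hρ
  unfold LD
  rw [hB, List.sum_toFinset _ hnd, List.map_map]
  congr 1
  apply List.map_congr_left
  intro y hy
  simp only [Function.comp]
  rw [h3 y hy]

lemma sum_ldA (A : List Itm) (k : ℕ) :
    (A.map (fun y => if y.2.2 = k then (y.2.1 : ℝ) else 0)).sum = (ldA k A : ℝ) := by
  induction A with
  | nil => simp [ldA]
  | cons y A ih =>
    simp only [List.map_cons, List.sum_cons, ih, ldA]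
    push_cast
    split_ifs <;> simp

lemma sum_ldO (off : List ℕ) (A : List Itm) (k : ℕ) :
    (A.map (fun y => if (off.getD y.1 0) % 5 = k then (y.2.1 : ℝ) else 0)).sum =
      (ldO off k A : ℝ) := by
  induction A with
  | nil => simp [ldO]
  | cons y A ih =>
    simp only [List.map_cons, List.sum_cons, ih, ldO]
    push_cast
    split_ifs <;> simp

end Pool.Agent.Helper872.LoadBal
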