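import Mathlib
import Pool.Agent.Helper872.LoadBal.Tree

namespace Pool.Agent.Helper872.LoadBal

/-- canonical machine of the unit `l` for machine counts `a b c d` (and the rest) -/
def gg (a b c d l : ℕ) : ℕ :=
  if l < a then 0 else if l < a + b then 1 else if l < a + b + c then 2 else
    if l < a + b + c + d then 3 else 4

def A0 (a b c d : ℕ) : List Itm := (List.range 25).map (fun l => (l, 1, gg a b c d l))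

def T0 : Tr :=
  (.t [8,16,24] 2 [0,0,0,1,1,1,1,1,0,2,2,2,2,2,3,3,0,3,3,3,4,4,4,4,4,0] (.t [6,7,14,15,22,23] 4 [0,0,0,1,2,2,1,1,0,2,2,2,3,3,1,1,0,3,3,3,4,4,4,4,4,0,1] (.t [0] 4 [2,0,0,0,1,2,1,1,0,3,3,3,3,3,1,1,0,4,4,4,4,4,2,2,2,0,1,2] .x (.t [5,13,21,25] 5 [2,1,2,3,3,0,1,1,0,3,3,3,4,0,1,1,0,4,4,4,4,0,2,2,2,0,1,2,0] .x .x .x .x .x) .x .x .x) (.t [26] 4 [0,0,0,1,2,2,1,1,0,2,2,2,3,3,1,1,0,3,3,3,4,4,4,4,4,0,1,1] (.t [0] 4 [2,0,0,0,1,2,1,1,0,3,3,3,3,3,1,1,0,4,4,4,4,4,2,2,2,0,1,1,2] .x (.t [5,13,21,25] 5 [2,1,2,3,3,0,1,1,0,3,3,3,4,0,1,1,0,4,4,4,4,0,2,2,2,0,1,1,2,0] .x .x .x .x .x) .x .x .x) (.t [25] 4 [0,1,2,2,2,2,0,0,0,2,3,3,3,3,1,1,0,3,4,4,4,4,1,1,4,0,1,1,0] (.t [0,5,13,21] 5 [2,0,1,3,3,2,0,0,0,3,3,3,4,2,1,1,0,4,4,4,4,2,1,1,2,0,1,1,0,2]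 .x .x .x .x .x) .x .x .x .x) .x .x .x) .x .x .x) (.t [0] 2 [0,0,1,1,1,1,1,2,0,2,2,2,2,3,3,3,0,3,3,4,4,4,4,4,0,0,0] (.t [6,7,14,15,22,23] 4 [0,0,1,2,2,2,1,1,0,2,2,3,3,3,1,1,0,3,3,4,4,4,4,4,0,0,0,1] (.t [25] 4 [1,0,1,1,1,2,0,0,0,3,3,3,3,3,2,2,0,4,4,4,4,4,2,2,1,0,1,2,0] .x (.t [5,13,21,26] 5 [1,0,2,3,3,1,0,0,0,3,3,3,4,1,2,2,0,4,4,4,4,1,2,2,1,0,1,2,0,1] .x .x .x .x .x) .x .x .x) (.t [26] 4 [1,0,0,0,1,2,1,1,0,3,3,3,3,3,2,2,0,4,4,4,4,4,2,2,1,0,1,2,1] (.t [5,13,21,25] 5 [1,1,2,3,3,0,1,1,0,3,3,3,4,0,2,2,0,4,4,4,4,0,2,2,1,0,1,2,1,0] .x .x .x .x .x) .x .x .x .x) .x .x .x) (.t [6,7,14,15,22,23] 4 [0,0,1,2,2,2,1,1,0,2,2,3,3,3,1,1,0,3,3,4,4,4,4,4,0,0,0,1] (.t [5,13,21] 5 [0,0,1,3,3,2,1,1,0,3,3,3,4,2,1,1,0,4,4,4,4,2,2,2,0,0,0,1,2]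 .x .x .x .x .x) (.t [26] 4 [1,0,0,0,1,2,1,1,0,3,3,3,3,3,2,2,0,4,4,4,4,4,2,2,1,0,1,2,1] (.t [5,13,21,25] 5 [1,1,2,3,3,0,1,1,0,3,3,3,4,0,2,2,0,4,4,4,4,0,2,2,1,0,1,2,1,0] .x .x .x .x .x) .x .x .x .x) .x .x .x) .x .x .x) .x .x .x)

lemma T0_ok : chk 5 9 40 25 (A0 0 1 8 8) [A0 0 1 8 8] T0 = true := by decide +kernel

def T1 : Tr :=
  (.t [16,24] 2 [0,0,0,1,1,1,1,1,2,2,2,2,2,3,3,3,0,3,3,4,4,4,4,4,0,0] (.t [7,8,14,15,22,23] 4 [0,0,0,1,2,2,2,1,1,2,2,3,3,3,1,1,0,3,3,4,4,4,4,4,0,0,1] (.t [0,1] 4 [2,2,0,0,0,1,2,1,1,3,3,3,3,3,1,1,0,4,4,4,4,4,2,2,0,0,1,2] .x (.t [6,13,21,25] 5 [2,2,1,2,3,3,0,1,1,3,3,3,4,0,1,1,0,4,4,4,4,0,2,2,0,0,1,2,0] .x .x .x .x .x) .x .x .x) (.t [25] 4 [0,1,2,2,2,2,2,0,0,3,3,3,3,3,1,1,0,4,4,4,4,4,1,1,0,0,1,0]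 (.t [0,1,6,13,21] 5 [2,2,0,1,3,3,2,0,0,3,3,3,4,2,1,1,0,4,4,4,4,2,1,1,0,0,1,0,2] .x .x .x .x .x) .x .x .x .x) .x .x .x) (.t [7,8,14,15,22,23] 4 [0,0,0,1,2,2,2,1,1,2,2,3,3,3,1,1,0,3,3,4,4,4,4,4,0,0,1] (.t [6,13,21] 5 [0,0,0,1,3,3,2,1,1,3,3,3,4,2,1,1,0,4,4,4,4,2,2,2,0,0,1,2] .x .x .x .x .x) (.t [25] 4 [0,1,2,2,2,2,2,0,0,3,3,3,3,3,1,1,0,4,4,4,4,4,1,1,0,0,1,0] (.t [0,1,6,13,21] 5 [2,2,0,1,3,3,2,0,0,3,3,3,4,2,1,1,0,4,4,4,4,2,1,1,0,0,1,0,2] .x .x .x .x .x) .x .x .x .x) .x .x .x) .x .x .x)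

lemma T1_ok : chk 5 9 40 25 (A0 0 2 7 8) [A0 0 2 7 8] T1 = true := by decide +kernel

def T2 : Tr :=
  (.t [16,24] 2 [0,0,0,1,1,1,1,1,2,2,2,2,2,3,3,3,0,3,3,4,4,4,4,4,0,0] (.t [8,14,15,22,23] 4 [0,0,0,1,2,2,2,2,1,2,3,3,3,3,1,1,0,3,4,4,4,4,1,4,0,0,1] (.t [0,1,2] 4 [2,2,2,0,0,0,1,2,1,3,3,3,3,3,1,1,0,4,4,4,4,4,1,2,0,0,1,2] .x (.t [7,13,21,25] 5 [2,2,2,1,2,3,3,0,1,3,3,3,4,0,1,1,0,4,4,4,4,0,1,2,0,0,1,2,0] .x .x .x .x .x) .x .x .x) (.t [26] 4 [0,0,0,1,2,2,2,2,1,2,3,3,3,3,1,1,0,3,4,4,4,4,1,4,0,0,1,1] (.t [0,1,2] 4 [2,2,2,0,0,0,1,2,1,3,3,3,3,3,1,1,0,4,4,4,4,4,1,2,0,0,1,1,2] .x (.t [7,13,21,25] 5 [2,2,2,1,2,3,3,0,1,3,3,3,4,0,1,1,0,4,4,4,4,0,1,2,0,0,1,1,2,0] .x .x .x .x .x) .x .x .x) (.t [2,25] 4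 [0,1,0,2,2,2,2,2,0,3,3,3,3,3,1,1,0,4,4,4,4,4,1,1,0,0,1,1,0] (.t [0,1,7,13,21] 5 [2,2,0,0,1,3,3,2,0,3,3,3,4,2,1,1,0,4,4,4,4,2,1,1,0,0,1,1,0,2] .x .x .x .x .x) .x .x .x .x) .x .x .x) .x .x .x) (.t [8,14,15,22,23] 4 [0,0,0,1,2,2,2,2,1,2,3,3,3,3,1,1,0,3,4,4,4,4,1,4,0,0,1] (.t [2,7,13,21] 5 [0,0,2,0,1,3,3,2,1,3,3,3,4,2,1,1,0,4,4,4,4,2,1,2,0,0,1,2] .x .x .x .x .x) .x .x .x .x) (.t [2,8] 2 [0,1,0,1,1,1,1,2,0,2,2,2,2,3,3,3,0,3,3,4,4,4,4,4,0,0,0] (.t [14,15,22,23,25] 4 [0,1,0,2,2,2,2,2,0,3,3,3,3,3,1,1,0,4,4,4,4,4,1,1,0,0,0,1] (.t [0,1] 4 [2,2,1,0,1,1,1,2,1,3,3,3,3,3,0,0,0,4,4,4,4,4,2,2,0,0,1,0,2] .x (.t [7,13,21,26] 5 [2,2,1,0,2,3,3,1,1,3,3,3,4,1,0,0,0,4,4,4,4,1,2,2,0,0,1,0,2,1] .x .x .x .x .x) .x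 .x .x) (.t [26] 4 [0,1,0,2,2,2,2,2,0,3,3,3,3,3,1,1,0,4,4,4,4,4,1,1,0,0,0,1,0] (.t [0,1,7,13,21] 5 [2,2,0,0,1,3,3,2,0,3,3,3,4,2,1,1,0,4,4,4,4,2,1,1,0,0,0,1,0,2] .x .x .x .x .x) .x .x .x .x) .x .x .x) (.t [14,15,22,23,25] 4 [0,1,0,2,2,2,2,2,0,3,3,3,3,3,1,1,0,4,4,4,4,4,1,1,0,0,0,1] (.t [7,13,21] 5 [0,1,1,1,1,3,3,2,1,3,3,3,4,2,0,0,0,4,4,4,4,2,2,2,0,0,1,0,2] .x .x .x .x .x) (.t [26] 4 [0,1,0,2,2,2,2,2,0,3,3,3,3,3,1,1,0,4,4,4,4,4,1,1,0,0,0,1,0] (.t [0,1,7,13,21] 5 [2,2,0,0,1,3,3,2,0,3,3,3,4,2,1,1,0,4,4,4,4,2,1,1,0,0,0,1,0,2] .x .x .x .x .x) .x .x .x .x) .x .x .x) .x .x .x) .x .x)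

lemma T2_ok : chk 5 9 40 25 (A0 0 3 6 8) [A0 0 3 6 8] T2 = true := by decide +kernel

def T3 : Tr :=
  (.t [2,24] 2 [0,0,0,0,1,1,1,1,1,2,2,2,2,2,3,3,3,3,3,4,4,4,4,4,0,0] (.t [8,9,15,16,22,23] 4 [0,0,0,0,1,2,2,2,1,1,2,2,3,3,3,1,1,3,3,4,4,4,4,4,0,0,1] (.t [0,1] 4 [2,2,0,0,0,0,1,2,1,1,3,3,3,3,3,1,1,4,4,4,4,4,2,2,0,0,1,2] .x (.t [7,14,21,25] 5 [2,2,0,1,2,3,3,0,1,1,3,3,3,4,0,1,1,4,4,4,4,0,2,2,0,0,1,2,0] .x .x .x .x .x) .x .x .x) (.t [25] 4 [0,1,0,2,2,2,2,2,0,0,3,3,3,3,3,1,1,4,4,4,4,4,1,1,0,0,1,0] (.t [0,1,7,14,21] 5 [2,2,0,0,1,3,3,2,0,0,3,3,3,4,2,1,1,4,4,4,4,2,1,1,0,0,1,0,2] .x .x .x .x .x) .x .x .x .x) .x .x .x) (.t [8,9,15,16,22,23] 4 [0,0,0,0,1,2,2,2,1,1,2,2,3,3,3,1,1,3,3,4,4,4,4,4,0,0,1]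 (.t [7,14,21] 5 [0,0,0,0,1,3,3,2,1,1,3,3,3,4,2,1,1,4,4,4,4,2,2,2,0,0,1,2] .x .x .x .x .x) (.t [25] 4 [0,1,0,2,2,2,2,2,0,0,3,3,3,3,3,1,1,4,4,4,4,4,1,1,0,0,1,0] (.t [0,1,7,14,21] 5 [2,2,0,0,1,3,3,2,0,0,3,3,3,4,2,1,1,4,4,4,4,2,1,1,0,0,1,0,2] .x .x .x .x .x) .x .x .x .x) .x .x .x) .x .x .x)

lemma T3_ok : chk 5 9 40 25 (A0 0 3 7 7) [A0 0 3 7 7] T3 = true := by decide +kernel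

def T4 : Tr :=
  (.t [14,15,16,22,23,24] 4 [0,1,1,1,1,1,2,2,2,2,2,3,3,3,0,0,0,3,3,4,4,4,0,4,4,0] (.t [8,13,21] 5 [0,2,2,2,2,2,3,3,1,3,3,3,4,1,0,0,0,4,4,4,4,1,0,1,1,0,1] .x .x .x .x .x) (.t [2,3] 4 [0,1,1,1,2,2,2,2,2,3,3,3,3,3,0,0,0,4,4,4,4,4,0,1,1,0,1] (.t [0,1,8,13,21] 5 [2,2,1,1,0,1,3,3,2,3,3,3,4,2,0,0,0,4,4,4,4,2,0,1,1,0,1,2] .x .x .x .x .x) .x .x .x .x) .x .x .x)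

lemma T4_ok : chk 5 9 40 25 (A0 0 4 5 8) [A0 0 4 5 8] T4 = true := by decide +kernel

def T5 : Tr :=
  (.t [9,15,16,22,23,24] 4 [0,1,1,1,1,1,2,2,2,0,2,2,3,3,3,0,0,3,3,4,4,4,0,4,4,0] (.t [8,14,21] 5 [0,2,2,2,2,2,3,3,1,0,3,3,3,4,1,0,0,4,4,4,4,1,0,1,1,0,1] .x .x .x .x .x) (.t [2,3] 4 [0,1,1,1,2,2,2,2,2,0,3,3,3,3,3,0,0,4,4,4,4,4,0,1,1,0,1] (.t [0,1,8,14,21] 5 [2,2,1,1,0,1,3,3,2,0,3,3,3,4,2,0,0,4,4,4,4,2,0,1,1,0,1,2] .x .x .x .x .x) .x .x .x .x) .x .x .x)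

lemma T5_ok : chk 5 9 40 25 (A0 0 4 6 7) [A0 0 4 6 7] T5 = true := by decide +kernel

def T6 : Tr :=
  (.t [9,10,16,17,23,24] 4 [0,1,1,1,1,1,2,2,2,0,0,2,2,3,3,3,0,0,3,3,4,4,4,4,4,0] (.t [8,15,22] 5 [0,2,2,2,2,2,3,3,1,0,0,3,3,3,4,1,0,0,4,4,4,4,1,1,1,0,1] .x .x .x .x .x) (.t [2,3] 4 [0,1,1,1,2,2,2,2,2,0,0,3,3,3,3,3,0,0,4,4,4,4,4,1,1,0,1] (.t [0,1,8,15,22] 5 [2,2,1,1,0,1,3,3,2,0,0,3,3,3,4,2,0,0,4,4,4,4,2,1,1,0,1,2] .x .x .x .x .x) .x .x .x .x) .x .x .x)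

lemma T6_ok : chk 5 9 40 25 (A0 0 4 7 7) [A0 0 4 7 7] T6 = true := by decide +kernel

end Pool.Agent.Helper872.LoadBal
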