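import Mathlib
import Pool.Agent.Helper872.LoadBal.Tree

universe u

namespace Pool.Agent.Helper872.LoadBal

/-- offline assignment from a list -/
noncomputable def Moff (ρ : ℕ → ℕ) (off : List ℕ) (l : ℕ) : Fin 5 :=
  ⟨(off.getD (Function.invFun ρ l) 0) % 5, Nat.mod_lt _ (by norm_num)⟩

lemma Moff_val {ρ : ℕ → ℕ} (hρ : Function.Injective ρ) (off : List ℕ) (a : ℕ) (i : Fin 5) :
    (Moff ρ off (ρ a) = i) ↔ (off.getD a 0) % 5 = i.val := by
  rw [Fin.ext_iff]
  change (off.getD (Function.invFun ρ (ρ a)) 0) % 5 = i.val ↔ _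
  rw [Function.leftInverse_invFun hρ a]

lemma sn_offld {ρ : ℕ → ℕ} (hρ : Function.Injective ρ) {W : ℕ → ℝ} {B : Finset ℕ}
    {sn : List Itm} (h : SN ρ W B sn) {P : ℕ} {off : List ℕ} (hok : okSnap P off sn = true)
    (i : Fin 5) : LD W (Moff ρ off) B i ≤ P := by
  rw [sn_ld hρ h]
  have h1 : (sn.map (fun y => if Moff ρ off (ρ y.1) = i then (y.2.1 : ℝ) else 0)) =
      (sn.map (fun y => if (off.getD y.1 0) % 5 = i.val then (y.2.1 : ℝ) else 0)) := by
    apply List.map_congr_left
    intro y _
    simp only [Moff_val hρ]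
  rw [h1, sum_ldO]
  unfold okSnap at hok
  simp only [Bool.and_eq_true, Nat.ble_eq] at hok
  obtain ⟨⟨⟨⟨g0, g1⟩, g2⟩, g3⟩, g4⟩ := hok
  have : ldO off i.val sn ≤ P := by
    fin_cases i
    · exact g0
    · exact g1
    · exact g2
    · exact g3
    · exact g4
  exact_mod_cast this

lemma sr_ldS {ρ : ℕ → ℕ} (hρ : Function.Injective ρ) {N P : ℕ} {off : List ℕ} :
    ∀ (s : List Stg) (snaps : List (List Itm)), SR ρ N s snaps →
      (∀ sn ∈ snaps, okSnap P off sn = true) → ldS N (Moff ρ off) (P : ℝ) s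
  | [], [sn], h, hok => fun i => sn_offld hρ h (hok sn (by simp)) i
  | (D, w) :: s, sn :: r, h, hok =>
    ⟨sr_ldS hρ s r h.1 (fun x hx => hok x (List.mem_cons_of_mem _ hx)),
      fun i => sn_offld hρ h.2 (hok sn (by simp)) i⟩
  | [], [], h, _ => by simp [SR] at h
  | [], _ :: _ :: _, h, _ => by simp [SR] at h
  | _ :: _, [], h, _ => by simp [SR] at h

/-- the finite family of scripts -/
def ST (N P B : ℕ) : Set (List Ev) :=
  {x | Good 5 P x ∧ ∃ s : List Stg, s.length ≤ B ∧
    (∀ y ∈ s, y.1 ⊆ Finset.range B ∧ y.2 ≤ B) ∧ x = deps (acv N s) ++ hst N s}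

lemma lists_finite (B k : ℕ) :
    {s : List Stg | s.length ≤ k ∧ ∀ y ∈ s, y.1 ⊆ Finset.range B ∧ y.2 ≤ B}.Finite := by
  induction k with
  | zero =>
    refine (Set.finite_singleton ([] : List Stg)).subset ?_
    rintro s ⟨hs, -⟩
    simpa using hs
  | succ k ih =>
    have hT : {y : Stg | y.1 ⊆ Finset.range B ∧ y.2 ≤ B}.Finite := by
      refine (Finset.finite_toSet ((Finset.range B).powerset ×ˢ Finset.range (B + 1))).subset ?_
      rintro y ⟨h1, h2⟩
      simp only [Finset.coe_product, Set.mem_prod, Finset.mem_coe, Finset.mem_powerset,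
        Finset.mem_range]
      exact ⟨h1, by omega⟩
    refine ((Set.finite_singleton ([] : List Stg)).union (Set.Finite.image2 List.cons hT ih)).subset ?_
    rintro s ⟨hs, hs2⟩
    cases s with
    | nil => left; rfl
    | cons y s =>
      right
      refine ⟨y, hs2 y (by simp), s, ⟨?_, fun z hz => hs2 z (by simp [hz])⟩, rfl⟩
      simp only [List.length_cons] at hs
      omega

lemma ST_finite (N P B : ℕ) : (ST N P B).Finite := by
  refine ((lists_finite B B).image (fun s => deps (acv N s) ++ hst N s)).subset ?_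
  rintro x ⟨-, s, h1, h2, rfl⟩
  exact ⟨s, ⟨h1, h2⟩, rfl⟩

lemma ldA_cons_self (k lab w : ℕ) (A : List Itm) : ldA k ((lab, w, k) :: A) = w + ldA k A := by
  simp [ldA]

theorem chk_sound {N B P H : ℕ} (F : List Ev → Fin 5) (ρ : ℕ → ℕ) (hρ : Function.Injective ρ)
    (hρN : ∀ l, N ≤ l → ρ l = l) (σ : Fin 5 → ℕ) (hσ : Function.Injective σ)
    (hσ5 : ∀ m, σ m < 5) (hF : ∀ x ∈ ST N P B, cost (ann F x) < H) :
    ∀ (T : Tr) (s : List Stg) (M : ℕ → Fin 5) (A : List Itm) (snaps : List (List Itm)),
      Rep (wgt N s) M (ann F (hst N s)) (acv N s) → okS N s →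
      (∀ y ∈ s, y.1 ⊆ Finset.range B ∧ y.2 ≤ B) →
      SN ρ (wgt N s) (acv N s) A → (∀ y ∈ A, y.2.2 = σ (M (ρ y.1))) → SR ρ N s snaps →
      chk P H B (N + s.length) A snaps T = true → False := by
  intro T
  induction T with
  | x => intro s M A snaps _ _ _ _ _ _ h; simp [chk] at h
  | t D w off c0 c1 c2 c3 c4 i0 i1 i2 i3 i4 =>
    intro s M A snaps hR hok hsb hSN hμ hSR h
    unfold chk at h
    simp only [Bool.and_eq_true, Bool.or_eq_true, List.all_eq_true, Nat.ble_eq, Nat.blt_eq] at h
    set A' := A.filter (fun y => !(D.elem y.1)) with hA'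
    obtain ⟨⟨⟨⟨⟨⟨⟨⟨⟨⟨hD, hw0⟩, hwB⟩, hlab⟩, hsn⟩, hsnaps⟩, k0⟩, k1⟩, k2⟩, k3⟩, k4⟩ := h
    obtain ⟨hnd, hmem, hwt⟩ := hSN
    have hlt : ∀ y ∈ A, ρ y.1 < N + s.length := fun y hy =>
      acv_lt s ((hmem (ρ y.1)).2 ⟨y, hy, rfl⟩)
    obtain ⟨D', hD'⟩ : ∃ D' : Finset ℕ, D' = (D.map ρ).toFinset := ⟨_, rfl⟩
    have hD's : D' ⊆ acv N s := by
      intro l hl
      rw [hD', List.mem_toFinset, List.mem_map] at hl
      obtain ⟨d, hd, rfl⟩ := hl
      have h1 := hD d hd
      rw [List.any_eq_true] at h1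
      obtain ⟨y, hy, hy2⟩ := h1
      rw [Nat.beq_eq] at hy2
      exact (hmem _).2 ⟨y, hy, by rw [hy2]⟩
    have hmemA' : ∀ y, y ∈ A' ↔ y ∈ A ∧ y.1 ∉ D := by
      intro y
      rw [hA', List.mem_filter]
      simp
    have hSNk : ∀ k : ℕ, SN ρ (wgt N ((D', w) :: s)) (acv N ((D', w) :: s))
        ((N + s.length, w, k) :: A') := by
      intro k
      refine ⟨?_, ?_, ?_⟩
      · rw [List.map_cons, List.nodup_cons]
        refine ⟨?_, ?_⟩
        · intro hm
          rw [List.mem_map] at hm
          obtain ⟨y, hy, hye⟩ := hm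
          have h1 := hlt y ((hmemA' y).1 hy).1
          rw [hye, hρN _ (by omega)] at h1
          omega
        · rw [hA']
          exact hnd.sublist (List.Sublist.map _ List.filter_sublist)
      · intro l
        simp only [acv, Finset.mem_union, Finset.mem_sdiff, Finset.mem_Ico, List.mem_cons]
        constructor
        · rintro (⟨h1, h2⟩ | h1)
          · obtain ⟨y, hy, hyl⟩ := (hmem l).1 h1
            refine ⟨y, Or.inr ((hmemA' y).2 ⟨hy, ?_⟩), hyl⟩
            intro hyD
            apply h2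
            rw [hD', List.mem_toFinset, List.mem_map]
            exact ⟨y.1, hyD, hyl⟩
          · refine ⟨(N + s.length, w, k), Or.inl rfl, ?_⟩
            simp only
            rw [hρN _ (by omega)]; omega
        · rintro ⟨y, hy | hy, hyl⟩
          · right
            rw [hy] at hyl
            simp only at hyl
            rw [hρN _ (by omega)] at hyl
            omega
          · left
            obtain ⟨h1, h2⟩ := (hmemA' y).1 hy
            refine ⟨(hmem l).2 ⟨y, h1, hyl⟩, ?_⟩
            intro h3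
            rw [hD', List.mem_toFinset, List.mem_map] at h3
            obtain ⟨d, hd, hdl⟩ := h3
            have : d = y.1 := hρ (by rw [hdl, hyl])
            rw [this] at hd
            exact h2 hd
      · intro y hy
        rw [List.mem_cons] at hy
        rcases hy with rfl | hy
        · simp only
          rw [hρN _ (by omega)]
          exact wgt_cons_eq
        · have h1 := ((hmemA' y).1 hy).1
          rw [wgt_cons_lt (hlt y h1)]
          exact hwt y h1
    have hok' : okS N ((D', w) :: s) := ⟨hok, hD's, hw0⟩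
    have hSR' : SR ρ N ((D', w) :: s) (((N + s.length, w, 0) :: A') :: snaps) :=
      ⟨hSR, hSNk 0⟩
    have hld : ldS N (Moff ρ off) (P : ℝ) ((D', w) :: s) := by
      apply sr_ldS hρ _ _ hSR'
      intro sn hsn'
      rw [List.mem_cons] at hsn'
      rcases hsn' with rfl | hsn'
      · exact hsn
      · exact hsnaps sn hsn'
    have hgood := good_hst (by norm_num) (Nat.cast_nonneg P) ((D', w) :: s) hok' hld
    have hsb' : ∀ y ∈ ((D', w) :: s), y.1 ⊆ Finset.range B ∧ y.2 ≤ B := by
      intro y hy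
      rw [List.mem_cons] at hy
      rcases hy with rfl | hy
      · refine ⟨fun l hl => ?_, hwB⟩
        have := acv_lt s (hD's hl)
        rw [Finset.mem_range]; omega
      · exact hsb y hy
    have hcost := hF (deps (acv N ((D', w) :: s)) ++ hst N ((D', w) :: s))
      ⟨hgood, (D', w) :: s, by simp only [List.length_cons]; omega, hsb', rfl⟩
    obtain ⟨M', hM', hR'⟩ := step_hst F s hR D' w
    have hld' := LD_lt_of hR' hcost (M' (N + s.length))
    have hμ' : ∀ y ∈ ((N + s.length, w, σ (M' (N + s.length))) :: A'),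
        y.2.2 = σ (M' (ρ y.1)) := by
      intro y hy
      rw [List.mem_cons] at hy
      rcases hy with rfl | hy
      · simp only
        rw [hρN _ (by omega)]
      · have h1 := ((hmemA' y).1 hy).1
        rw [hM' _ (hlt y h1)]
        exact hμ y h1
    rw [sn_ld hρ (hSNk (σ (M' (N + s.length))))] at hld'
    have h1 : (((N + s.length, w, σ (M' (N + s.length))) :: A').map
        (fun y => if M' (ρ y.1) = M' (N + s.length) then (y.2.1 : ℝ) else 0)) =
        (((N + s.length, w, σ (M' (N + s.length))) :: A').map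
        (fun y => if y.2.2 = σ (M' (N + s.length)) then (y.2.1 : ℝ) else 0)) := by
      apply List.map_congr_left
      intro y hy
      have h2 := hμ' y hy
      have h3 : (M' (ρ y.1) = M' (N + s.length)) ↔ (y.2.2 = σ (M' (N + s.length))) := by
        rw [h2]
        exact ⟨fun h => by rw [h], fun h => hσ h⟩
      simp only [h3]
    rw [h1, sum_ldA, ldA_cons_self] at hld'
    have hlt' : w + ldA (σ (M' (N + s.length))) A' < H := by exact_mod_cast hld'
    have hk := hσ5 (M' (N + s.length))
    have hlen : N + s.length + 1 = N + ((D', w) :: s).length := by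
      simp only [List.length_cons]; omega
    rw [hlen] at k0 k1 k2 k3 k4
    generalize hkk : σ (M' (N + s.length)) = k at *
    interval_cases k
    · rcases k0 with h | h
      · omega
      · exact i0 _ M' _ _ hR' hok' hsb' (hSNk 0) hμ' hSR' h
    · rcases k1 with h | h
      · omega
      · exact i1 _ M' _ _ hR' hok' hsb' (hSNk 1) hμ' hSR' h
    · rcases k2 with h | h
      · omega
      · exact i2 _ M' _ _ hR' hok' hsb' (hSNk 2) hμ' hSR' h
    · rcases k3 with h | h
      · omega
      · exact i3 _ M' _ _ hR' hok' hsb' (hSNk 3) hμ' hSR' h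
    · rcases k4 with h | h
      · omega
      · exact i4 _ M' _ _ hR' hok' hsb' (hSNk 4) hμ' hSR' h

end Pool.Agent.Helper872.LoadBal
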