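import Mathlib
import Pool.Agent.Helper872.LoadBal.TreeSound
import Pool.Agent.Helper872.LoadBal.Data5

universe u

namespace Pool.Agent.Helper872.LoadBal

variable {n : ℕ}

theorem adversaryXG {N B : ℕ} (hn : 2 ≤ n) (hN : N = n * n) (hB : B = N + n + 2)
    (F : List Ev → Fin n) (M0 : ℕ → Fin n)
    (hM0 : Rep (Wt 0 N 0 0) M0 (ann F (g0 N)) (B0 N))
    (hgood : (∀ i, 1 ≤ cnt M0 (B0 N) i) ∨ (∃ q, ∀ i, i ≠ q → n ≤ cnt M0 (B0 N) i)) :
    ∃ s ∈ SX n N B, (2 * n - 1 : ℝ) ≤ cost (ann F s) := by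
  classical
  have hn2 : (2 : ℝ) ≤ n := by exact_mod_cast hn
  have hn0 : 0 < n := by omega
  by_contra hcon
  push Not at hcon
  have hB0B : B0 N ⊆ Finset.range B := by
    intro l hl
    have := mem_B0.1 hl
    rw [Finset.mem_range]; omega
  have c0 : cost (ann F (deps (B0 N) ++ g0 N)) < 2 * n - 1 := by
    apply hcon
    refine ⟨(good_x (k := 0) hn (by omega) hN ∅ ∅ (by simp) (by simp) (by simp) (by simp)
      (by simp)).1, 0, 0, B0 N, ∅, ∅, by omega, by omega, hB0B, by simp, by simp, ?_⟩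
    simp [scx]
  have l0 := LD_lt_of hM0 c0
  have eU : ∀ i, LD (Wt 0 N 0 0) M0 (B0 N) i = (cnt M0 (B0 N) i : ℝ) * 1 :=
    LD_const (fun l hl => Wt0 (mem_B0.1 hl))
  obtain ⟨x, hxdef⟩ : ∃ x : Fin n → ℕ, x = fun i => cnt M0 (B0 N) i := ⟨_, rfl⟩
  have hxi : ∀ i, x i = cnt M0 (B0 N) i := fun i => by rw [hxdef]
  have hx : ∀ i, x i ≤ 2 * n - 2 := by
    intro i
    have h1 := l0 i
    rw [eU i, mul_one, ← hxi i] at h1
    have h2 : ((x i + 1 : ℕ) : ℝ) < ((2 * n : ℕ) : ℝ) := by push_cast; linarith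
    have h3 : x i + 1 < 2 * n := by exact_mod_cast h2
    omega
  have hsum : ∑ i, x i = n * n := by
    rw [hxdef, sum_cnt]; simp [B0, hN]
  have hch : ∀ i, ∃ (U Rf : Finset ℕ), (∀ l ∈ U, l ∈ B0 N ∧ M0 l = i) ∧
      (∀ l ∈ Rf, l ∈ B0 N ∧ M0 l = i) ∧ Disjoint U Rf ∧ U.card = min (x i) 1 ∧
      Rf.card = if x i < n then 0 else n - 1 := by
    intro i
    have h1 : min (x i) 1 + (if x i < n then 0 else n - 1) ≤
        ((B0 N).filter (fun l => M0 l = i)).card := by
      change _ ≤ cnt M0 (B0 N) i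
      rw [← hxi i]
      split_ifs <;> omega
    obtain ⟨K, hK, hKc⟩ := Finset.exists_subset_card_eq h1
    obtain ⟨U, hU, hUc⟩ := Finset.exists_subset_card_eq
      (by rw [hKc]; exact Nat.le_add_right _ _ : min (x i) 1 ≤ K.card)
    refine ⟨U, K \ U, fun l hl => Finset.mem_filter.1 (hK (hU hl)),
      fun l hl => Finset.mem_filter.1 (hK (Finset.mem_sdiff.1 hl).1), Finset.disjoint_sdiff,
      hUc, ?_⟩
    rw [Finset.card_sdiff_of_subset hU, hKc, hUc]
    omega
  choose U Rf hU hRf hd hUc hRc using hch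
  set S := Finset.univ.filter (fun i => ¬ x i < n) with hS
  set L := Finset.univ.filter (fun i => x i < n) with hL
  have hSL : L.card + S.card = n := by
    rw [hS, hL, Finset.card_filter_add_card_filter_not]
    simp
  obtain ⟨k, hk⟩ : ∃ k, k = L.card := ⟨_, rfl⟩
  have hS1 : 1 ≤ S.card := by
    by_contra hne
    have h1 : ∀ i, x i ≤ n - 1 := by
      intro i
      by_contra h2
      have h3 : i ∈ S := by
        rw [hS, Finset.mem_filter]
        exact ⟨Finset.mem_univ _, by omega⟩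
      have := Finset.card_pos.2 ⟨i, h3⟩
      omega
    have h2 : ∑ i, x i ≤ ∑ _i : Fin n, (n - 1) := Finset.sum_le_sum (fun i _ => h1 i)
    rw [hsum] at h2
    simp only [Finset.sum_const, Finset.card_univ, Fintype.card_fin, smul_eq_mul] at h2
    have h3 : n * (n - 1) < n * n := Nat.mul_lt_mul_of_pos_left (by omega) hn0
    omega
  have hk1 : k + 1 ≤ n := by omega
  set R := Finset.univ.biUnion Rf with hR
  set D2 := Finset.univ.biUnion U with hD2
  have hmemR : ∀ l ∈ R, ∃ i, l ∈ Rf i := by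
    intro l hl
    rw [hR, Finset.mem_biUnion] at hl
    obtain ⟨i, -, h⟩ := hl
    exact ⟨i, h⟩
  have hmemD : ∀ l ∈ D2, ∃ i, l ∈ U i := by
    intro l hl
    rw [hD2, Finset.mem_biUnion] at hl
    obtain ⟨i, -, h⟩ := hl
    exact ⟨i, h⟩
  have hRB : R ⊆ B0 N := fun l hl => by
    obtain ⟨i, h⟩ := hmemR l hl
    exact (hRf i l h).1
  have hDB : D2 ⊆ B0 N := fun l hl => by
    obtain ⟨i, h⟩ := hmemD l hl
    exact (hU i l h).1
  have dRD : Disjoint R D2 := by
    rw [Finset.disjoint_left]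
    intro l hl hl2
    obtain ⟨i, h⟩ := hmemR l hl
    obtain ⟨k, h'⟩ := hmemD l hl2
    have h3 : i = k := by rw [← (hRf i l h).2, (hU k l h').2]
    subst h3
    exact Finset.disjoint_left.1 (hd i) h' h
  have cR : R.card ≤ (n - k) * (n - 1) := by
    have h1 : R.card ≤ ∑ i, (Rf i).card := Finset.card_biUnion_le
    have h2 : ∑ i, (Rf i).card = S.card * (n - 1) := by
      rw [hS, Finset.card_filter, Finset.sum_mul]
      apply Finset.sum_congr rfl
      intro i _
      rw [hRc i]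
      split_ifs <;> simp_all
    have h3 : S.card = n - k := by omega
    rw [← h3, ← h2]; exact h1
  have cD : D2.card ≤ n := by
    have h1 : D2.card ≤ ∑ i, (U i).card := Finset.card_biUnion_le
    have h2 : ∑ i, (U i).card ≤ ∑ _i : Fin n, 1 := by
      apply Finset.sum_le_sum
      intro i _
      rw [hUc i]; omega
    simp only [Finset.sum_const, Finset.card_univ, Fintype.card_fin, smul_eq_mul, mul_one] at h2
    omega
  set D1 := B0 N \ (R ∪ D2) with hD1
  have c2 : cost (ann F (deps (C2 N k D1 D2) ++ h2 n N k D1 D2)) < 2 * n - 1 := by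
    apply hcon
    refine ⟨(good_x hn hk1 hN R D2 hRB hDB dRD cR cD).2, 1, k, C2 N k D1 D2, D1, D2, by omega,
      by omega, ?_, Finset.sdiff_subset.trans hB0B, hDB.trans hB0B, ?_⟩
    · intro l hl
      rw [Finset.mem_range]
      simp only [C2, Finset.mem_union, Finset.mem_sdiff, Finset.mem_Ico] at hl
      rcases hl with hl | hl
      · have := C1_lt hl.1; omega
      · omega
    · simp [scx]
  have hM0' : Rep (Wx n N k) M0 (ann F (g0 N)) (B0 N) :=
    hM0.congr2 (fun l hl => ⟨by rw [Wt0 (mem_B0.1 hl), Wx0 (mem_B0.1 hl)], rfl⟩)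
  obtain ⟨M, hMe, hM1, hM2⟩ := repx F D1 D2 hM0'
  have c1 : cost (ann F ((deps (C2 N k D1 D2) ++
      (arrs (N + k) (n : ℝ) 1 ++ deps D2)) ++ h1 n N k D1)) < 2 * n - 1 := by
    have : (deps (C2 N k D1 D2) ++ (arrs (N + k) (n : ℝ) 1 ++ deps D2)) ++ h1 n N k D1 =
      deps (C2 N k D1 D2) ++ h2 n N k D1 D2 := by
      unfold h2
      simp only [List.append_assoc]
    rw [this]
    exact c2
  have l1 := LD_lt_of hM1 c1
  have l2 := LD_lt_of hM2 c2
  set W := Wx n N k with hWdef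
  have hW : ∀ l, 0 ≤ W l := Wx_nonneg n N k hn
  set V := Finset.Ico N (N + k) with hV
  have eR : ∀ i, LD W M R i = (cnt M R i : ℝ) * 1 :=
    LD_const (fun l hl => Wx0 (mem_B0.1 (hRB hl)))
  have e2 : ∀ i, LD W M D2 i = (cnt M D2 i : ℝ) * 1 :=
    LD_const (fun l hl => Wx0 (mem_B0.1 (hDB hl)))
  have eV : ∀ i, LD W M V i = (cnt M V i : ℝ) * (n - 1) :=
    LD_const (fun l hl => Wx1 (Finset.mem_Ico.1 hl).1 (Finset.mem_Ico.1 hl).2)
  have dRV : Disjoint R V := by
    rw [Finset.disjoint_left]; intro l h1 h2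
    have := mem_B0.1 (hRB h1); have := Finset.mem_Ico.1 h2; omega
  have dDV : Disjoint D2 V := by
    rw [Finset.disjoint_left]; intro l h1 h2
    have := mem_B0.1 (hDB h1); have := Finset.mem_Ico.1 h2; omega
  have hRi : ∀ i, (Rf i).card ≤ cnt M R i := by
    intro i
    apply cnt_ge
    · intro l hl
      rw [hR, Finset.mem_biUnion]; exact ⟨i, Finset.mem_univ _, hl⟩
    · intro l hl
      rw [hMe l (mem_B0.1 (hRf i l hl).1)]
      exact (hRf i l hl).2
  have hUi : ∀ i, (U i).card ≤ cnt M D2 i := by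
    intro i
    apply cnt_ge
    · intro l hl
      rw [hD2, Finset.mem_biUnion]; exact ⟨i, Finset.mem_univ _, hl⟩
    · intro l hl
      rw [hMe l (mem_B0.1 (hU i l hl).1)]
      exact (hU i l hl).2
  have hm1 : ∀ i, (cnt M R i : ℝ) + cnt M D2 i + cnt M V i * (n - 1) < 2 * n - 1 := by
    intro i
    have hsub : (R ∪ D2) ∪ V ⊆ C1 N k D1 := by
      intro l hl
      simp only [Finset.mem_union] at hl
      rcases hl with (hl | hl) | hl
      · have a2 := hRB hl
        simp only [C1, hD1, Finset.mem_union, Finset.mem_sdiff]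
        tauto
      · have a2 := hDB hl
        simp only [C1, hD1, Finset.mem_union, Finset.mem_sdiff]
        tauto
      · unfold C1
        exact Finset.mem_union_right _ hl
    have h1 := LD_mono hW (M := M) hsub i
    have h2 := l1 i
    rw [LD_union (by rw [Finset.disjoint_union_left]; exact ⟨dRV, dDV⟩), LD_union dRD,
      eR, e2, eV] at h1
    linarith
  have hsumV : ∑ i, cnt M V i = k := by rw [sum_cnt, hV, Nat.card_Ico]; omega
  have hz : ∀ i, cnt M V i ≤ if x i < n then 1 else 0 := by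
    intro i
    have h0 := hm1 i
    have h1 := hRi i
    have h2 := hUi i
    rw [hRc i] at h1
    rw [hUc i] at h2
    split_ifs with hi
    · by_contra hne
      have h4 : (2 : ℝ) ≤ cnt M V i := by exact_mod_cast (by omega : 2 ≤ cnt M V i)
      rcases hgood with hg | ⟨q, hq⟩
      · have h5 := hg i
        rw [← hxi i] at h5
        have h6 : 1 ≤ cnt M D2 i := by omega
        have h7 : (1 : ℝ) ≤ cnt M D2 i := by exact_mod_cast h6
        have h8 : (0 : ℝ) ≤ cnt M R i := Nat.cast_nonneg _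
        nlinarith
      · -- `k ≤ 1`
        have h5 : L ⊆ {q} := by
          intro y hy
          rw [hL, Finset.mem_filter] at hy
          rw [Finset.mem_singleton]
          by_contra hyq
          have := hq y hyq
          have := hxi y
          omega
        have h6 := Finset.card_le_card h5
        rw [Finset.card_singleton] at h6
        have h7 : cnt M V i ≤ ∑ i, cnt M V i :=
          Finset.single_le_sum (f := fun i => cnt M V i) (fun _ _ => Nat.zero_le _)
            (Finset.mem_univ i)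
        omega
    · by_contra hne
      have h4 : (1 : ℝ) ≤ cnt M V i := by exact_mod_cast (by omega : 1 ≤ cnt M V i)
      rw [if_neg hi] at h1
      have h5 : n ≤ cnt M R i + cnt M D2 i := by omega
      have h6 : (n : ℝ) ≤ cnt M R i + cnt M D2 i := by exact_mod_cast h5
      nlinarith
  have hz1 : ∀ i, cnt M V i = if x i < n then 1 else 0 := by
    have h1 : ∑ i : Fin n, cnt M V i = ∑ i : Fin n, (if x i < n then 1 else 0) := by
      rw [hsumV, hk, hL, Finset.card_filter]
    have h2 := (Finset.sum_eq_sum_iff_of_le (fun i _ => hz i)).1 h1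
    exact fun i => h2 i (Finset.mem_univ i)
  set f := N + k with hfdef
  set i0 := M f with hi0
  have hfin : (cnt M R i0 : ℝ) + cnt M V i0 * (n - 1) + n < 2 * n - 1 := by
    have hsub : (R ∪ V) ∪ {f} ⊆ C2 N k D1 D2 := by
      intro l hl
      simp only [Finset.mem_union] at hl
      rcases hl with (hl | hl) | hl
      · have a2 := hRB hl
        have a4 : l ∉ D2 := Finset.disjoint_left.1 dRD hl
        simp only [C2, C1, hD1, Finset.mem_union, Finset.mem_sdiff]
        tauto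
      · have a4 : l ∉ D2 := Finset.disjoint_right.1 dDV hl
        simp only [C2, C1, Finset.mem_union, Finset.mem_sdiff]
        left
        exact ⟨Or.inr hl, a4⟩
      · rw [Finset.mem_singleton] at hl
        unfold C2
        apply Finset.mem_union_right
        rw [Finset.mem_Ico]
        omega
    have h1 := LD_mono hW (M := M) hsub i0
    have h2 := l2 i0
    have eF : LD W M {f} i0 = n := by
      unfold LD
      rw [Finset.sum_singleton, if_pos rfl]
      exact Wx2 (le_refl _)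
    have dF : Disjoint (R ∪ V) {f} := by
      rw [Finset.disjoint_singleton_right]
      simp only [Finset.mem_union, not_or]
      refine ⟨fun h => ?_, fun h => ?_⟩
      · have := mem_B0.1 (hRB h); omega
      · have := Finset.mem_Ico.1 h; omega
    rw [LD_union dF, LD_union dRV, eR, eV, eF] at h1
    linarith
  have h1 := hz1 i0
  have h2 := hRi i0
  rw [hRc i0] at h2
  split_ifs at h1 h2 with hi
  · rw [h1] at hfin
    have hr : (0 : ℝ) ≤ cnt M R i0 := Nat.cast_nonneg _
    push_cast at hfin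
    linarith
  · rw [h1] at hfin
    have h3 : ((n - 1 : ℕ) : ℝ) ≤ cnt M R i0 := by exact_mod_cast h2
    rw [Nat.cast_sub (by omega)] at h3
    push_cast at hfin h3
    linarith

lemma cnt_fin (M0 : ℕ → Fin n) (N : ℕ) (i : Fin n) :
    (Finset.univ.filter (fun l : Fin N => M0 l.val = i)).card = cnt M0 (B0 N) i := by
  unfold cnt
  rw [← Finset.card_map Fin.valEmbedding]
  congr 1
  ext l
  simp only [Finset.mem_map, Finset.mem_filter, Finset.mem_univ, true_and, Fin.valEmbedding_apply,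
    mem_B0]
  constructor
  · rintro ⟨a, h1, rfl⟩
    exact ⟨a.isLt, h1⟩
  · rintro ⟨h1, h2⟩
    exact ⟨⟨l, h1⟩, h2, rfl⟩

theorem tree_case (a b c d : ℕ) (y : Fin 5 → ℕ) (T : Tr)
    (hT : chk 5 9 40 25 (A0 a b c d) [A0 a b c d] T = true)
    (hlt : ∀ l : Fin 25, gg a b c d l < 5)
    (hcnt : ∀ k : Fin 5, (Finset.univ.filter (fun l : Fin 25 => gg a b c d l = k.val)).card = y k)
    (F : List Ev → Fin 5) (hF : ∀ x ∈ ST 25 5 40, cost (ann F x) < (9 : ℕ))
    (M0 : ℕ → Fin 5) (hM0 : Rep (Wt 0 25 0 0) M0 (ann F (g0 25)) (B0 25))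
    (τ : Equiv.Perm (Fin 5)) (hx : ∀ k, cnt M0 (B0 25) (τ k) = y k) : False := by
  classical
  let f : Fin 25 → Fin 5 := fun l => τ.symm (M0 l.val)
  let g : Fin 25 → Fin 5 := fun l => ⟨gg a b c d l, hlt l⟩
  have hcard : ∀ k : Fin 5, Fintype.card {l // g l = k} = Fintype.card {l // f l = k} := by
    intro k
    rw [Fintype.card_subtype, Fintype.card_subtype]
    have h1 : (Finset.univ.filter (fun l : Fin 25 => g l = k)) =
        (Finset.univ.filter (fun l : Fin 25 => gg a b c d l = k.val)) := by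
      apply Finset.filter_congr
      intro l _
      exact Fin.ext_iff
    have h2 : (Finset.univ.filter (fun l : Fin 25 => f l = k)) =
        (Finset.univ.filter (fun l : Fin 25 => M0 l.val = τ k)) := by
      apply Finset.filter_congr
      intro l _
      exact Equiv.symm_apply_eq τ
    rw [h1, h2, hcnt k, cnt_fin, hx k]
  let e : Fin 25 ≃ Fin 25 :=
    Equiv.ofFiberEquiv (f := g) (g := f) (fun k => Fintype.equivOfCardEq (hcard k))
  have he : ∀ l, f (e l) = g l := fun l =>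
    Equiv.ofFiberEquiv_map (f := g) (g := f) (fun k => Fintype.equivOfCardEq (hcard k)) l
  let ρ : ℕ → ℕ := fun l => if h : l < 25 then (e ⟨l, h⟩).val else l
  have hρ1 : ∀ l (h : l < 25), ρ l = (e ⟨l, h⟩).val := fun l h => by simp only [ρ, dif_pos h]
  have hρ2 : ∀ l, 25 ≤ l → ρ l = l := fun l h => by simp only [ρ, dif_neg (not_lt.2 h)]
  have hρ : Function.Injective ρ := by
    intro l l' h
    by_cases h1 : l < 25
    · by_cases h2 : l' < 25
      · rw [hρ1 l h1, hρ1 l' h2] at h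
        have := e.injective (Fin.ext h)
        exact congrArg Fin.val this
      · rw [hρ1 l h1, hρ2 l' (by omega)] at h
        have := (e ⟨l, h1⟩).isLt
        omega
    · by_cases h2 : l' < 25
      · rw [hρ2 l (by omega), hρ1 l' h2] at h
        have := (e ⟨l', h2⟩).isLt
        omega
      · rw [hρ2 l (by omega), hρ2 l' (by omega)] at h
        exact h
  have hσ : Function.Injective (fun m : Fin 5 => (τ.symm m).val) := by
    intro m m' h
    exact τ.symm.injective (Fin.ext h)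
  have hmemA : ∀ z : Itm, z ∈ A0 a b c d ↔ ∃ l < 25, z = (l, 1, gg a b c d l) := by
    intro z
    unfold A0
    simp only [List.mem_map, List.mem_range]
    constructor
    · rintro ⟨l, h1, h2⟩; exact ⟨l, h1, h2.symm⟩
    · rintro ⟨l, h1, h2⟩; exact ⟨l, h1, h2.symm⟩
  have hSN : SN ρ (wgt 25 []) (acv 25 []) (A0 a b c d) := by
    refine ⟨?_, ?_, ?_⟩
    · have : (A0 a b c d).map Prod.fst = List.range 25 := by
        unfold A0
        rw [List.map_map]
        exact List.map_id' _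
      rw [this]
      exact List.nodup_range
    · intro l
      change l ∈ B0 25 ↔ _
      rw [mem_B0]
      constructor
      · intro hl
        refine ⟨((e.symm ⟨l, hl⟩).val, 1, gg a b c d (e.symm ⟨l, hl⟩).val), ?_, ?_⟩
        · rw [hmemA]
          exact ⟨_, (e.symm ⟨l, hl⟩).isLt, rfl⟩
        · simp only
          rw [hρ1 _ (e.symm ⟨l, hl⟩).isLt]
          simp
      · rintro ⟨z, hz, rfl⟩
        rw [hmemA] at hz
        obtain ⟨l, hl, rfl⟩ := hz
        simp only
        rw [hρ1 l hl]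
        exact (e ⟨l, hl⟩).isLt
    · intro z hz
      rw [hmemA] at hz
      obtain ⟨l, hl, rfl⟩ := hz
      simp [wgt]
  have hRep : Rep (wgt 25 []) M0 (ann F (hst 25 [])) (acv 25 []) := by
    refine hM0.congr2 (fun l hl => ⟨?_, rfl⟩)
    rw [Wt0 (mem_B0.1 hl)]
    rfl
  refine chk_sound F ρ hρ hρ2 (fun m => (τ.symm m).val) hσ (fun m => (τ.symm m).isLt) hF T [] M0
    (A0 a b c d) [A0 a b c d] hRep trivial (by simp) hSN ?_ hSN hT
  intro z hz
  rw [hmemA] at hz
  obtain ⟨l, hl, rfl⟩ := hz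
  simp only
  rw [hρ1 l hl]
  have h1 := he ⟨l, hl⟩
  have h2 : (f (e ⟨l, hl⟩)).val = (g ⟨l, hl⟩).val := by rw [h1]
  exact h2.symm

theorem adv5 (F : List Ev → Fin 5) :
    ∃ s ∈ (SX 5 25 32 ∪ ST 25 5 40), (9 : ℝ) ≤ cost (ann F s) := by
  by_contra hcon
  push Not at hcon
  have hFX : ∀ s ∈ SX 5 25 32, cost (ann F s) < 9 := fun s hs => hcon s (Or.inl hs)
  have hFT : ∀ s ∈ ST 25 5 40, cost (ann F s) < (9 : ℕ) := fun s hs => by
    have := hcon s (Or.inr hs)
    exact_mod_cast this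
  have c0 : cost (ann F (deps (B0 25) ++ g0 25)) < 9 := by
    apply hFX
    refine ⟨(good_x (n := 5) (k := 0) (N := 25) (by norm_num) (by norm_num) (by norm_num) ∅ ∅
      (by simp) (by simp) (by simp) (by simp) (by simp)).1, 0, 0, B0 25, ∅, ∅, by omega, by omega,
      ?_, by simp, by simp, ?_⟩
    · intro l hl
      have := mem_B0.1 hl
      rw [Finset.mem_range]; omega
    · simp [scx]
  obtain ⟨M0, hM0⟩ := rep0 (n := 5) (by norm_num) F 0 25 0 0
  have l0 := LD_lt_of hM0 c0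
  have eU : ∀ i, LD (Wt 0 25 0 0) M0 (B0 25) i = (cnt M0 (B0 25) i : ℝ) * 1 :=
    LD_const (fun l hl => Wt0 (mem_B0.1 hl))
  obtain ⟨x, hxdef⟩ : ∃ x : Fin 5 → ℕ, x = fun i => cnt M0 (B0 25) i := ⟨_, rfl⟩
  have hxi : ∀ i, cnt M0 (B0 25) i = x i := fun i => by rw [hxdef]
  have hx : ∀ i, x i ≤ 8 := by
    intro i
    have h1 := l0 i
    rw [eU i, mul_one, hxi i] at h1
    have h3 : x i < 9 := by exact_mod_cast h1
    omega
  have hsum : ∑ i, x i = 25 := by
    rw [hxdef, sum_cnt]; simp [B0]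
  have hnot : ¬ ((∀ i, 1 ≤ cnt M0 (B0 25) i) ∨ (∃ q, ∀ i, i ≠ q → 5 ≤ cnt M0 (B0 25) i)) := by
    intro hg
    obtain ⟨s, hs, hsc⟩ := adversaryXG (n := 5) (N := 25) (B := 32) (by norm_num) (by norm_num)
      (by norm_num) F M0 hM0 hg
    have := hFX s hs
    norm_num at hsc
    linarith
  push Not at hnot
  obtain ⟨hn1, hn2⟩ := hnot
  simp only [hxi] at hn1 hn2
  obtain ⟨τ, hτ⟩ : ∃ τ : Equiv.Perm (Fin 5), τ = Tuple.sort x := ⟨_, rfl⟩
  have hmono : Monotone (x ∘ τ) := by rw [hτ]; exact Tuple.monotone_sort x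
  have hsum' : ∑ k, x (τ k) = 25 := by rw [← hsum]; exact Equiv.sum_comp τ x
  rw [Fin.sum_univ_five] at hsum'
  have m01 : x (τ 0) ≤ x (τ 1) := hmono (by decide)
  have m12 : x (τ 1) ≤ x (τ 2) := hmono (by decide)
  have m23 : x (τ 2) ≤ x (τ 3) := hmono (by decide)
  have m34 : x (τ 3) ≤ x (τ 4) := hmono (by decide)
  have b4 := hx (τ 4)
  have z0 : x (τ 0) = 0 := by
    obtain ⟨i, hi⟩ := hn1
    have h1 : x (τ 0) ≤ x (τ (τ.symm i)) := hmono (Fin.zero_le _)
    rw [Equiv.apply_symm_apply] at h1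
    omega
  have z1 : x (τ 1) ≤ 4 := by
    obtain ⟨i, hi1, hi2⟩ := hn2 (τ 0)
    have h2 : τ.symm i ≠ 0 := by
      intro h
      apply hi1
      rw [← h, Equiv.apply_symm_apply]
    have h1 : x (τ 1) ≤ x (τ (τ.symm i)) := by
      apply hmono
      rw [Fin.le_def]
      have : (τ.symm i).val ≠ 0 := fun h => h2 (Fin.ext h)
      change 1 ≤ _
      omega
    rw [Equiv.apply_symm_apply] at h1
    omega
  have key : ∀ (a b c d e : ℕ) (T : Tr) (_ : chk 5 9 40 25 (A0 a b c d) [A0 a b c d] T = true)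
      (_ : ∀ l : Fin 25, gg a b c d l < 5)
      (_ : ∀ k : Fin 5, (Finset.univ.filter (fun l : Fin 25 => gg a b c d l = k.val)).card =
        (![a, b, c, d, e] : Fin 5 → ℕ) k),
      x (τ 0) = a → x (τ 1) = b → x (τ 2) = c → x (τ 3) = d → x (τ 4) = e → False := by
    intro a b c d e T h1 h2 h3 e0 e1 e2 e3 e4
    refine tree_case a b c d ![a, b, c, d, e] T h1 h2 h3 F hFT M0 hM0 τ ?_
    intro k
    rw [hxi]
    fin_cases k
    · exact e0
    · exact e1
    · exact e2
    · exact e3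
    · exact e4
  generalize x (τ 0) = y0 at *
  generalize x (τ 1) = y1 at *
  generalize x (τ 2) = y2 at *
  generalize x (τ 3) = y3 at *
  generalize x (τ 4) = y4 at *
  have hcases : (y1 = 1 ∧ y2 = 8 ∧ y3 = 8 ∧ y4 = 8) ∨ (y1 = 2 ∧ y2 = 7 ∧ y3 = 8 ∧ y4 = 8) ∨
      (y1 = 3 ∧ y2 = 6 ∧ y3 = 8 ∧ y4 = 8) ∨ (y1 = 3 ∧ y2 = 7 ∧ y3 = 7 ∧ y4 = 8) ∨
      (y1 = 4 ∧ y2 = 5 ∧ y3 = 8 ∧ y4 = 8) ∨ (y1 = 4 ∧ y2 = 6 ∧ y3 = 7 ∧ y4 = 8) ∨
      (y1 = 4 ∧ y2 = 7 ∧ y3 = 7 ∧ y4 = 7) := by
    omega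
  rcases hcases with ⟨r1, r2, r3, r4⟩ | ⟨r1, r2, r3, r4⟩ | ⟨r1, r2, r3, r4⟩ | ⟨r1, r2, r3, r4⟩ |
    ⟨r1, r2, r3, r4⟩ | ⟨r1, r2, r3, r4⟩ | ⟨r1, r2, r3, r4⟩
  · exact key 0 1 8 8 8 T0 T0_ok (by decide +kernel) (by decide +kernel) z0 r1 r2 r3 r4
  · exact key 0 2 7 8 8 T1 T1_ok (by decide +kernel) (by decide +kernel) z0 r1 r2 r3 r4
  · exact key 0 3 6 8 8 T2 T2_ok (by decide +kernel) (by decide +kernel) z0 r1 r2 r3 r4
  · exact key 0 3 7 7 8 T3 T3_ok (by decide +kernel) (by decide +kernel) z0 r1 r2 r3 r4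
  · exact key 0 4 5 8 8 T4 T4_ok (by decide +kernel) (by decide +kernel) z0 r1 r2 r3 r4
  · exact key 0 4 6 7 8 T5 T5_ok (by decide +kernel) (by decide +kernel) z0 r1 r2 r3 r4
  · exact key 0 4 7 7 7 T6 T6_ok (by decide +kernel) (by decide +kernel) z0 r1 r2 r3 r4

theorem lower_bound5 (R : RandAlg.{u} 5) (c : ℝ) (hc : R.Competitive c) : 2 - 1 / 5 ≤ c := by
  have h := repeat_trick (n := 5) (by norm_num) (5 : ℝ) 9 (by norm_num) (by norm_num)
    (SX 5 25 32 ∪ ST 25 5 40) ((SX_finite 5 25 32).union (ST_finite 25 5 40))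
    (fun s hs => by
      rcases hs with hs | hs
      · have := hs.1
        exact_mod_cast this
      · have := hs.1
        exact_mod_cast this) adv5 R c hc
  linarith

end Pool.Agent.Helper872.LoadBal
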