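import Mathlib
import Pool.Agent.Helper872.LoadBal.ExactAdv

open MeasureTheory

universe u

namespace Pool.Agent.Helper872.LoadBal

variable {n : ℕ}

/-- **Repeat trick**, for a class `Q` of deterministic algorithms which is closed under shifts. -/
theorem repeat_trickQ (Q : (List Ev → Fin n) → Prop)
    (hQ : ∀ F σ, Q F → Valid σ → act σ = [] → Q (fun t => F (t ++ σ))) (L H : ℝ) (hL : 0 ≤ L) (hH : 0 < H) (S : Set (List Ev)) (hS : S.Finite)
    (hgood : ∀ s ∈ S, Valid s ∧ act s = [] ∧ ∃ b : List (Ev × Fin n), b.map Prod.fst = s ∧ cost b ≤ L)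
    (hwin : ∀ F : List Ev → Fin n, Q F → ∃ s ∈ S, H ≤ cost (ann F s))
    (R : RandAlg.{u} n) (hRQ : ∀ ω, Q (R.A ω)) (c : ℝ) (hc : R.Competitive c) : H ≤ c * L := by
  classical
  set T := hS.toFinset with hT
  have hTne : T.Nonempty := by
    obtain ⟨ω⟩ : Nonempty R.Ω := nonempty_of_isProbabilityMeasure R.μ
    obtain ⟨s, hs, -⟩ := hwin (R.A ω) (hRQ ω)
    exact ⟨s, by simpa [hT] using hs⟩
  set N : ℝ := (T.card : ℝ) with hN
  have hNpos : 0 < N := by rw [hN]; exact_mod_cast hTne.card_pos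
  have hN1 : 1 ≤ N := by rw [hN]; exact_mod_cast hTne.card_pos
  -- induction
  have key : ∀ K : ℕ, ∃ σ, Valid σ ∧ act σ = [] ∧
      (∃ b : List (Ev × Fin n), b.map Prod.fst = σ ∧ cost b ≤ L) ∧
      R.μ.real {ω | cost (ann (R.A ω) σ) < H} ≤ (1 - 1 / N) ^ K := by
    intro K
    induction K with
    | zero =>
      refine ⟨[], trivial, rfl, ⟨[], rfl, by simpa [cost] using hL⟩, ?_⟩
      simp
    | succ K ih =>
      obtain ⟨σ, hv, ha, ⟨b, hb, hbL⟩, hμ⟩ := ih
      set B : Set R.Ω := {ω | cost (ann (R.A ω) σ) < H} with hB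
      let hit : List Ev → Set R.Ω := fun s => {ω | H ≤ cost (ann (R.A ω) (s ++ σ))}
      have hmeasB : MeasurableSet B := meas_ann R σ (fun b => cost b < H)
      have hmeasH : ∀ s, MeasurableSet (hit s) := fun s =>
        meas_ann R (s ++ σ) (fun b => H ≤ cost b)
      have hcover : B ⊆ ⋃ s ∈ T, (B ∩ hit s) := by
        intro ω hω
        obtain ⟨s, hs, hsH⟩ := hwin (fun t => R.A ω (t ++ σ)) (hQ _ _ (hRQ ω) hv ha)
        simp only [Set.mem_iUnion]
        refine ⟨s, by simpa [hT] using hs, hω, ?_⟩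
        change H ≤ cost (ann (R.A ω) (s ++ σ))
        rw [ann_append, cost_append _ _ (st_ann_nil _ _ ha)]
        exact le_max_of_le_right hsH
      have hsum : R.μ.real B ≤ ∑ s ∈ T, R.μ.real (B ∩ hit s) :=
        le_trans (measureReal_mono hcover (measure_ne_top _ _)) (measureReal_biUnion_finset_le _ _)
      obtain ⟨s, hs, hsB⟩ : ∃ s ∈ T, R.μ.real B / N ≤ R.μ.real (B ∩ hit s) := by
        by_contra hcon
        push Not at hcon
        have : ∑ s ∈ T, R.μ.real (B ∩ hit s) < ∑ _s ∈ T, R.μ.real B / N :=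
          Finset.sum_lt_sum_of_nonempty hTne hcon
        rw [Finset.sum_const, nsmul_eq_mul, ← hN, mul_div_cancel₀ _ hNpos.ne'] at this
        linarith
      obtain ⟨hsv, hsa, bs, hbs, hbsL⟩ := hgood s (by simpa [hT] using hs)
      refine ⟨s ++ σ, valid_append _ _ ha hsv hv, by rw [act_append _ _ ha, hsa],
        ⟨bs ++ b, by simp [hb, hbs], ?_⟩, ?_⟩
      · rw [cost_append _ _ (st_nil_of b σ hb ha)]
        exact max_le hbL hbsL
      · have hsub : {ω | cost (ann (R.A ω) (s ++ σ)) < H} ⊆ B \ (B ∩ hit s) := by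
          intro ω hω
          have h1 : cost (ann (R.A ω) (s ++ σ)) < H := hω
          refine ⟨?_, ?_⟩
          · change cost (ann (R.A ω) σ) < H
            refine lt_of_le_of_lt ?_ h1
            rw [ann_append]
            exact cost_append_ge _ _
          · rintro ⟨-, h2⟩
            exact absurd h1 (not_lt.mpr h2)
        have h3 : R.μ.real (B \ (B ∩ hit s)) = R.μ.real B - R.μ.real (B ∩ hit s) :=
          measureReal_sdiff Set.inter_subset_left (hmeasB.inter (hmeasH s))
        calc R.μ.real {ω | cost (ann (R.A ω) (s ++ σ)) < H}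
            ≤ R.μ.real (B \ (B ∩ hit s)) := measureReal_mono hsub
          _ = R.μ.real B - R.μ.real (B ∩ hit s) := h3
          _ ≤ R.μ.real B - R.μ.real B / N := by linarith
          _ = (1 - 1 / N) * R.μ.real B := by ring
          _ ≤ (1 - 1 / N) * (1 - 1 / N) ^ K := by
              apply mul_le_mul_of_nonneg_left hμ
              rw [sub_nonneg, div_le_one hNpos]; exact hN1
          _ = (1 - 1 / N) ^ (K + 1) := by ring
  have hc0 : ∀ K : ℕ, H * (1 - (1 - 1 / N) ^ K) ≤ max c 0 * L := by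
    intro K
    obtain ⟨σ, hv, ha, ⟨b, hb, hbL⟩, hμ⟩ := key K
    have h1 := hc σ hv
    have hopt : OPT n σ ≤ L := (OPT_le b σ hb).trans hbL
    have hopt0 : 0 ≤ OPT n σ := by
      apply Real.sInf_nonneg
      rintro x ⟨b, -, rfl⟩
      exact cost_nonneg b
    have h2 : H * R.μ.real {ω | H ≤ cost (ann (R.A ω) σ)} ≤ R.ecost σ :=
      mul_meas_ge_le_integral_of_nonneg (Filter.Eventually.of_forall (fun ω => cost_nonneg _))
        (integrable_cost R σ) H
    have h3 : R.μ.real {ω | H ≤ cost (ann (R.A ω) σ)} =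
        1 - R.μ.real {ω | cost (ann (R.A ω) σ) < H} := by
      have := probReal_compl_eq_one_sub (μ := R.μ) (meas_ann R σ (fun b => cost b < H))
      rw [← this]
      congr 1
      ext ω
      simp
    rw [h3] at h2
    have h4 : H * (1 - (1 - 1 / N) ^ K) ≤ R.ecost σ := by
      refine le_trans ?_ h2
      apply mul_le_mul_of_nonneg_left _ hH.le
      linarith
    refine h4.trans (h1.trans ?_)
    exact mul_le_mul (le_max_left _ _) hopt hopt0 (le_max_right _ _)
  have hlim : Filter.Tendsto (fun K : ℕ => H * (1 - (1 - 1 / N) ^ K)) Filter.atTop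
      (nhds (H * (1 - 0))) := by
    apply Filter.Tendsto.const_mul
    apply Filter.Tendsto.const_sub
    apply tendsto_pow_atTop_nhds_zero_of_lt_one
    · rw [sub_nonneg, div_le_one hNpos]; exact hN1
    · have : 0 < 1 / N := by positivity
      linarith
  have h5 : H ≤ max c 0 * L := by
    have := le_of_tendsto hlim (Filter.Eventually.of_forall hc0)
    simpa using this
  rcases le_total c 0 with h | h
  · rw [max_eq_right h, zero_mul] at h5
    exact absurd h5 (not_le.mpr hH)
  · rwa [max_eq_left h] at h5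

theorem adversaryXF {N B : ℕ} (hn : 2 ≤ n) (hN : N = n * n) (hB : B = N + n + 2)
    (F : List Ev → Fin n)
    (hgood : ∀ M0 : ℕ → Fin n, Rep (Wt 0 N 0 0) M0 (ann F (g0 N)) (B0 N) →
      ∀ i, 1 ≤ cnt M0 (B0 N) i) :
    ∃ s ∈ SX n N B, (2 * n - 1 : ℝ) ≤ cost (ann F s) := by
  classical
  have hn2 : (2 : ℝ) ≤ n := by exact_mod_cast hn
  have hn0 : 0 < n := by omega
  by_contra hcon
  push Not at hcon
  have hB0B : B0 N ⊆ Finset.range B := by
    intro l hl
    have := mem_B0.1 hl
    rw [Finset.mem_range]; omega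
  have c0 : cost (ann F (deps (B0 N) ++ g0 N)) < 2 * n - 1 := by
    apply hcon
    refine ⟨(good_x (k := 0) hn (by omega) hN ∅ ∅ (by simp) (by simp) (by simp) (by simp)
      (by simp)).1, 0, 0, B0 N, ∅, ∅, by omega, by omega, hB0B, by simp, by simp, ?_⟩
    simp [scx]
  obtain ⟨M0, hM0⟩ := rep0 hn0 F 0 N 0 0
  have l0 := LD_lt_of hM0 c0
  have eU : ∀ i, LD (Wt 0 N 0 0) M0 (B0 N) i = (cnt M0 (B0 N) i : ℝ) * 1 :=
    LD_const (fun l hl => Wt0 (mem_B0.1 hl))
  obtain ⟨x, hxdef⟩ : ∃ x : Fin n → ℕ, x = fun i => cnt M0 (B0 N) i := ⟨_, rfl⟩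
  have hxi : ∀ i, x i = cnt M0 (B0 N) i := fun i => by rw [hxdef]
  have hx : ∀ i, x i ≤ 2 * n - 2 := by
    intro i
    have h1 := l0 i
    rw [eU i, mul_one, ← hxi i] at h1
    have h2 : ((x i + 1 : ℕ) : ℝ) < ((2 * n : ℕ) : ℝ) := by push_cast; linarith
    have h3 : x i + 1 < 2 * n := by exact_mod_cast h2
    omega
  have hsum : ∑ i, x i = n * n := by
    rw [hxdef, sum_cnt]; simp [B0, hN]
  have hch : ∀ i, ∃ (U Rf : Finset ℕ), (∀ l ∈ U, l ∈ B0 N ∧ M0 l = i) ∧
      (∀ l ∈ Rf, l ∈ B0 N ∧ M0 l = i) ∧ Disjoint U Rf ∧ U.card = min (x i) 1 ∧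
      Rf.card = if x i < n then 0 else n - 1 := by
    intro i
    have h1 : min (x i) 1 + (if x i < n then 0 else n - 1) ≤
        ((B0 N).filter (fun l => M0 l = i)).card := by
      change _ ≤ cnt M0 (B0 N) i
      rw [← hxi i]
      split_ifs <;> omega
    obtain ⟨K, hK, hKc⟩ := Finset.exists_subset_card_eq h1
    obtain ⟨U, hU, hUc⟩ := Finset.exists_subset_card_eq
      (by rw [hKc]; exact Nat.le_add_right _ _ : min (x i) 1 ≤ K.card)
    refine ⟨U, K \ U, fun l hl => Finset.mem_filter.1 (hK (hU hl)),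
      fun l hl => Finset.mem_filter.1 (hK (Finset.mem_sdiff.1 hl).1), Finset.disjoint_sdiff,
      hUc, ?_⟩
    rw [Finset.card_sdiff_of_subset hU, hKc, hUc]
    omega
  choose U Rf hU hRf hd hUc hRc using hch
  set S := Finset.univ.filter (fun i => ¬ x i < n) with hS
  set L := Finset.univ.filter (fun i => x i < n) with hL
  have hSL : L.card + S.card = n := by
    rw [hS, hL, Finset.card_filter_add_card_filter_not]
    simp
  obtain ⟨k, hk⟩ : ∃ k, k = L.card := ⟨_, rfl⟩
  have hS1 : 1 ≤ S.card := by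
    by_contra hne
    have h1 : ∀ i, x i ≤ n - 1 := by
      intro i
      by_contra h2
      have h3 : i ∈ S := by
        rw [hS, Finset.mem_filter]
        exact ⟨Finset.mem_univ _, by omega⟩
      have := Finset.card_pos.2 ⟨i, h3⟩
      omega
    have h2 : ∑ i, x i ≤ ∑ _i : Fin n, (n - 1) := Finset.sum_le_sum (fun i _ => h1 i)
    rw [hsum] at h2
    simp only [Finset.sum_const, Finset.card_univ, Fintype.card_fin, smul_eq_mul] at h2
    have h3 : n * (n - 1) < n * n := Nat.mul_lt_mul_of_pos_left (by omega) hn0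
    omega
  have hk1 : k + 1 ≤ n := by omega
  set R := Finset.univ.biUnion Rf with hR
  set D2 := Finset.univ.biUnion U with hD2
  have hmemR : ∀ l ∈ R, ∃ i, l ∈ Rf i := by
    intro l hl
    rw [hR, Finset.mem_biUnion] at hl
    obtain ⟨i, -, h⟩ := hl
    exact ⟨i, h⟩
  have hmemD : ∀ l ∈ D2, ∃ i, l ∈ U i := by
    intro l hl
    rw [hD2, Finset.mem_biUnion] at hl
    obtain ⟨i, -, h⟩ := hl
    exact ⟨i, h⟩
  have hRB : R ⊆ B0 N := fun l hl => by
    obtain ⟨i, h⟩ := hmemR l hl
    exact (hRf i l h).1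
  have hDB : D2 ⊆ B0 N := fun l hl => by
    obtain ⟨i, h⟩ := hmemD l hl
    exact (hU i l h).1
  have dRD : Disjoint R D2 := by
    rw [Finset.disjoint_left]
    intro l hl hl2
    obtain ⟨i, h⟩ := hmemR l hl
    obtain ⟨k, h'⟩ := hmemD l hl2
    have h3 : i = k := by rw [← (hRf i l h).2, (hU k l h').2]
    subst h3
    exact Finset.disjoint_left.1 (hd i) h' h
  have cR : R.card ≤ (n - k) * (n - 1) := by
    have h1 : R.card ≤ ∑ i, (Rf i).card := Finset.card_biUnion_le
    have h2 : ∑ i, (Rf i).card = S.card * (n - 1) := by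
      rw [hS, Finset.card_filter, Finset.sum_mul]
      apply Finset.sum_congr rfl
      intro i _
      rw [hRc i]
      split_ifs <;> simp_all
    have h3 : S.card = n - k := by omega
    rw [← h3, ← h2]; exact h1
  have cD : D2.card ≤ n := by
    have h1 : D2.card ≤ ∑ i, (U i).card := Finset.card_biUnion_le
    have h2 : ∑ i, (U i).card ≤ ∑ _i : Fin n, 1 := by
      apply Finset.sum_le_sum
      intro i _
      rw [hUc i]; omega
    simp only [Finset.sum_const, Finset.card_univ, Fintype.card_fin, smul_eq_mul, mul_one] at h2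
    omega
  set D1 := B0 N \ (R ∪ D2) with hD1
  have c2 : cost (ann F (deps (C2 N k D1 D2) ++ h2 n N k D1 D2)) < 2 * n - 1 := by
    apply hcon
    refine ⟨(good_x hn hk1 hN R D2 hRB hDB dRD cR cD).2, 1, k, C2 N k D1 D2, D1, D2, by omega,
      by omega, ?_, Finset.sdiff_subset.trans hB0B, hDB.trans hB0B, ?_⟩
    · intro l hl
      rw [Finset.mem_range]
      simp only [C2, Finset.mem_union, Finset.mem_sdiff, Finset.mem_Ico] at hl
      rcases hl with hl | hl
      · have := C1_lt hl.1; omega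
      · omega
    · simp [scx]
  have hM0' : Rep (Wx n N k) M0 (ann F (g0 N)) (B0 N) :=
    hM0.congr2 (fun l hl => ⟨by rw [Wt0 (mem_B0.1 hl), Wx0 (mem_B0.1 hl)], rfl⟩)
  obtain ⟨M, hMe, hM1, hM2⟩ := repx F D1 D2 hM0'
  have c1 : cost (ann F ((deps (C2 N k D1 D2) ++
      (arrs (N + k) (n : ℝ) 1 ++ deps D2)) ++ h1 n N k D1)) < 2 * n - 1 := by
    have : (deps (C2 N k D1 D2) ++ (arrs (N + k) (n : ℝ) 1 ++ deps D2)) ++ h1 n N k D1 =
      deps (C2 N k D1 D2) ++ h2 n N k D1 D2 := by
      unfold h2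
      simp only [List.append_assoc]
    rw [this]
    exact c2
  have l1 := LD_lt_of hM1 c1
  have l2 := LD_lt_of hM2 c2
  set W := Wx n N k with hWdef
  have hW : ∀ l, 0 ≤ W l := Wx_nonneg n N k hn
  set V := Finset.Ico N (N + k) with hV
  have eR : ∀ i, LD W M R i = (cnt M R i : ℝ) * 1 :=
    LD_const (fun l hl => Wx0 (mem_B0.1 (hRB hl)))
  have e2 : ∀ i, LD W M D2 i = (cnt M D2 i : ℝ) * 1 :=
    LD_const (fun l hl => Wx0 (mem_B0.1 (hDB hl)))
  have eV : ∀ i, LD W M V i = (cnt M V i : ℝ) * (n - 1) :=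
    LD_const (fun l hl => Wx1 (Finset.mem_Ico.1 hl).1 (Finset.mem_Ico.1 hl).2)
  have dRV : Disjoint R V := by
    rw [Finset.disjoint_left]; intro l h1 h2
    have := mem_B0.1 (hRB h1); have := Finset.mem_Ico.1 h2; omega
  have dDV : Disjoint D2 V := by
    rw [Finset.disjoint_left]; intro l h1 h2
    have := mem_B0.1 (hDB h1); have := Finset.mem_Ico.1 h2; omega
  have hRi : ∀ i, (Rf i).card ≤ cnt M R i := by
    intro i
    apply cnt_ge
    · intro l hl
      rw [hR, Finset.mem_biUnion]; exact ⟨i, Finset.mem_univ _, hl⟩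
    · intro l hl
      rw [hMe l (mem_B0.1 (hRf i l hl).1)]
      exact (hRf i l hl).2
  have hUi : ∀ i, (U i).card ≤ cnt M D2 i := by
    intro i
    apply cnt_ge
    · intro l hl
      rw [hD2, Finset.mem_biUnion]; exact ⟨i, Finset.mem_univ _, hl⟩
    · intro l hl
      rw [hMe l (mem_B0.1 (hU i l hl).1)]
      exact (hU i l hl).2
  have hm1 : ∀ i, (cnt M R i : ℝ) + cnt M D2 i + cnt M V i * (n - 1) < 2 * n - 1 := by
    intro i
    have hsub : (R ∪ D2) ∪ V ⊆ C1 N k D1 := by
      intro l hl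
      simp only [Finset.mem_union] at hl
      rcases hl with (hl | hl) | hl
      · have a2 := hRB hl
        simp only [C1, hD1, Finset.mem_union, Finset.mem_sdiff]
        tauto
      · have a2 := hDB hl
        simp only [C1, hD1, Finset.mem_union, Finset.mem_sdiff]
        tauto
      · unfold C1
        exact Finset.mem_union_right _ hl
    have h1 := LD_mono hW (M := M) hsub i
    have h2 := l1 i
    rw [LD_union (by rw [Finset.disjoint_union_left]; exact ⟨dRV, dDV⟩), LD_union dRD,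
      eR, e2, eV] at h1
    linarith
  have hsumV : ∑ i, cnt M V i = k := by rw [sum_cnt, hV, Nat.card_Ico]; omega
  have hz : ∀ i, cnt M V i ≤ if x i < n then 1 else 0 := by
    intro i
    have h0 := hm1 i
    have h1 := hRi i
    have h2 := hUi i
    rw [hRc i] at h1
    rw [hUc i] at h2
    split_ifs with hi
    · by_contra hne
      have h4 : (2 : ℝ) ≤ cnt M V i := by exact_mod_cast (by omega : 2 ≤ cnt M V i)
      have h5 := hgood M0 hM0 i
      rw [← hxi i] at h5
      have h6 : 1 ≤ cnt M D2 i := by omega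
      have h7 : (1 : ℝ) ≤ cnt M D2 i := by exact_mod_cast h6
      have h8 : (0 : ℝ) ≤ cnt M R i := Nat.cast_nonneg _
      nlinarith
    · by_contra hne
      have h4 : (1 : ℝ) ≤ cnt M V i := by exact_mod_cast (by omega : 1 ≤ cnt M V i)
      rw [if_neg hi] at h1
      have h5 : n ≤ cnt M R i + cnt M D2 i := by omega
      have h6 : (n : ℝ) ≤ cnt M R i + cnt M D2 i := by exact_mod_cast h5
      nlinarith
  have hz1 : ∀ i, cnt M V i = if x i < n then 1 else 0 := by
    have h1 : ∑ i : Fin n, cnt M V i = ∑ i : Fin n, (if x i < n then 1 else 0) := by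
      rw [hsumV, hk, hL, Finset.card_filter]
    have h2 := (Finset.sum_eq_sum_iff_of_le (fun i _ => hz i)).1 h1
    exact fun i => h2 i (Finset.mem_univ i)
  set f := N + k with hfdef
  set i0 := M f with hi0
  have hfin : (cnt M R i0 : ℝ) + cnt M V i0 * (n - 1) + n < 2 * n - 1 := by
    have hsub : (R ∪ V) ∪ {f} ⊆ C2 N k D1 D2 := by
      intro l hl
      simp only [Finset.mem_union] at hl
      rcases hl with (hl | hl) | hl
      · have a2 := hRB hl
        have a4 : l ∉ D2 := Finset.disjoint_left.1 dRD hl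
        simp only [C2, C1, hD1, Finset.mem_union, Finset.mem_sdiff]
        tauto
      · have a4 : l ∉ D2 := Finset.disjoint_right.1 dDV hl
        simp only [C2, C1, Finset.mem_union, Finset.mem_sdiff]
        left
        exact ⟨Or.inr hl, a4⟩
      · rw [Finset.mem_singleton] at hl
        unfold C2
        apply Finset.mem_union_right
        rw [Finset.mem_Ico]
        omega
    have h1 := LD_mono hW (M := M) hsub i0
    have h2 := l2 i0
    have eF : LD W M {f} i0 = n := by
      unfold LD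
      rw [Finset.sum_singleton, if_pos rfl]
      exact Wx2 (le_refl _)
    have dF : Disjoint (R ∪ V) {f} := by
      rw [Finset.disjoint_singleton_right]
      simp only [Finset.mem_union, not_or]
      refine ⟨fun h => ?_, fun h => ?_⟩
      · have := mem_B0.1 (hRB h); omega
      · have := Finset.mem_Ico.1 h; omega
    rw [LD_union dF, LD_union dRV, eR, eV, eF] at h1
    linarith
  have h1 := hz1 i0
  have h2 := hRi i0
  rw [hRc i0] at h2
  split_ifs at h1 h2 with hi
  · rw [h1] at hfin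
    have hr : (0 : ℝ) ≤ cnt M R i0 := Nat.cast_nonneg _
    push_cast at hfin
    linarith
  · rw [h1] at hfin
    have h3 : ((n - 1 : ℕ) : ℝ) ≤ cnt M R i0 := by exact_mod_cast h2
    rw [Nat.cast_sub (by omega)] at h3
    push_cast at hfin h3
    linarith

/-- `F` never assigns a task to a machine with active tasks while some machine has none
(on valid inputs). -/
def NonIdling (F : List Ev → Fin n) : Prop :=
  ∀ (l : ℕ) (w : ℝ) (h : List Ev), Valid (Ev.arr l w :: h) →
    (∃ i : Fin n, ∀ x ∈ st (ann F h), x.2.2 ≠ i) →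
    ∀ x ∈ st (ann F h), x.2.2 ≠ F (Ev.arr l w :: h)

lemma NonIdling.shift (F : List Ev → Fin n) (σ : List Ev) (hF : NonIdling F) (hv : Valid σ)
    (h : act σ = []) : NonIdling (fun t => F (t ++ σ)) := by
  intro l w t ht
  have h1 : st (ann (fun t => F (t ++ σ)) t) = st (ann F (t ++ σ)) := by
    rw [ann_append, st_append _ _ (st_ann_nil F σ h)]
  rw [h1]
  exact hF l w (t ++ σ) (valid_append (Ev.arr l w :: t) σ h ht hv)

lemma used_card (F : List Ev → Fin n) (hF : NonIdling F) (k : ℕ) :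
    min k n ≤ ((st (ann F (arrs 0 1 k ++ []))).map (fun x => x.2.2)).toFinset.card := by
  induction k with
  | zero => simp
  | succ k ih =>
    have h1 : st (ann F (arrs 0 1 (k + 1) ++ [])) =
        (0 + k, 1, F (Ev.arr (0 + k) 1 :: (arrs 0 1 k ++ []))) ::
          st (ann F (arrs 0 1 k ++ [])) := rfl
    rw [h1, List.map_cons, List.toFinset_cons]
    set U := ((st (ann F (arrs 0 1 k ++ []))).map (fun x => x.2.2)).toFinset with hU
    by_cases hid : ∃ i : Fin n, ∀ x ∈ st (ann F (arrs 0 1 k ++ [])), x.2.2 ≠ i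
    · have hva : VA [] ∅ := ⟨trivial, by simp [act], by simp [act]⟩
      have hval : Valid (Ev.arr (0 + k) 1 :: (arrs 0 1 k ++ [])) := by
        have := (hva.arrs 0 (by simp) 1 one_pos (k + 1)).1
        simpa only [arrs, List.cons_append] using this
      have h2 := hF (0 + k) 1 (arrs 0 1 k ++ []) hval hid
      have h3 : F (Ev.arr (0 + k) 1 :: (arrs 0 1 k ++ [])) ∉ U := by
        intro hm
        rw [hU, List.mem_toFinset, List.mem_map] at hm
        obtain ⟨x, hx, hxe⟩ := hm
        exact h2 x hx hxe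
      simp only
      rw [Finset.card_insert_of_notMem h3]
      omega
    · push Not at hid
      have h2 : U = Finset.univ := by
        ext i
        simp only [Finset.mem_univ, iff_true]
        obtain ⟨x, hx, hxe⟩ := hid i
        rw [hU, List.mem_toFinset, List.mem_map]
        exact ⟨x, hx, hxe⟩
      have h3 : n ≤ U.card := by rw [h2]; simp
      have h4 := Finset.card_le_card (Finset.subset_insert
        (F (Ev.arr (0 + k) 1 :: (arrs 0 1 k ++ []))) U)
      simp only
      omega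

lemma all_used {N : ℕ} (hN : n ≤ N) (F : List Ev → Fin n) (hF : NonIdling F) (W : ℕ → ℝ)
    (M0 : ℕ → Fin n) (hM0 : Rep W M0 (ann F (g0 N)) (B0 N)) (i : Fin n) :
    1 ≤ cnt M0 (B0 N) i := by
  have h1 := used_card F hF N
  rw [min_eq_right hN] at h1
  have h2 : ((st (ann F (arrs 0 1 N ++ []))).map (fun x => x.2.2)).toFinset = Finset.univ := by
    apply Finset.eq_univ_of_card
    apply le_antisymm (Finset.card_le_univ _)
    simpa using h1
  have h3 : i ∈ ((st (ann F (arrs 0 1 N ++ []))).map (fun x => x.2.2)).toFinset := by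
    rw [h2]; exact Finset.mem_univ i
  rw [List.mem_toFinset, List.mem_map] at h3
  obtain ⟨x, hx, hxi⟩ := h3
  have h4 : x ∈ ((st (ann F (g0 N)) : List (ℕ × ℝ × Fin n)) : Multiset (ℕ × ℝ × Fin n)) := hx
  unfold Rep at hM0
  rw [hM0, Multiset.mem_map] at h4
  obtain ⟨l, hl, rfl⟩ := h4
  unfold cnt
  apply Finset.card_pos.2
  exact ⟨l, Finset.mem_filter.2 ⟨hl, hxi⟩⟩

theorem lower_boundNI (n : ℕ) (hn : 2 ≤ n) (R : RandAlg.{u} n) (hR : ∀ ω, NonIdling (R.A ω))
    (c : ℝ) (hc : R.Competitive c) : 2 - 1 / (n : ℝ) ≤ c := by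
  have hn0 : 0 < n := by omega
  have hn2 : (2 : ℝ) ≤ n := by exact_mod_cast hn
  have hN : n ≤ n * n := Nat.le_mul_self n
  have h := repeat_trickQ NonIdling (fun F σ hF hv ha => NonIdling.shift F σ hF hv ha)
    (n : ℝ) (2 * n - 1) (by linarith) (by linarith)
    (SX n (n * n) (n * n + n + 2)) (SX_finite n _ _) (fun s hs => hs.1)
    (fun F hF => adversaryXF hn rfl rfl F (fun M0 hM0 => all_used hN F hF _ M0 hM0)) R hR c hc
  have hpos : (0 : ℝ) < n := by linarith
  have h2 : 2 - 1 / (n : ℝ) = (2 * n - 1) / n := by field_simp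
  rw [h2, div_le_iff₀ hpos]
  exact h

end Pool.Agent.Helper872.LoadBal
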