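import Mathlib
import Pool.Agent.Helper872.LoadBal.NonIdle

open MeasureTheory

universe u

namespace Pool.Agent.Helper872.LoadBal

variable {n : ℕ}

/-- names and weights of the active tasks -/
def actw : List Ev → List (ℕ × ℝ)
  | [] => []
  | Ev.arr l w :: h => (l, w) :: actw h
  | Ev.dep l :: h => (actw h).filter (fun x => x.1 ≠ l)

lemma st_mapw (b : List (Ev × Fin n)) :
    (st b).map (fun x => (x.1, x.2.1)) = actw (b.map Prod.fst) := by
  induction b with
  | nil => rfl
  | cons a b ih =>
    obtain ⟨e, m⟩ := a
    cases e with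
    | arr l w => simp [st, actw, ih]
    | dep l =>
      simp only [st, actw, List.map_cons, ← ih, List.filter_map]
      rfl

lemma actw_pos : ∀ σ : List Ev, Valid σ → ∀ x ∈ actw σ, 0 < x.2
  | [], _, x, hx => by simp [actw] at hx
  | Ev.arr l w :: h, hv, x, hx => by
    simp only [actw, List.mem_cons] at hx
    rcases hx with rfl | hx
    · exact hv.2.1
    · exact actw_pos h hv.1 x hx
  | Ev.dep l :: h, hv, x, hx => by
    simp only [actw, List.mem_filter] at hx
    exact actw_pos h hv.1 x hx.1

lemma st_pos (b : List (Ev × Fin n)) (σ : List Ev) (hb : b.map Prod.fst = σ) (hv : Valid σ)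
    (x : ℕ × ℝ × Fin n) (hx : x ∈ st b) : 0 < x.2.1 := by
  have h1 : (x.1, x.2.1) ∈ (st b).map (fun x => (x.1, x.2.1)) := List.mem_map.2 ⟨x, hx, rfl⟩
  rw [st_mapw, hb] at h1
  exact actw_pos σ hv _ h1

lemma load_nonneg' (s : List (ℕ × ℝ × Fin n)) (h : ∀ x ∈ s, 0 < x.2.1) (i : Fin n) :
    0 ≤ load s i := by
  unfold load
  apply List.sum_nonneg
  intro y hy
  rw [List.mem_map] at hy
  obtain ⟨x, hx, rfl⟩ := hy
  split_ifs
  · exact (h x hx).le
  · exact le_refl _

lemma le_load (s : List (ℕ × ℝ × Fin n)) (h : ∀ x ∈ s, 0 < x.2.1) (x : ℕ × ℝ × Fin n)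
    (hx : x ∈ s) : x.2.1 ≤ load s x.2.2 := by
  induction s with
  | nil => simp at hx
  | cons a s ih =>
    rw [load_cons]
    rw [List.mem_cons] at hx
    have hs : ∀ x ∈ s, 0 < x.2.1 := fun y hy => h y (List.mem_cons_of_mem _ hy)
    rcases hx with rfl | hx
    · rw [if_pos rfl]
      have := load_nonneg' s hs x.2.2
      linarith
    · have h1 := ih hs hx
      have h2 : 0 ≤ (if a.2.2 = x.2.2 then a.2.1 else 0) := by
        split_ifs
        · exact (h a (by simp)).le
        · exact le_refl _
      linarith

lemma load_filter_le (s : List (ℕ × ℝ × Fin n)) (h : ∀ x ∈ s, 0 < x.2.1)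
    (p : ℕ × ℝ × Fin n → Bool) (i : Fin n) : load (s.filter p) i ≤ load s i := by
  induction s with
  | nil => simp
  | cons a s ih =>
    have hs : ∀ x ∈ s, 0 < x.2.1 := fun y hy => h y (List.mem_cons_of_mem _ hy)
    have h2 : 0 ≤ (if a.2.2 = i then a.2.1 else 0) := by
      split_ifs
      · exact (h a (by simp)).le
      · exact le_refl _
    have h1 := ih hs
    rw [List.filter_cons]
    split_ifs with hp
    · rw [load_cons, load_cons]; linarith
    · rw [load_cons]; linarith

lemma sum_load (s : List (ℕ × ℝ × Fin n)) :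
    ∑ i, load s i = ((s.map (fun x => (x.1, x.2.1))).map Prod.snd).sum := by
  induction s with
  | nil => simp [load]
  | cons a s ih =>
    simp only [load_cons, Finset.sum_add_distrib, ih, List.map_cons, List.sum_cons]
    simp

/-- machine of least load -/
noncomputable def amin (hn : 0 < n) (s : List (ℕ × ℝ × Fin n)) : Fin n :=
  haveI : Nonempty (Fin n) := ⟨⟨0, hn⟩⟩
  (Finite.exists_min (load s)).choose

lemma amin_le (hn : 0 < n) (s : List (ℕ × ℝ × Fin n)) (i : Fin n) :
    load s (amin hn s) ≤ load s i := by
  have : Nonempty (Fin n) := ⟨⟨0, hn⟩⟩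
  exact (Finite.exists_min (load s)).choose_spec i

noncomputable def grun (hn : 0 < n) : List Ev → List (Ev × Fin n)
  | [] => []
  | e :: h => (e, amin hn (st (grun hn h))) :: grun hn h

/-- greedy -/
noncomputable def greedy (hn : 0 < n) : List Ev → Fin n
  | [] => ⟨0, hn⟩
  | _ :: h => amin hn (st (grun hn h))

lemma ann_greedy (hn : 0 < n) (σ : List Ev) : ann (greedy hn) σ = grun hn σ := by
  induction σ with
  | nil => rfl
  | cons e h ih => simp only [ann, grun, ih, greedy]

lemma grun_fst (hn : 0 < n) (σ : List Ev) : (grun hn σ).map Prod.fst = σ := by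
  rw [← ann_greedy]; exact ann_fst _ _

lemma greedy_nonidling (hn : 0 < n) : NonIdling (greedy hn) := by
  intro l w h hv hid x hx hxe
  obtain ⟨i, hi⟩ := hid
  rw [ann_greedy] at hi hx
  change x.2.2 = amin hn (st (grun hn h)) at hxe
  have hpos : ∀ y ∈ st (grun hn h), 0 < y.2.1 := fun y hy =>
    st_pos (grun hn h) h (grun_fst hn h) hv.1 y hy
  have h1 := amin_le hn (st (grun hn h)) i
  have h2 := le_load _ hpos x hx
  rw [hxe] at h2
  have h3 := hpos x hx
  have h4 : load (st (grun hn h)) i = 0 := by
    unfold load
    apply List.sum_eq_zero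
    intro y hy
    rw [List.mem_map] at hy
    obtain ⟨z, hz, rfl⟩ := hy
    rw [if_neg (hi z hz)]
  linarith

lemma greedy_cost (hn : 0 < n) : ∀ (σ : List Ev), Valid σ → ∀ b : List (Ev × Fin n),
    b.map Prod.fst = σ → cost (grun hn σ) ≤ (2 - 1 / (n : ℝ)) * cost b := by
  have hnr : (1 : ℝ) ≤ n := by exact_mod_cast hn
  have hnp : (0 : ℝ) < n := by linarith
  have hfac : (0 : ℝ) ≤ 2 - 1 / (n : ℝ) := by
    have : 1 / (n : ℝ) ≤ 1 := by rw [div_le_one hnp]; exact hnr
    linarith
  have hne : Nonempty (Fin n) := ⟨⟨0, hn⟩⟩
  intro σ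
  induction σ with
  | nil =>
    intro _ b hb
    have hb' : b = [] := by simpa using hb
    subst hb'
    simp [grun, cost]
  | cons e h ih =>
    intro hv b hb
    cases b with
    | nil => simp at hb
    | cons a b =>
      simp only [List.map_cons, List.cons.injEq] at hb
      obtain ⟨he, hb⟩ := hb
      have hvh : Valid h := by
        cases e with
        | arr l w => exact hv.1
        | dep l => exact hv.1
      have hcb : cost b ≤ cost (a :: b) := le_max_left _ _
      have h1 : cost (grun hn h) ≤ (2 - 1 / (n : ℝ)) * cost (a :: b) :=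
        (ih hvh b hb).trans (mul_le_mul_of_nonneg_left hcb hfac)
      have hpos : ∀ y ∈ st (grun hn h), 0 < y.2.1 := fun y hy =>
        st_pos (grun hn h) h (grun_fst hn h) hvh y hy
      change max (cost (grun hn h)) (⨆ i : Fin n, load (st (grun hn (e :: h))) i) ≤ _
      refine max_le h1 (ciSup_le fun i => ?_)
      cases e with
      | dep l =>
        change load ((st (grun hn h)).filter (fun x => x.1 ≠ l)) i ≤ _
        exact (load_filter_le _ hpos _ i).trans ((load_le_cost' _ i).trans h1)
      | arr l w =>
        have h2 : st (grun hn (Ev.arr l w :: h)) =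
            (l, w, amin hn (st (grun hn h))) :: st (grun hn h) := rfl
        rw [h2, load_cons]
        by_cases hi : amin hn (st (grun hn h)) = i
        · rw [if_pos hi]
          simp only
          have hw : 0 < w := hv.2.1
          -- total weight
          obtain ⟨e', m⟩ := a
          simp only at he
          subst he
          have hab : ((Ev.arr l w, m) :: b).map Prod.fst = Ev.arr l w :: h := by simp [hb]
          have hposb : ∀ y ∈ st ((Ev.arr l w, m) :: b), 0 < y.2.1 := fun y hy =>
            st_pos _ _ hab hv y hy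
          have hwc : w ≤ cost ((Ev.arr l w, m) :: b) := by
            have h3 := le_load (st ((Ev.arr l w, m) :: b)) hposb (l, w, m)
              (List.mem_cons_self)
            exact h3.trans (load_le_cost' _ _)
          have htot : ∑ i, load (st ((Ev.arr l w, m) :: b)) i =
              ∑ i, load (st (grun hn (Ev.arr l w :: h))) i := by
            rw [sum_load, sum_load, st_mapw, st_mapw, hab, grun_fst]
          have hle : ∑ i, load (st ((Ev.arr l w, m) :: b)) i ≤
              ∑ _i : Fin n, cost ((Ev.arr l w, m) :: b) :=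
            Finset.sum_le_sum (fun i _ => load_le_cost' _ i)
          rw [htot, h2] at hle
          simp only [load_cons, Finset.sum_add_distrib, Finset.sum_const, Finset.card_univ,
            Fintype.card_fin, nsmul_eq_mul, Finset.sum_ite_eq, Finset.mem_univ, if_true] at hle
          have hmin : (n : ℝ) * load (st (grun hn h)) i ≤ ∑ k, load (st (grun hn h)) k := by
            have : ∑ _k : Fin n, load (st (grun hn h)) i ≤ ∑ k, load (st (grun hn h)) k := by
              apply Finset.sum_le_sum
              intro k _
              rw [← hi]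
              exact amin_le hn _ k
            simpa using this
          set Cb := cost ((Ev.arr l w, m) :: b) with hCb
          have h5 : (n : ℝ) * load (st (grun hn h)) i + w ≤ n * Cb := by linarith
          have h6 : load (st (grun hn h)) i ≤ Cb - w / n := by
            have : w / n + load (st (grun hn h)) i ≤ Cb := by
              rw [div_add' _ _ _ hnp.ne', div_le_iff₀ hnp]
              linarith
            linarith
          have h7 : w * (1 - 1 / (n : ℝ)) ≤ Cb * (1 - 1 / (n : ℝ)) := by
            apply mul_le_mul_of_nonneg_right hwc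
            have : 1 / (n : ℝ) ≤ 1 := by rw [div_le_one hnp]; exact hnr
            linarith
          have h8 : w / (n : ℝ) = w * (1 / (n : ℝ)) := by ring
          nlinarith
        · rw [if_neg hi, zero_add]
          exact (load_le_cost' _ i).trans h1

/-- greedy as a randomized algorithm -/
noncomputable def greedyR (hn : 0 < n) : RandAlg.{u} n where
  Ω := PUnit
  mΩ := ⊤
  μ := Measure.dirac PUnit.unit
  prob := Measure.dirac.isProbabilityMeasure
  A := fun _ => greedy hn
  meas := fun _ => measurable_const

lemma greedyR_competitive (hn : 0 < n) : (greedyR.{u} hn).Competitive (2 - 1 / (n : ℝ)) := by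
  intro σ hv
  have hnr : (1 : ℝ) ≤ n := by exact_mod_cast hn
  have hnp : (0 : ℝ) < n := by linarith
  have hfac : (0 : ℝ) < 2 - 1 / (n : ℝ) := by
    have : 1 / (n : ℝ) ≤ 1 := by rw [div_le_one hnp]; exact hnr
    linarith
  have h1 : (greedyR.{u} hn).ecost σ = cost (grun hn σ) := by
    unfold RandAlg.ecost
    have : ∀ ω, cost (ann ((greedyR.{u} hn).A ω) σ) = cost (grun hn σ) := by
      intro ω
      change cost (ann (greedy hn) σ) = _
      rw [ann_greedy]
    simp only [this, integral_const, smul_eq_mul]
    simp
  rw [h1]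
  have h2 : cost (grun hn σ) / (2 - 1 / (n : ℝ)) ≤ OPT n σ := by
    unfold OPT
    apply le_csInf
    · exact ⟨cost (grun hn σ), grun hn σ, grun_fst hn σ, rfl⟩
    · rintro c ⟨b, hb, rfl⟩
      rw [div_le_iff₀ hfac, mul_comm]
      exact greedy_cost hn σ hv b hb
  rw [div_le_iff₀ hfac] at h2
  linarith

end Pool.Agent.Helper872.LoadBal
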